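import Mathlib
import Pool.Agent.MP_452076_pr.Defs

-- part MP_452076_pr.Prod
section

/-!
Product measures: locality, independence, freezing, Harris inequality.
-/

namespace Pool.Agent.MP_452076_pr

open MeasureTheory ProbabilityTheory Set
open scoped NNReal ENNReal

theorem rmono {Ω : Type*} [MeasurableSpace Ω] {μ : Measure Ω} [IsFiniteMeasure μ] {s t : Set Ω}
    (h : s ⊆ t) : μ.real s ≤ μ.real t := measureReal_mono h (measure_ne_top _ _)

theorem runion {Ω : Type*} [MeasurableSpace Ω] {μ : Measure Ω} [IsFiniteMeasure μ] {s t u : Set Ω}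
    (h : s ⊆ t ∪ u) : μ.real s ≤ μ.real t + μ.real u :=
  (rmono h).trans (measureReal_union_le _ _)

theorem rbiUnion {Ω κ : Type*} [MeasurableSpace Ω] {μ : Measure Ω} [IsFiniteMeasure μ] {s : Set Ω}
    {S : Finset κ} {G : κ → Set Ω} (h : s ⊆ ⋃ k ∈ S, G k) {c : ℝ} (hc : ∀ k ∈ S, μ.real (G k) ≤ c) :
    μ.real s ≤ S.card * c := by
  have h2 := (measureReal_biUnion_finset_le (μ := μ) _ _).trans
    (Finset.sum_le_card_nsmul _ _ _ hc)
  rw [nsmul_eq_mul] at h2
  exact (rmono h).trans h2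

section general
variable {ι β : Type*}

/-- The event `A` depends only on the coordinates in `J`. -/
def Loc (J : Set ι) (A : Set (ι → β)) : Prop :=
  ∀ ω ω' : ι → β, (∀ i ∈ J, ω i = ω' i) → ω ∈ A → ω' ∈ A

theorem Loc.mono {J J' : Set ι} {A : Set (ι → β)} (h : Loc J A) (hJ : J ⊆ J') : Loc J' A :=
  fun ω ω' e => h ω ω' fun i hi => e i (hJ hi)

theorem Loc.iff {J : Set ι} {A : Set (ι → β)} (h : Loc J A) {ω ω' : ι → β}
    (e : ∀ i ∈ J, ω i = ω' i) : ω ∈ A ↔ ω' ∈ A :=
  ⟨h ω ω' e, h ω' ω fun i hi => (e i hi).symm⟩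

theorem Loc.compl {J : Set ι} {A : Set (ι → β)} (h : Loc J A) : Loc J Aᶜ :=
  fun _ _ e h1 h2 => h1 ((h.iff e).2 h2)

theorem Loc.inter {J : Set ι} {A B : Set (ι → β)} (h : Loc J A) (h' : Loc J B) :
    Loc J (A ∩ B) := fun ω ω' e h1 => ⟨h ω ω' e h1.1, h' ω ω' e h1.2⟩

theorem Loc.union {J : Set ι} {A B : Set (ι → β)} (h : Loc J A) (h' : Loc J B) :
    Loc J (A ∪ B) := fun ω ω' e h1 => h1.imp (h ω ω' e) (h' ω ω' e)

theorem Loc.diff {J : Set ι} {A B : Set (ι → β)} (h : Loc J A) (h' : Loc J B) :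
    Loc J (A \ B) := h.inter h'.compl

theorem Loc.iUnion {κ : Sort*} {J : Set ι} {A : κ → Set (ι → β)} (h : ∀ k, Loc J (A k)) :
    Loc J (⋃ k, A k) := fun ω ω' e h1 => by
  rw [mem_iUnion] at h1 ⊢
  obtain ⟨k, hk⟩ := h1
  exact ⟨k, h k ω ω' e hk⟩

theorem Loc.iInter {κ : Sort*} {J : Set ι} {A : κ → Set (ι → β)} (h : ∀ k, Loc J (A k)) :
    Loc J (⋂ k, A k) := fun ω ω' e h1 => by
  rw [mem_iInter] at h1 ⊢
  exact fun k => h k ω ω' e (h1 k)

theorem loc_univ (J : Set ι) : Loc J (univ : Set (ι → β)) := fun _ _ _ _ => trivial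

theorem loc_empty (J : Set ι) : Loc J (∅ : Set (ι → β)) := fun _ _ _ h => h

open Classical in
/-- Take the coordinates in `J` from the first point and the others from the second. -/
noncomputable def glue (J : Set ι) (p : (ι → β) × (ι → β)) : ι → β :=
  fun i => if i ∈ J then p.1 i else p.2 i

variable [MeasurableSpace β]

theorem measurable_glue (J : Set ι) : Measurable (glue (β := β) J) := by
  classical
  refine measurable_pi_lambda _ fun i => ?_
  unfold glue
  split_ifs
  · exact (measurable_pi_apply i).comp measurable_fst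
  · exact (measurable_pi_apply i).comp measurable_snd

variable (ν : ι → Measure β) [∀ i, IsProbabilityMeasure (ν i)]

theorem map_glue (J : Set ι) :
    ((Measure.infinitePi ν).prod (Measure.infinitePi ν)).map (glue J) = Measure.infinitePi ν := by
  classical
  refine Measure.eq_infinitePi _ fun s t ht => ?_
  rw [Measure.map_apply (measurable_glue J) (.pi s.countable_toSet fun _ _ => ht _)]
  have : glue J ⁻¹' ((s : Set ι).pi t) =
      (((s.filter (· ∈ J) : Finset ι) : Set ι).pi t) ×ˢ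
        (((s.filter (fun i => ¬ i ∈ J) : Finset ι) : Set ι).pi t) := by
    ext ⟨a, b⟩
    simp only [mem_preimage, mem_pi, Finset.mem_coe, glue, mem_prod, Finset.mem_filter]
    constructor
    · intro h
      refine ⟨fun i hi => ?_, fun i hi => ?_⟩
      · have := h i hi.1
        rwa [if_pos hi.2] at this
      · have := h i hi.1
        rwa [if_neg hi.2] at this
    · intro h i hi
      split_ifs with hJ
      · exact h.1 i ⟨hi, hJ⟩
      · exact h.2 i ⟨hi, hJ⟩
  rw [this, Measure.prod_prod, Measure.infinitePi_pi _ (fun i _ => ht i),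
    Measure.infinitePi_pi _ (fun i _ => ht i), Finset.prod_filter_mul_prod_filter_not]

theorem measure_eq_lintegral_glue (J : Set ι) {E : Set (ι → β)} (hE : MeasurableSet E) :
    Measure.infinitePi ν E =
      ∫⁻ a, Measure.infinitePi ν {b | glue J (a, b) ∈ E} ∂(Measure.infinitePi ν) := by
  conv_lhs => rw [← map_glue ν J]
  rw [Measure.map_apply (measurable_glue J) hE, Measure.prod_apply (measurable_glue J hE)]
  rfl

theorem indep_loc {J : Set ι} {A B : Set (ι → β)} (hA : Loc J A) (hB : Loc Jᶜ B)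
    (mA : MeasurableSet A) (mB : MeasurableSet B) :
    Measure.infinitePi ν (A ∩ B) = Measure.infinitePi ν A * Measure.infinitePi ν B := by
  classical
  conv_lhs => rw [← map_glue ν J]
  rw [Measure.map_apply (measurable_glue J) (mA.inter mB), ← Measure.prod_prod]
  congr 1
  ext ⟨a, b⟩
  simp only [mem_preimage, mem_inter_iff, mem_prod]
  rw [hA.iff (ω' := a) (fun i hi => by simp [glue, hi]),
    hB.iff (ω' := b) (fun i hi => by simp only [glue]; rw [if_neg hi])]

theorem indep_loc_real {J J' : Set ι} {A B : Set (ι → β)} (hA : Loc J A) (hB : Loc J' B)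
    (hd : Disjoint J J') (mA : MeasurableSet A) (mB : MeasurableSet B) :
    (Measure.infinitePi ν).real (A ∩ B) =
      (Measure.infinitePi ν).real A * (Measure.infinitePi ν).real B := by
  simp only [Measure.real]
  rw [indep_loc ν hA (hB.mono hd.subset_compl_left) mA mB, ENNReal.toReal_mul]

/-- Freezing: lower bound for the conditional probability of `E` given the coordinates in `J`. -/
theorem freeze {J : Set ι} {H E : Set (ι → β)} (hH : Loc J H) (mH : MeasurableSet H)
    (mE : MeasurableSet E) {c : ℝ}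
    (h : ∀ a ∈ H, ∃ K : Set (ι → β), Loc Jᶜ K ∧ c ≤ (Measure.infinitePi ν).real K ∧
      ∀ ω, (∀ i ∈ J, ω i = a i) → ω ∈ K → ω ∈ E) :
    c * (Measure.infinitePi ν).real H ≤ (Measure.infinitePi ν).real (H ∩ E) := by
  classical
  rcases le_or_gt c 0 with hc | hc
  · exact (mul_nonpos_of_nonpos_of_nonneg hc measureReal_nonneg).trans measureReal_nonneg
  have key : ENNReal.ofReal c * Measure.infinitePi ν H ≤ Measure.infinitePi ν (H ∩ E) := by
    rw [measure_eq_lintegral_glue ν J (mH.inter mE), ← lintegral_indicator_const mH]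
    refine lintegral_mono fun a => ?_
    by_cases ha : a ∈ H
    · rw [indicator_of_mem ha]
      obtain ⟨K, hK, hc', hE⟩ := h a ha
      refine (ENNReal.ofReal_le_of_le_toReal hc').trans (measure_mono fun b hb => ?_)
      refine ⟨hH a _ (fun i hi => by simp [glue, hi]) ha, hE _ (fun i hi => by simp [glue, hi]) ?_⟩
      exact hK b _ (fun i hi => by simp only [glue]; rw [if_neg hi]) hb
    · rw [indicator_of_notMem ha]; exact zero_le
  have := ENNReal.toReal_mono (measure_ne_top _ _) key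
  rwa [ENNReal.toReal_mul, ENNReal.toReal_ofReal hc.le] at this

/-- Freezing, upper bound form. -/
theorem freeze_le {J : Set ι} {H B : Set (ι → β)} (hH : Loc J H) (mH : MeasurableSet H)
    (mB : MeasurableSet B) {c : ℝ}
    (h : ∀ a ∈ H, ∃ K : Set (ι → β), Loc Jᶜ K ∧ MeasurableSet K ∧
      (Measure.infinitePi ν).real Kᶜ ≤ c ∧ ∀ ω, (∀ i ∈ J, ω i = a i) → ω ∈ K → ω ∉ B) :
    (Measure.infinitePi ν).real (H ∩ B) ≤ c * (Measure.infinitePi ν).real H := by
  have h1 := freeze ν hH mH mB.compl (c := 1 - c) fun a ha => by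
    obtain ⟨K, hK, mK, hc, hE⟩ := h a ha
    refine ⟨K, hK, ?_, hE⟩
    rw [probReal_compl_eq_one_sub mK] at hc
    linarith
  have h2 := measureReal_inter_add_sdiff (μ := Measure.infinitePi ν) (s := H) mB
  rw [Set.sdiff_eq] at h2
  linarith

/-- Independent trials. -/
theorem measure_iInter_le_pow {κ : Type*} (S : Finset κ) (J : κ → Set ι) (G : κ → Set (ι → β))
    (hG : ∀ k ∈ S, Loc (J k) (G k)) (mG : ∀ k ∈ S, MeasurableSet (G k))
    (hd : ∀ k ∈ S, ∀ k' ∈ S, k ≠ k' → Disjoint (J k) (J k')) {c : ℝ}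
    (hc : ∀ k ∈ S, (Measure.infinitePi ν).real (G k) ≤ c) :
    (Measure.infinitePi ν).real (⋂ k ∈ S, G k) ≤ c ^ S.card := by
  classical
  induction S using Finset.induction_on with
  | empty => simp
  | insert a S ha ih =>
    rw [Finset.set_biInter_insert, Finset.card_insert_of_notMem ha, pow_succ']
    have hS : ∀ k ∈ S, k ∈ insert a S := fun k hk => Finset.mem_insert_of_mem hk
    have ha' := Finset.mem_insert_self a S
    rw [indep_loc_real ν (hG a ha') (J' := (J a)ᶜ) ?_ disjoint_compl_right (mG a ha')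
      (Finset.measurableSet_biInter _ fun k hk => mG k (hS k hk))]
    · exact mul_le_mul (hc a ha') (ih (fun k hk => hG k (hS k hk)) (fun k hk => mG k (hS k hk))
        (fun k hk k' hk' => hd k (hS k hk) k' (hS k' hk')) (fun k hk => hc k (hS k hk)))
        measureReal_nonneg (measureReal_nonneg.trans (hc a ha'))
    · refine Loc.iInter fun k => Loc.iInter fun hk => (hG k (hS k hk)).mono ?_
      exact (hd a ha' k (hS k hk) (fun e => ha (e ▸ hk))).subset_compl_left

theorem map_comp_equiv (e : ι ≃ ι) (he : ∀ i, ν (e i) = ν i) :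
    (Measure.infinitePi ν).map (fun ω i => ω (e i)) = Measure.infinitePi ν := by
  classical
  refine Measure.eq_infinitePi _ fun s t ht => ?_
  rw [Measure.map_apply (by fun_prop) (.pi s.countable_toSet fun _ _ => ht _)]
  have : (fun (ω : ι → β) i => ω (e i)) ⁻¹' ((s : Set ι).pi t) =
      ((s.map e.toEmbedding : Finset ι) : Set ι).pi (fun j => t (e.symm j)) := by
    ext ω
    simp only [mem_preimage, mem_pi, Finset.mem_coe, Finset.mem_map_equiv]
    constructor
    · intro h j hj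
      simpa using h _ hj
    · intro h i hi
      simpa using h (e i) (by simpa using hi)
  rw [this, Measure.infinitePi_pi _ (fun i _ => ht _), Finset.prod_map]
  simp [he]

theorem real_comp_equiv (e : ι ≃ ι) (he : ∀ i, ν (e i) = ν i) {A : Set (ι → β)}
    (mA : MeasurableSet A) :
    (Measure.infinitePi ν).real {ω | (fun i => ω (e i)) ∈ A} = (Measure.infinitePi ν).real A := by
  conv_rhs => rw [← map_comp_equiv ν e he]
  rw [map_measureReal_apply (by fun_prop) mA]
  rfl

end general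

section bool
variable {ι : Type*}

theorem measurableSet_coord (i : ι) (b : Bool) : MeasurableSet {ω : ι → Bool | ω i = b} :=
  (measurable_pi_apply i : Measurable fun ω : ι → Bool => ω i) (measurableSet_singleton b)

theorem loc_coord (i : ι) (b : Bool) : Loc {i} {ω : ι → Bool | ω i = b} :=
  fun _ _ e h => (e i rfl).symm.trans h

open Classical in
theorem split_coord (A : Set (ι → Bool)) (i : ι) :
    A = ({ω | Function.update ω i true ∈ A} ∩ {ω | ω i = true}) ∪
      ({ω | Function.update ω i false ∈ A} ∩ {ω | ω i = false}) := by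
  ext ω
  simp only [mem_union, mem_inter_iff, mem_ofPred_eq]
  cases h : ω i
  · have : Function.update ω i false = ω := by rw [← h]; simp
    simp [this]
  · have : Function.update ω i true = ω := by rw [← h]; simp
    simp [this]

open Classical in
theorem Loc.update {J : Set ι} {i : ι} {A : Set (ι → Bool)} (h : Loc (insert i J) A) (b : Bool) :
    Loc (J \ {i}) {ω | Function.update ω i b ∈ A} := by
  intro ω ω' e h1
  refine h _ _ (fun j hj => ?_) h1
  by_cases hji : j = i
  · subst hji; simp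
  · simp only [Function.update_of_ne hji]
    exact e j ⟨hj.resolve_left hji, hji⟩

theorem Loc.measurableSet {J : Set ι} (hJ : J.Finite) {A : Set (ι → Bool)} (h : Loc J A) :
    MeasurableSet A := by
  induction J, hJ using Set.Finite.induction_on generalizing A with
  | empty =>
    rcases A.eq_empty_or_nonempty with rfl | ⟨a, ha⟩
    · exact .empty
    · have : A = univ := eq_univ_of_forall fun b => h a b (fun _ hi => hi.elim) ha
      rw [this]; exact .univ
  | @insert i J _ _ ih =>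
    rw [split_coord A i]
    exact ((ih ((h.update true).mono sdiff_subset)).inter (measurableSet_coord _ _)).union
      ((ih ((h.update false).mono sdiff_subset)).inter (measurableSet_coord _ _))

variable (ν : ι → Measure Bool) [∀ i, IsProbabilityMeasure (ν i)]

theorem real_coord (i : ι) (b : Bool) :
    (Measure.infinitePi ν).real {ω | ω i = b} = (ν i).real {b} := by
  rw [← Measure.infinitePi_map_eval ν i,
    map_measureReal_apply (measurable_pi_apply i) (measurableSet_singleton b)]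
  rfl

theorem real_true_add_false (m : Measure Bool) [IsProbabilityMeasure m] :
    m.real {true} + m.real {false} = 1 := by
  have : ({false} : Set Bool) = {true}ᶜ := by ext b; cases b <;> simp
  rw [this, probReal_compl_eq_one_sub (measurableSet_singleton _)]
  ring

open Classical in
theorem real_split {J : Set ι} (hJ : J.Finite) {i : ι} {A : Set (ι → Bool)}
    (h : Loc (insert i J) A) :
    (Measure.infinitePi ν).real A =
      (Measure.infinitePi ν).real {ω | Function.update ω i true ∈ A} * (ν i).real {true} +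
      (Measure.infinitePi ν).real {ω | Function.update ω i false ∈ A} * (ν i).real {false} := by
  have m1 := ((h.update true).mono sdiff_subset).measurableSet hJ
  have m0 := ((h.update false).mono sdiff_subset).measurableSet hJ
  conv_lhs => rw [split_coord A i]
  rw [measureReal_union _ (m0.inter (measurableSet_coord _ _)),
    indep_loc_real ν (h.update true) (loc_coord i true) disjoint_sdiff_left m1
      (measurableSet_coord _ _),
    indep_loc_real ν (h.update false) (loc_coord i false) disjoint_sdiff_left m0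
      (measurableSet_coord _ _), real_coord, real_coord]
  rw [Set.disjoint_left]
  rintro ω ⟨-, h1⟩ ⟨-, h2⟩
  simp only [mem_ofPred_eq] at h1 h2
  rw [h1] at h2
  cases h2

/-- Harris inequality. -/
theorem harris {J : Set ι} (hJ : J.Finite) {A B : Set (ι → Bool)} (hA : Loc J A) (hB : Loc J B)
    (uA : IsUpperSet A) (uB : IsUpperSet B) :
    (Measure.infinitePi ν).real A * (Measure.infinitePi ν).real B ≤
      (Measure.infinitePi ν).real (A ∩ B) := by
  classical
  induction J, hJ using Set.Finite.induction_on generalizing A B with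
  | empty =>
    rw [indep_loc_real ν hA hB disjoint_bot_left (hA.measurableSet finite_empty)
      (hB.measurableSet finite_empty)]
  | @insert i J _ hJ ih =>
    have up : ∀ {C : Set (ι → Bool)}, IsUpperSet C → ∀ b,
        IsUpperSet {ω | Function.update ω i b ∈ C} := fun uC b x y hxy hx =>
      uC (update_le_update_iff.2 ⟨le_rfl, fun j _ => hxy j⟩) hx
    have sub : ∀ {C : Set (ι → Bool)}, IsUpperSet C →
        {ω | Function.update ω i false ∈ C} ⊆ {ω | Function.update ω i true ∈ C} :=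
      fun uC x hx => uC (update_le_update_iff.2 ⟨Bool.false_le _, fun j _ => le_rfl⟩) hx
    rw [real_split ν hJ hA, real_split ν hJ hB, real_split ν hJ (hA.inter hB)]
    have i1 := ih ((hA.update true).mono sdiff_subset) ((hB.update true).mono sdiff_subset)
      (up uA true) (up uB true)
    have i0 := ih ((hA.update false).mono sdiff_subset) ((hB.update false).mono sdiff_subset)
      (up uA false) (up uB false)
    have sA := measureReal_mono (μ := Measure.infinitePi ν) (sub uA)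
    have sB := measureReal_mono (μ := Measure.infinitePi ν) (sub uB)
    have hp := real_true_add_false (ν i)
    have p1 : 0 ≤ (ν i).real {true} := measureReal_nonneg
    have p0 : 0 ≤ (ν i).real {false} := measureReal_nonneg
    change _ ≤ (Measure.infinitePi ν).real
      ({ω | Function.update ω i true ∈ A} ∩ {ω | Function.update ω i true ∈ B}) * _ +
      (Measure.infinitePi ν).real
      ({ω | Function.update ω i false ∈ A} ∩ {ω | Function.update ω i false ∈ B}) * _
    generalize (Measure.infinitePi ν).real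
      ({ω | Function.update ω i true ∈ A} ∩ {ω | Function.update ω i true ∈ B}) = c1 at *
    generalize (Measure.infinitePi ν).real
      ({ω | Function.update ω i false ∈ A} ∩ {ω | Function.update ω i false ∈ B}) = c0 at *
    generalize (Measure.infinitePi ν).real {ω | Function.update ω i true ∈ A} = a1 at *
    generalize (Measure.infinitePi ν).real {ω | Function.update ω i false ∈ A} = a0 at *
    generalize (Measure.infinitePi ν).real {ω | Function.update ω i true ∈ B} = b1 at *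
    generalize (Measure.infinitePi ν).real {ω | Function.update ω i false ∈ B} = b0 at *
    generalize (ν i).real {true} = p at *
    generalize (ν i).real {false} = q at *
    have hq : q = 1 - p := by linarith
    subst hq
    nlinarith [mul_le_mul_of_nonneg_right i1 p1, mul_le_mul_of_nonneg_right i0 p0,
      mul_nonneg (mul_nonneg p1 p0) (mul_nonneg (sub_nonneg.2 sA) (sub_nonneg.2 sB))]

theorem harris_lower {J : Set ι} (hJ : J.Finite) {A B : Set (ι → Bool)} (hA : Loc J A)
    (hB : Loc J B) (uA : IsLowerSet A) (uB : IsLowerSet B) :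
    (Measure.infinitePi ν).real A * (Measure.infinitePi ν).real B ≤
      (Measure.infinitePi ν).real (A ∩ B) := by
  have h := harris ν hJ hA.compl hB.compl uA.compl uB.compl
  have mA := hA.measurableSet hJ
  have mB := hB.measurableSet hJ
  rw [← compl_union, probReal_compl_eq_one_sub mA, probReal_compl_eq_one_sub mB,
    probReal_compl_eq_one_sub (mA.union mB)] at h
  have := measureReal_union_add_inter (μ := Measure.infinitePi ν) (s := A) mB
  nlinarith

theorem harris_pow {κ : Type*} (S : Finset κ) (G : κ → Set (ι → Bool))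
    (hG : ∀ k ∈ S, ∃ J : Set ι, J.Finite ∧ Loc J (G k))
    (uG : (∀ k ∈ S, IsUpperSet (G k)) ∨ (∀ k ∈ S, IsLowerSet (G k))) {c : ℝ} (hc0 : 0 ≤ c)
    (hc : ∀ k ∈ S, c ≤ (Measure.infinitePi ν).real (G k)) :
    c ^ S.card ≤ (Measure.infinitePi ν).real (⋂ k ∈ S, G k) := by
  classical
  induction S using Finset.induction_on with
  | empty => simp
  | insert a S ha ih =>
    rw [Finset.set_biInter_insert, Finset.card_insert_of_notMem ha, pow_succ']
    have hS : ∀ k ∈ S, k ∈ insert a S := fun k hk => Finset.mem_insert_of_mem hk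
    have ha' := Finset.mem_insert_self a S
    choose! J hJ hL using hG
    have fin : (⋃ k ∈ insert a S, J k).Finite :=
      Set.Finite.biUnion (Finset.finite_toSet _) fun k hk => hJ k hk
    have l1 : Loc (⋃ k ∈ insert a S, J k) (G a) :=
      (hL a ha').mono (subset_biUnion_of_mem (u := J) ha')
    have l2 : Loc (⋃ k ∈ insert a S, J k) (⋂ k ∈ S, G k) :=
      Loc.iInter fun k => Loc.iInter fun hk =>
        (hL k (hS k hk)).mono (subset_biUnion_of_mem (u := J) (hS k hk))
    have ih' := ih (fun k hk => ⟨J k, hJ k (hS k hk), hL k (hS k hk)⟩)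
      (uG.imp (fun h k hk => h k (hS k hk)) (fun h k hk => h k (hS k hk)))
      (fun k hk => hc k (hS k hk))
    refine (mul_le_mul (hc a ha') ih' (pow_nonneg hc0 _) measureReal_nonneg).trans ?_
    rcases uG with uG | uG
    · exact harris ν fin l1 l2 (uG a ha')
        (isUpperSet_iInter₂ fun k hk => uG k (hS k hk))
    · exact harris_lower ν fin l1 l2 (uG a ha')
        (isLowerSet_iInter₂ fun k hk => uG k (hS k hk))

theorem real_all (S : Finset ι) (b : Bool) :
    (Measure.infinitePi ν).real {ω | ∀ i ∈ S, ω i = b} = ∏ i ∈ S, (ν i).real {b} := by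
  have : {ω : ι → Bool | ∀ i ∈ S, ω i = b} = (S : Set ι).pi fun _ => {b} := by
    ext; simp
  rw [this, Measure.real, Measure.infinitePi_pi _ (fun _ _ => measurableSet_singleton b),
    ENNReal.toReal_prod]
  rfl

end bool

end Pool.Agent.MP_452076_pr

end

-- part MP_452076_pr.Disc
section

/-!
The discrete-time model: time slots, paths, locality, symmetries.
-/

namespace Pool.Agent.MP_452076_pr

open MeasureTheory ProbabilityTheory Set
open scoped NNReal ENNReal

variable {d : ℕ}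

abbrev Idx (d : ℕ) : Type := (Site d × Site d) × ℤ

abbrev Cfg (d : ℕ) : Type := Idx d → Bool

/-! ### Geometry -/

theorem Adj.symm {x y : Site d} (h : Adj x y) : Adj y x := by
  unfold Adj at h ⊢
  rw [← h]
  exact Finset.sum_congr rfl fun i _ => abs_sub_comm _ _

theorem Adj.ne {x y : Site d} (h : Adj x y) : x ≠ y := by
  rintro rfl
  simp [Adj] at h

theorem Adj.abs_le {x y : Site d} (h : Adj x y) (i : Fin d) : |x i - y i| ≤ 1 := by
  rw [← h]
  exact Finset.single_le_sum (f := fun i => |x i - y i|) (fun _ _ => abs_nonneg _)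
    (Finset.mem_univ i)

noncomputable def cube (c : Site d) (r : ℕ) : Finset (Site d) :=
  Fintype.piFinset fun i => Finset.Icc (c i - r) (c i + r)

theorem mem_cube {c x : Site d} {r : ℕ} : x ∈ cube c r ↔ ∀ i, |x i - c i| ≤ r := by
  simp only [cube, Fintype.mem_piFinset, Finset.mem_Icc, abs_le]
  exact forall_congr' fun i => ⟨fun h => ⟨by omega, by omega⟩, fun h => ⟨by omega, by omega⟩⟩

theorem card_cube (c : Site d) (r : ℕ) : (cube c r).card = (2 * r + 1) ^ d := by
  simp only [cube, Fintype.card_piFinset, Int.card_Icc]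
  have : ∀ i, (c i + r + 1 - (c i - r)).toNat = 2 * r + 1 := fun i => by omega
  simp [this]

theorem self_mem_cube (c : Site d) (r : ℕ) : c ∈ cube c r := by simp [mem_cube]

theorem cube_subset {c c' : Site d} {r r' R : ℕ} (h : c ∈ cube c' r') (hR : r + r' ≤ R) :
    cube c r ⊆ cube c' R := by
  intro x hx
  rw [mem_cube] at h hx ⊢
  intro i
  have h1 := abs_le.1 (h i)
  have h2 := abs_le.1 (hx i)
  rw [abs_le]; constructor <;> omega

theorem Adj.mem_cube {x y : Site d} (h : Adj x y) : y ∈ cube x 1 := by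
  rw [Pool.Agent.MP_452076_pr.mem_cube]
  intro i
  simpa using h.symm.abs_le i

/-- The `l¹` distance. -/
def l1 (x y : Site d) : ℤ := ∑ i, |x i - y i|

theorem l1_nonneg (x y : Site d) : 0 ≤ l1 x y := Finset.sum_nonneg fun _ _ => abs_nonneg _

theorem l1_triangle (x y z : Site d) : l1 x z ≤ l1 x y + l1 y z := by
  unfold l1
  rw [← Finset.sum_add_distrib]
  exact Finset.sum_le_sum fun i _ => abs_sub_le _ _ _

theorem abs_le_l1 (x y : Site d) (i : Fin d) : |x i - y i| ≤ l1 x y :=
  Finset.single_le_sum (f := fun i => |x i - y i|) (fun _ _ => abs_nonneg _) (Finset.mem_univ i)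

theorem l1_le_of_mem_cube {c x : Site d} {r : ℕ} (h : x ∈ cube c r) : l1 x c ≤ r * d := by
  rw [mem_cube] at h
  unfold l1
  calc ∑ i, |x i - c i| ≤ ∑ _i : Fin d, (r : ℤ) := Finset.sum_le_sum fun i _ => h i
    _ = r * d := by simp [mul_comm]

theorem l1_eq_zero {x y : Site d} (h : l1 x y ≤ 0) : x = y := by
  funext i
  have := (abs_le_l1 x y i).trans h
  have h2 := abs_nonneg (x i - y i)
  have : |x i - y i| = 0 := le_antisymm this h2
  rw [abs_eq_zero] at this
  omega

/-- One step along a geodesic inside a cube. -/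
theorem exists_geodesic {c x y : Site d} {r : ℕ} (hx : x ∈ cube c r) (hy : y ∈ cube c r)
    (hne : y ≠ x) : ∃ z ∈ cube c r, Adj z y ∧ l1 z x + 1 = l1 y x := by
  obtain ⟨i, hi⟩ : ∃ i, y i ≠ x i := by
    by_contra h
    push Not at h
    exact hne (funext h)
  rw [mem_cube] at hx hy
  have hx' := abs_le.1 (hx i)
  have hy' := abs_le.1 (hy i)
  obtain ⟨v, hv1, hv2, hv3⟩ : ∃ v : ℤ, |v - c i| ≤ r ∧ |v - y i| = 1 ∧
      |v - x i| + 1 = |y i - x i| := by
    rcases lt_or_gt_of_ne hi with h | h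
    · refine ⟨y i + 1, abs_le.2 ⟨by omega, by omega⟩, by simp, ?_⟩
      rw [abs_of_nonpos (by omega), abs_of_nonpos (by omega)]; ring
    · refine ⟨y i - 1, abs_le.2 ⟨by omega, by omega⟩, by simp, ?_⟩
      rw [abs_of_nonneg (by omega), abs_of_nonneg (by omega)]; ring
  refine ⟨Function.update y i v, mem_cube.2 fun j => ?_, ?_, ?_⟩
  · by_cases hj : j = i
    · subst hj; simpa using hv1
    · simpa [Function.update_of_ne hj] using hy j
  · unfold Adj
    rw [Finset.sum_eq_single i (fun j _ hj => by simp [Function.update_of_ne hj]) (by simp)]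
    simpa using hv2
  · unfold l1
    rw [← Finset.add_sum_erase _ _ (Finset.mem_univ i),
      ← Finset.add_sum_erase _ (fun j => |y j - x j|) (Finset.mem_univ i)]
    have : ∑ j ∈ Finset.univ.erase i, |Function.update y i v j - x j| =
        ∑ j ∈ Finset.univ.erase i, |y j - x j| :=
      Finset.sum_congr rfl fun j hj => by
        rw [Function.update_of_ne (Finset.ne_of_mem_erase hj)]
    rw [this]
    simp only [Function.update_self]
    linarith

/-! ### Paths -/

def step (ω : Cfg d) (s : ℤ) (x y : Site d) : Prop :=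
  (x = y ∨ Adj x y) ∧ ω ((x, x), s) = true ∧ ω ((y, y), s) = true ∧ ω ((x, y), s) = true

def reach (ω : Cfg d) (A : Set (Site d)) (s : ℤ) : ℕ → Set (Site d)
  | 0 => A
  | k + 1 => {y | ∃ x ∈ reach ω A s k, step ω (s + k) x y}

theorem reach_zero (ω : Cfg d) (A : Set (Site d)) (s : ℤ) : reach ω A s 0 = A := rfl

theorem mem_reach_succ {ω : Cfg d} {A : Set (Site d)} {s : ℤ} {k : ℕ} {y : Site d} :
    y ∈ reach ω A s (k + 1) ↔ ∃ x ∈ reach ω A s k, step ω (s + k) x y := Iff.rfl

theorem step.mono {ω ω' : Cfg d} (h : ω ≤ ω') {s : ℤ} {x y : Site d} (hs : step ω s x y) :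
    step ω' s x y := by
  have f : ∀ i, ω i = true → ω' i = true := fun i hi => by
    have := h i
    rw [hi] at this
    exact top_le_iff.1 this
  exact ⟨hs.1, f _ hs.2.1, f _ hs.2.2.1, f _ hs.2.2.2⟩

theorem reach_mono {ω ω' : Cfg d} (h : ω ≤ ω') {A A' : Set (Site d)} (hA : A ⊆ A') (s : ℤ)
    (k : ℕ) : reach ω A s k ⊆ reach ω' A' s k := by
  induction k with
  | zero => exact hA
  | succ k ih =>
    rintro y ⟨x, hx, hs⟩
    exact ⟨x, ih hx, hs.mono h⟩

theorem reach_add (ω : Cfg d) (A : Set (Site d)) (s : ℤ) (k l : ℕ) :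
    reach ω A s (k + l) = reach ω (reach ω A s k) (s + k) l := by
  induction l with
  | zero => rfl
  | succ l ih =>
    ext y
    rw [← add_assoc, mem_reach_succ, mem_reach_succ, ih, Nat.cast_add, add_assoc]

theorem reach_congr {ω ω' : Cfg d} (A : Set (Site d)) (s : ℤ) (k : ℕ)
    (h : ∀ x y t, (x = y ∨ Adj x y) → s ≤ t → t < s + k → ω ((x, y), t) = ω' ((x, y), t)) :
    reach ω A s k = reach ω' A s k := by
  induction k with
  | zero => rfl
  | succ k ih =>
    ext y
    rw [mem_reach_succ, mem_reach_succ,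
      ih fun x y t h1 h2 h3 => h x y t h1 h2 (by push_cast; omega)]
    refine exists_congr fun x => and_congr_right fun _ => ?_
    unfold step
    refine and_congr_right fun hxy => ?_
    have h2 : s ≤ s + k := by omega
    have h3 : s + k < s + (k + 1 : ℕ) := by push_cast; omega
    rw [h x x _ (Or.inl rfl) h2 h3, h y y _ (Or.inl rfl) h2 h3, h x y _ hxy h2 h3]

theorem reach_empty (ω : Cfg d) (s : ℤ) (k : ℕ) : reach ω ∅ s k = ∅ := by
  induction k with
  | zero => rfl
  | succ k ih =>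
    ext y
    simp [mem_reach_succ, ih]

theorem reach_nonempty_of_le {ω : Cfg d} {A : Set (Site d)} {s : ℤ} {k l : ℕ} (hkl : k ≤ l)
    (h : (reach ω A s l).Nonempty) : (reach ω A s k).Nonempty := by
  obtain ⟨m, rfl⟩ := Nat.exists_eq_add_of_le hkl
  rw [reach_add] at h
  by_contra h'
  rw [not_nonempty_iff_eq_empty] at h'
  rw [h', reach_empty] at h
  exact not_nonempty_empty h

theorem mem_reach_iff_exists {ω : Cfg d} {A : Set (Site d)} {s : ℤ} {k : ℕ} {y : Site d} :
    y ∈ reach ω A s k ↔ ∃ x ∈ A, y ∈ reach ω {x} s k := by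
  constructor
  · induction k generalizing y with
    | zero => exact fun h => ⟨y, h, rfl⟩
    | succ k ih =>
      rintro ⟨z, hz, hs⟩
      obtain ⟨x, hx, hz'⟩ := ih hz
      exact ⟨x, hx, z, hz', hs⟩
  · rintro ⟨x, hx, h⟩
    exact reach_mono le_rfl (singleton_subset_iff.2 hx) s k h

/-- Waiting at a site without recoveries. -/
theorem mem_reach_wait {ω : Cfg d} {A : Set (Site d)} {s : ℤ} {k l : ℕ} {x : Site d}
    (hx : x ∈ reach ω A s k) (hkl : k ≤ l)
    (h : ∀ t : ℤ, s + k ≤ t → t < s + l → ω ((x, x), t) = true) : x ∈ reach ω A s l := by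
  induction l, hkl using Nat.le_induction with
  | base => exact hx
  | succ l hl ih =>
    have h1 := h (s + l) (by omega) (by push_cast; omega)
    exact ⟨x, ih fun t h2 h3 => h t h2 (by push_cast; omega), Or.inl rfl, h1, h1, h1⟩

theorem measurableSet_reach {Ω : Type*} [MeasurableSpace Ω] {g : Ω → Cfg d} (hg : Measurable g)
    (A : Set (Site d)) (s : ℤ) (k : ℕ) (y : Site d) :
    MeasurableSet {ω | y ∈ reach (g ω) A s k} := by
  induction k generalizing y with
  | zero => exact MeasurableSet.const _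
  | succ k ih =>
    have : {ω | y ∈ reach (g ω) A s (k + 1)} = ⋃ x, {ω | x ∈ reach (g ω) A s k} ∩
        ({_ω | x = y ∨ Adj x y} ∩ (g ⁻¹' {ω | ω ((x, x), s + k) = true} ∩
          (g ⁻¹' {ω | ω ((y, y), s + k) = true} ∩ g ⁻¹' {ω | ω ((x, y), s + k) = true}))) := by
      ext ω
      simp only [mem_iUnion]
      rfl
    rw [this]
    exact .iUnion fun x => (ih x).inter ((MeasurableSet.const _).inter
      ((hg (measurableSet_coord _ _)).inter
        ((hg (measurableSet_coord _ _)).inter (hg (measurableSet_coord _ _)))))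

theorem measurableSet_reach_nonempty {Ω : Type*} [MeasurableSpace Ω] {g : Ω → Cfg d}
    (hg : Measurable g) (A : Set (Site d)) (s : ℤ) (k : ℕ) :
    MeasurableSet {ω | (reach (g ω) A s k).Nonempty} := by
  have : {ω | (reach (g ω) A s k).Nonempty} = ⋃ y, {ω | y ∈ reach (g ω) A s k} := by
    ext ω; simp [Set.Nonempty]
  rw [this]
  exact .iUnion fun y => measurableSet_reach hg A s k y

theorem measurableSet_subset_reach {Ω : Type*} [MeasurableSpace Ω] {g : Ω → Cfg d}
    (hg : Measurable g) (A B : Set (Site d)) (s : ℤ) (k : ℕ) :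
    MeasurableSet {ω | B ⊆ reach (g ω) A s k} := by
  have : {ω | B ⊆ reach (g ω) A s k} = ⋂ y ∈ B, {ω | y ∈ reach (g ω) A s k} := by
    ext ω; simp [subset_def]
  rw [this]
  exact .biInter (to_countable _) fun y _ => measurableSet_reach hg A s k y

/-! ### Restriction to a region -/

open Classical in
/-- All sites outside `Λ` are removed. -/
noncomputable def cut (Λ : Set (Site d)) (ω : Cfg d) : Cfg d :=
  fun i => ω i && decide (i.1.1 ∈ Λ)

theorem cut_eq_true {Λ : Set (Site d)} {ω : Cfg d} {i : Idx d} :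
    cut Λ ω i = true ↔ ω i = true ∧ i.1.1 ∈ Λ := by simp [cut]

theorem cut_mono {Λ Λ' : Set (Site d)} (hΛ : Λ ⊆ Λ') {ω ω' : Cfg d} (h : ω ≤ ω') :
    cut Λ ω ≤ cut Λ' ω' := fun i => by
  rw [Bool.le_iff_imp, cut_eq_true, cut_eq_true]
  exact fun hi => ⟨Bool.le_iff_imp.1 (h i) hi.1, hΛ hi.2⟩

theorem cut_le (Λ : Set (Site d)) (ω : Cfg d) : cut Λ ω ≤ ω := fun i => by
  rw [Bool.le_iff_imp, cut_eq_true]
  exact fun hi => hi.1

theorem measurable_cut (Λ : Set (Site d)) : Measurable (cut Λ) := by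
  classical
  refine measurable_pi_lambda _ fun i => ?_
  exact (measurable_of_countable fun b : Bool => b && decide (i.1.1 ∈ Λ)).comp
    (measurable_pi_apply i)

theorem step_cut {Λ : Set (Site d)} {ω : Cfg d} {s : ℤ} {x y : Site d} :
    step (cut Λ ω) s x y ↔ step ω s x y ∧ x ∈ Λ ∧ y ∈ Λ := by
  simp only [step, cut_eq_true]
  tauto

theorem reach_cut_subset {Λ A : Set (Site d)} (hA : A ⊆ Λ) (ω : Cfg d) (s : ℤ) (k : ℕ) :
    reach (cut Λ ω) A s k ⊆ Λ := by
  cases k with
  | zero => exact hA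
  | succ k =>
    rintro y ⟨x, -, hs⟩
    exact (step_cut.1 hs).2.2

/-- The variables owned by the sites of `Λ` in the time slots from `s` to `s'`. -/
def Own (Λ : Set (Site d)) (s s' : ℤ) : Set (Idx d) :=
  {i | i.1.1 ∈ Λ ∧ (i.1.1 = i.1.2 ∨ Adj i.1.1 i.1.2) ∧ s ≤ i.2 ∧ i.2 < s'}

theorem Own.finite {Λ : Set (Site d)} (hΛ : Λ.Finite) (s s' : ℤ) : (Own Λ s s').Finite := by
  have h1 : (⋃ x ∈ Λ, ({x} : Set (Site d)) ×ˢ (cube x 1 : Set (Site d))).Finite :=
    hΛ.biUnion fun x _ => (finite_singleton x).prod (Finset.finite_toSet _)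
  refine (h1.prod (finite_Ico s s')).subset ?_
  rintro ⟨⟨x, y⟩, t⟩ ⟨h1, h2, h3, h4⟩
  refine ⟨mem_biUnion h1 ⟨rfl, ?_⟩, h3, h4⟩
  rcases h2 with h2 | h2
  · simp only at h2
    subst h2
    exact self_mem_cube _ _
  · exact h2.mem_cube

theorem Own.mono {Λ Λ' : Set (Site d)} (hΛ : Λ ⊆ Λ') {s s' t t' : ℤ} (h1 : t ≤ s) (h2 : s' ≤ t') :
    Own Λ s s' ⊆ Own Λ' t t' := fun _ hi =>
  ⟨hΛ hi.1, hi.2.1, h1.trans hi.2.2.1, hi.2.2.2.trans_le h2⟩

theorem reach_cut_congr {Λ : Set (Site d)} {ω ω' : Cfg d} (A : Set (Site d)) {s s' : ℤ} {k : ℕ}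
    (hk : s + k ≤ s') (h : ∀ i ∈ Own Λ s s', ω i = ω' i) :
    reach (cut Λ ω) A s k = reach (cut Λ ω') A s k := by
  refine reach_congr A s k fun x y t h1 h2 h3 => ?_
  by_cases hx : x ∈ Λ
  · simp only [cut]
    rw [h ((x, y), t) ⟨hx, h1, h2, h3.trans_le hk⟩]
  · simp [cut, hx]

theorem reach_time_congr {ω ω' : Cfg d} (A : Set (Site d)) {s s' : ℤ} {k : ℕ}
    (hk : s + k ≤ s') (h : ∀ i ∈ Own univ s s', ω i = ω' i) :
    reach ω A s k = reach ω' A s k :=
  reach_congr A s k fun x y t h1 h2 h3 => h ((x, y), t) ⟨trivial, h1, h2, h3.trans_le hk⟩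

/-! ### Symmetries -/

def act (φ : Site d ≃ Site d) (τ : ℤ) (ω : Cfg d) : Cfg d :=
  fun i => ω ((φ i.1.1, φ i.1.2), i.2 + τ)

theorem mem_reach_act {φ : Site d ≃ Site d} (hφ : ∀ x y, Adj (φ x) (φ y) ↔ Adj x y) (τ : ℤ)
    (ω : Cfg d) {A A' : Set (Site d)} (hA : ∀ x, x ∈ A ↔ φ x ∈ A') (s : ℤ) (k : ℕ) (y : Site d) :
    y ∈ reach (act φ τ ω) A s k ↔ φ y ∈ reach ω A' (s + τ) k := by
  induction k generalizing y with
  | zero => exact hA y
  | succ k ih =>
    rw [mem_reach_succ, mem_reach_succ]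
    have e : s + τ + k = s + k + τ := by ring
    constructor
    · rintro ⟨x, hx, h1, h2⟩
      refine ⟨φ x, (ih x).1 hx, ?_, ?_⟩
      · exact h1.imp (congrArg φ) (hφ x y).2
      · rw [e]; exact h2
    · rintro ⟨x, hx, h1, h2⟩
      obtain ⟨x, rfl⟩ := φ.surjective x
      refine ⟨x, (ih x).2 hx, h1.imp (fun h => φ.injective h) (hφ x y).1, ?_⟩
      rw [e] at h2; exact h2

theorem cut_act (φ : Site d ≃ Site d) (τ : ℤ) (ω : Cfg d) {Λ Λ' : Set (Site d)}
    (hΛ : ∀ x, x ∈ Λ ↔ φ x ∈ Λ') : cut Λ (act φ τ ω) = act φ τ (cut Λ' ω) := by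
  funext i
  have := hΛ i.1.1
  by_cases h : i.1.1 ∈ Λ
  · simp [cut, act, h, this.1 h]
  · simp [cut, act, h, mt this.2 h]

/-- Time reversal. -/
def rev (ω : Cfg d) : Cfg d := fun i => ω ((i.1.2, i.1.1), -1 - i.2)

theorem mem_reach_rev {ω : Cfg d} {x y : Site d} {s : ℤ} {k : ℕ}
    (h : y ∈ reach (rev ω) {x} s k) : x ∈ reach ω {y} (-s - k) k := by
  induction k generalizing y with
  | zero => exact (mem_singleton_iff.1 h).symm
  | succ k ih =>
    obtain ⟨z, hz, h1, h2, h3, h4⟩ := h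
    have := ih hz
    rw [add_comm k 1, reach_add]
    have e : -s - ((1 + k : ℕ) : ℤ) + ((1 : ℕ) : ℤ) = -s - k := by push_cast; ring
    rw [e]
    refine reach_mono le_rfl (singleton_subset_iff.2 ?_) _ _ this
    refine ⟨y, rfl, h1.imp Eq.symm Adj.symm, ?_⟩
    have e2 : -s - ((1 + k : ℕ) : ℤ) + ((0 : ℕ) : ℤ) = -1 - (s + k) := by push_cast; ring
    rw [e2]
    exact ⟨h3, h2, h4⟩

/-! ### The law of the discrete model -/

noncomputable def expI (r : ℝ≥0) (M : ℕ) : unitInterval :=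
  ⟨Real.exp (-(r / M)), (Real.exp_pos _).le,
    Real.exp_le_one_iff.2 (neg_nonpos.2 (by positivity))⟩

open Classical in
noncomputable def pr (lam : ℝ≥0) (M : ℕ) (i : Idx d) : unitInterval :=
  if i.1.1 = i.1.2 then expI (rate lam i.1.1 i.1.2) M
  else unitInterval.symm (expI (rate lam i.1.1 i.1.2) M)

noncomputable def nu (lam : ℝ≥0) (M : ℕ) (i : Idx d) : Measure Bool :=
  bernoulliMeasure true false (pr lam M i)

instance (lam : ℝ≥0) (M : ℕ) (i : Idx d) : IsProbabilityMeasure (nu lam M i) := by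
  unfold nu; infer_instance

noncomputable abbrev mu (d : ℕ) (lam : ℝ≥0) (M : ℕ) : Measure (Cfg d) :=
  Measure.infinitePi (nu (d := d) lam M)

theorem nu_true (lam : ℝ≥0) (M : ℕ) (i : Idx d) : (nu lam M i).real {true} = pr lam M i :=
  bernoulliMeasure_real_apply_of_mem_of_notMem _ (measurableSet_singleton _) rfl (by simp)

theorem nu_false (lam : ℝ≥0) (M : ℕ) (i : Idx d) : (nu lam M i).real {false} = 1 - pr lam M i := by
  have := real_true_add_false (nu lam M i)
  rw [nu_true] at this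
  linarith

theorem pr_diag (lam : ℝ≥0) (M : ℕ) (x : Site d) (t : ℤ) :
    (pr lam M ((x, x), t) : ℝ) = Real.exp (-(1 / M)) := by
  simp [pr, expI, rate]

theorem pr_adj (lam : ℝ≥0) (M : ℕ) {x y : Site d} (h : Adj x y) (t : ℤ) :
    (pr lam M ((x, y), t) : ℝ) = 1 - Real.exp (-(lam / M)) := by
  simp [pr, expI, rate, h.ne, h]

theorem pr_adj_le (lam : ℝ≥0) (M : ℕ) {x y : Site d} (h : Adj x y) (t : ℤ) :
    (pr lam M ((x, y), t) : ℝ) ≤ lam / M := by
  rw [pr_adj lam M h]
  have := Real.add_one_le_exp (-((lam : ℝ) / M))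
  linarith

theorem nu_congr (lam : ℝ≥0) (M : ℕ) {x y x' y' : Site d} (t t' : ℤ) (h1 : x' = y' ↔ x = y)
    (h2 : Adj x' y' ↔ Adj x y) : nu lam M ((x', y'), t') = nu lam M ((x, y), t) := by
  have : rate lam x' y' = rate lam x y := by
    unfold rate
    by_cases h : x = y
    · rw [if_pos h, if_pos (h1.2 h)]
    · rw [if_neg h, if_neg (mt h1.1 h)]
      by_cases h' : Adj x y
      · rw [if_pos h', if_pos (h2.2 h')]
      · rw [if_neg h', if_neg (mt h2.1 h')]
  unfold nu pr
  simp only [this]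
  by_cases h : x = y
  · rw [if_pos h, if_pos (h1.2 h)]
  · rw [if_neg h, if_neg (mt h1.1 h)]

theorem real_act (lam : ℝ≥0) (M : ℕ) {φ : Site d ≃ Site d}
    (hφ : ∀ x y, Adj (φ x) (φ y) ↔ Adj x y) (τ : ℤ) {A : Set (Cfg d)} (mA : MeasurableSet A) :
    (mu d lam M).real {ω | act φ τ ω ∈ A} = (mu d lam M).real A := by
  refine real_comp_equiv (nu lam M) ((φ.prodCongr φ).prodCongr (Equiv.addRight τ)) ?_ mA
  rintro ⟨⟨x, y⟩, t⟩
  exact nu_congr lam M _ _ φ.injective.eq_iff (hφ x y)

def revIdx : Idx d ≃ Idx d where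
  toFun i := ((i.1.2, i.1.1), -1 - i.2)
  invFun i := ((i.1.2, i.1.1), -1 - i.2)
  left_inv i := by simp
  right_inv i := by simp

theorem map_rev (lam : ℝ≥0) (M : ℕ) : (mu d lam M).map rev = mu d lam M := by
  refine map_comp_equiv (nu lam M) revIdx ?_
  rintro ⟨⟨x, y⟩, t⟩
  exact nu_congr lam M _ _ eq_comm ⟨Adj.symm, Adj.symm⟩

end Pool.Agent.MP_452076_pr

end

-- part MP_452076_pr.Slots
section

/-!
The law of the slot indicators of the Poisson processes.
-/

namespace Pool.Agent.MP_452076_pr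

open MeasureTheory ProbabilityTheory Set Filter Topology
open scoped NNReal ENNReal

variable {d : ℕ}

instance (r : ℝ≥0) : IsProbabilityMeasure (cellLaw r) := by
  unfold cellLaw; infer_instance

instance (d : ℕ) (lam : ℝ≥0) : IsProbabilityMeasure (law d lam) := by
  unfold law; infer_instance

def slotI (M : ℕ) (r : ℤ) : Set unitInterval := {u | (r : ℝ) ≤ M * u ∧ (M : ℝ) * u < r + 1}

theorem measurableSet_slotI (M : ℕ) (r : ℤ) : MeasurableSet (slotI M r) :=
  (measurableSet_le measurable_const (measurable_subtype_coe.const_mul _)).inter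
    (measurableSet_lt (measurable_subtype_coe.const_mul _) measurable_const)

theorem volume_slotI {M : ℕ} {r : ℤ} (h0 : 0 ≤ r) (h1 : r < M) :
    volume (slotI M r) = ENNReal.ofReal (1 / M) := by
  have hM : (0 : ℝ) < M := by exact_mod_cast (show 0 < M by omega)
  have h0' : (0 : ℝ) ≤ r := by exact_mod_cast h0
  have h1' : (r : ℝ) + 1 ≤ M := by exact_mod_cast (show r + 1 ≤ M by omega)
  have : slotI M r = Ico ⟨r / M, by positivity, (div_le_one hM).2 (by linarith)⟩
      ⟨(r + 1) / M, by positivity, (div_le_one hM).2 h1'⟩ := by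
    ext u
    simp only [slotI, mem_ofPred_eq, mem_Ico, ← Subtype.coe_le_coe, ← Subtype.coe_lt_coe,
      div_le_iff₀ hM, lt_div_iff₀ hM, mul_comm]
  rw [this, unitInterval.volume_Ico]
  congr 1
  simp only
  ring

theorem volume_slots {M : ℕ} (R : Finset ℤ) (hR : ∀ r ∈ R, 0 ≤ r ∧ r < M) :
    volume.real (⋃ r ∈ R, slotI M r) = R.card / M := by
  rw [measureReal_biUnion_finset _ fun r _ => measurableSet_slotI M r,
    Finset.sum_congr rfl (g := fun _ => (1 / M : ℝ)) fun r hr => by
      rw [Measure.real, volume_slotI (hR r hr).1 (hR r hr).2, ENNReal.toReal_ofReal (by positivity)]]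
  · simp [div_eq_mul_inv]
  · intro r _ r' _ hne
    rw [Function.onFun, Set.disjoint_left]
    rintro u ⟨a1, a2⟩ ⟨b1, b2⟩
    have c1 : (r : ℝ) < r' + 1 := a1.trans_lt b2
    have c2 : (r' : ℝ) < r + 1 := b1.trans_lt a2
    have c1 : r < r' + 1 := by exact_mod_cast c1
    have c2 : r' < r + 1 := by exact_mod_cast c2
    omega

def Avoid (G : Set unitInterval) : Set Cell := {c | ∀ l < c.1, c.2 l ∉ G}

theorem measurableSet_Avoid {G : Set unitInterval} (hG : MeasurableSet G) :
    MeasurableSet (Avoid G) := by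
  have : Avoid G = ⋂ l : ℕ, (Prod.fst ⁻¹' {k | ¬ l < k} ∪ (fun c : Cell => c.2 l) ⁻¹' Gᶜ) := by
    ext c
    simp only [Avoid, mem_ofPred_eq, mem_iInter, mem_union, mem_preimage, mem_compl_iff,
      imp_iff_not_or]
  rw [this]
  exact .iInter fun l => (measurable_fst (MeasurableSet.of_discrete)).union
    (((measurable_pi_apply l).comp measurable_snd) hG.compl)

theorem cellLaw_Avoid (r : ℝ≥0) {G : Set unitInterval} (hG : MeasurableSet G) :
    cellLaw r (Avoid G) = ENNReal.ofReal (Real.exp (-(r * volume.real G))) := by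
  have g0 : 0 ≤ 1 - volume.real G := sub_nonneg.2 measureReal_le_one
  have a1 : ∀ K : ℕ, (Measure.infinitePi fun _ : ℕ => (volume : Measure unitInterval))
      (Prod.mk K ⁻¹' Avoid G) = ENNReal.ofReal ((1 - volume.real G) ^ K) := fun K => by
    have : Prod.mk K ⁻¹' Avoid G = ((Finset.range K : Finset ℕ) : Set ℕ).pi fun _ => Gᶜ := by
      ext u; simp [Avoid]
    rw [this, Measure.infinitePi_pi _ (fun _ _ => hG.compl), Finset.prod_const, Finset.card_range,
      ENNReal.ofReal_pow g0, ← probReal_compl_eq_one_sub hG, ofReal_measureReal]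
  rw [cellLaw, Measure.prod_apply (measurableSet_Avoid hG), lintegral_countable']
  simp only [a1, poissonMeasure_singleton]
  have hs := (hasSum_one_poissonMeasure (r * (1 - volume.real G).toNNReal)).mul_left
    (Real.exp (-(r * volume.real G)))
  rw [mul_one, NNReal.coe_mul, Real.coe_toNNReal _ g0] at hs
  rw [← hs.tsum_eq, ENNReal.ofReal_tsum_of_nonneg (fun n => by positivity) hs.summable]
  refine tsum_congr fun n => ?_
  rw [← ENNReal.ofReal_mul (pow_nonneg g0 n)]
  congr 1
  have e : Real.exp (-r) = Real.exp (-(r * volume.real G)) *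
      Real.exp (-(r * (1 - volume.real G))) := by
    rw [← Real.exp_add]; congr 1; ring
  rw [mul_pow, e]
  ring

/-- No point of the process `i.1` in the slot `i.2`. -/
def Free (M : ℕ) (i : Idx d) : Set (Sample d) := {ω | ω (i.1, i.2 / M) ∈ Avoid (slotI M (i.2 % M))}

theorem measurableSet_Free (M : ℕ) (i : Idx d) : MeasurableSet (Free M i) :=
  (measurable_pi_apply (i.1, i.2 / M) : Measurable fun ω : Sample d => ω (i.1, i.2 / M))
    (measurableSet_Avoid (measurableSet_slotI _ _))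

theorem law_Free (lam : ℝ≥0) {M : ℕ} (hM : 0 < M) (I : Finset (Idx d)) :
    law d lam (⋂ i ∈ I, Free M i) =
      ∏ i ∈ I, ENNReal.ofReal (Real.exp (-(rate lam i.1.1 i.1.2 / M))) := by
  classical
  have hM' : (0 : ℤ) < M := by omega
  let c : Idx d → Idx d := fun i => (i.1, i.2 / M)
  let R : Idx d → Finset ℤ := fun κ => (I.filter fun i => c i = κ).image fun i => i.2 % M
  have : (⋂ i ∈ I, Free M i) =
      ((I.image c : Finset (Idx d)) : Set (Idx d)).pi fun κ => Avoid (⋃ r ∈ R κ, slotI M r) := by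
    ext ω
    simp only [mem_iInter, Free, Avoid, mem_ofPred_eq, Set.mem_pi, Finset.mem_coe, mem_iUnion,
      not_exists, R, Finset.mem_image, Finset.mem_filter]
    constructor
    · rintro h κ - l hl r ⟨i, ⟨hi, rfl⟩, rfl⟩
      exact h i hi l hl
    · intro h i hi l hl
      exact h (c i) ⟨i, hi, rfl⟩ l hl _ ⟨i, ⟨hi, rfl⟩, rfl⟩
  rw [this, law, Measure.infinitePi_pi _ (fun κ _ => measurableSet_Avoid
    (Finset.measurableSet_biUnion _ fun r _ => measurableSet_slotI M r)),
    ← Finset.prod_fiberwise_of_maps_to (s := I) (t := I.image c) (g := c)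
      fun i hi => Finset.mem_image_of_mem _ hi]
  refine Finset.prod_congr rfl fun κ _ => ?_
  rw [cellLaw_Avoid _ (Finset.measurableSet_biUnion _ fun r _ => measurableSet_slotI M r),
    volume_slots, Finset.card_image_of_injOn,
    Finset.prod_congr rfl (g := fun _ => ENNReal.ofReal (Real.exp (-(rate lam κ.1.1 κ.1.2 / M)))),
    Finset.prod_const, ← ENNReal.ofReal_pow (Real.exp_pos _).le, ← Real.exp_nat_mul]
  · congr 2; ring
  · intro i hi
    rw [← (Finset.mem_filter.1 hi).2]
  · intro i hi i' hi' e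
    have e1 := (Finset.mem_filter.1 hi).2.trans (Finset.mem_filter.1 hi').2.symm
    simp only [c, Prod.mk.injEq] at e1 e
    refine Prod.ext e1.1 ?_
    rw [← Int.ediv_mul_add_emod i.2 M, ← Int.ediv_mul_add_emod i'.2 M, e, e1.2]
  · intro r hr
    obtain ⟨i, -, rfl⟩ := Finset.mem_image.1 hr
    exact ⟨Int.emod_nonneg _ hM'.ne', Int.emod_lt_of_pos _ hM'⟩

open Classical in
/-- The discretisation map. -/
noncomputable def disc (M : ℕ) (ω : Sample d) : Cfg d :=
  fun i => if i.1.1 = i.1.2 then decide (ω ∈ Free M i) else decide (ω ∉ Free M i)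

theorem measurable_disc_apply (M : ℕ) (i : Idx d) : Measurable fun ω : Sample d => disc M ω i := by
  refine measurable_to_bool ?_
  by_cases h : i.1.1 = i.1.2
  · have : (fun ω : Sample d => disc M ω i) ⁻¹' {true} = Free M i := by ext; simp [disc, h]
    rw [this]; exact measurableSet_Free M i
  · have : (fun ω : Sample d => disc M ω i) ⁻¹' {true} = (Free M i)ᶜ := by ext; simp [disc, h]
    rw [this]; exact (measurableSet_Free M i).compl

theorem measurable_disc (M : ℕ) : Measurable (disc (d := d) M) :=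
  measurable_pi_lambda _ (measurable_disc_apply M)

theorem bool_ext {m m' : Measure Bool} [IsProbabilityMeasure m] [IsProbabilityMeasure m']
    (h : m.real {true} = m'.real {true}) : m = m' := by
  have h1 := real_true_add_false m
  have h2 := real_true_add_false m'
  refine Measure.ext_of_singleton fun b => ?_
  rw [← ofReal_measureReal, ← ofReal_measureReal (μ := m')]
  cases b
  · congr 1; linarith
  · rw [h]

theorem map_disc (lam : ℝ≥0) {M : ℕ} (hM : 0 < M) : (law d lam).map (disc M) = mu d lam M := by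
  classical
  have h0 : ∀ i : Idx d, law d lam (Free M i) =
      ENNReal.ofReal (Real.exp (-(rate lam i.1.1 i.1.2 / M))) := fun i => by
    simpa using law_Free lam hM {i}
  have h1 : iIndepSet (Free (d := d) M) (law d lam) :=
    (iIndepSet_iff_meas_biInter (measurableSet_Free M)).2 fun I => by
      rw [law_Free lam hM I]; simp only [h0]
  have h2 := (h1.iIndepFun_indicator (β := ℕ)).comp
    (fun (i : Idx d) (k : ℕ) => if i.1.1 = i.1.2 then decide (k = 1) else decide (k ≠ 1))
    fun _ => measurable_of_countable _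
  have h3 : iIndepFun (fun (i : Idx d) (ω : Sample d) => disc M ω i) (law d lam) := by
    refine Eq.subst (motive := fun f => iIndepFun f (law d lam)) ?_ h2
    funext i ω
    by_cases h : ω ∈ Free M i <;> simp [disc, h]
  refine (h3.map_fun_eq_infinitePi_map (measurable_disc_apply M)).trans ?_
  congr 1
  funext i
  have : IsProbabilityMeasure ((law d lam).map fun ω => disc M ω i) :=
    Measure.isProbabilityMeasure_map (measurable_disc_apply M i).aemeasurable
  refine bool_ext ?_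
  have h4 : (law d lam).real (Free M i) = Real.exp (-(rate lam i.1.1 i.1.2 / M)) := by
    rw [Measure.real, h0, ENNReal.toReal_ofReal (Real.exp_pos _).le]
  rw [nu_true, map_measureReal_apply (measurable_disc_apply M i) (measurableSet_singleton _)]
  by_cases h : i.1.1 = i.1.2
  · have : (fun ω : Sample d => disc M ω i) ⁻¹' {true} = Free M i := by ext; simp [disc, h]
    rw [this, h4, pr, if_pos h]
    rfl
  · have : (fun ω : Sample d => disc M ω i) ⁻¹' {true} = (Free M i)ᶜ := by ext; simp [disc, h]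
    rw [this, probReal_compl_eq_one_sub (measurableSet_Free M i), h4, pr, if_neg h]
    rfl

/-- The almost sure regularity of the Poisson points. -/
def Reg (ω : Sample d) : Prop :=
  (∀ i l, Irrational ((ω i).2 l : ℝ)) ∧
    ∀ x y x' y' t, Mark ω x y t → Mark ω x' y' t → (x, y) = (x', y')

theorem mp_point (lam : ℝ≥0) (i : Idx d) (l : ℕ) :
    MeasurePreserving (fun ω : Sample d => (ω i).2 l) (law d lam) volume :=
  (measurePreserving_eval_infinitePi (fun _ : ℕ => (volume : Measure unitInterval)) l).comp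
    ((measurePreserving_snd (μ := poissonMeasure (rate lam i.1.1 i.1.2))).comp
      (measurePreserving_eval_infinitePi
        (fun e : Idx d => cellLaw (rate lam e.1.1 e.1.2)) i))

theorem point_null (lam : ℝ≥0) (i : Idx d) (l : ℕ) (a : ℝ) :
    law d lam {ω | ((ω i).2 l : ℝ) = a} = 0 := by
  refine (mp_point lam i l).quasiMeasurePreserving.preimage_null
    (s := {u : unitInterval | (u : ℝ) = a}) ?_
  exact Set.Subsingleton.measure_zero (fun u hu v hv => Subtype.ext (hu.trans hv.symm)) _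

theorem ae_reg (lam : ℝ≥0) : ∀ᵐ ω ∂(law d lam), Reg ω := by
  classical
  refine Eventually.and (ae_all_iff.2 fun i => ae_all_iff.2 fun l => ?_) ?_
  · have : ∀ᵐ ω ∂(law d lam), ∀ q : ℚ, ((ω i).2 l : ℝ) ≠ q :=
      ae_all_iff.2 fun q => ae_iff.2 (by simpa using point_null lam i l q)
    filter_upwards [this] with ω h ⟨q, hq⟩ using h q hq.symm
  · have : ∀ᵐ ω ∂(law d lam), ∀ i i' : Idx d, ∀ l l' : ℕ, i ≠ i' →
        (i.2 : ℝ) + ((ω i).2 l : ℝ) ≠ (i'.2 : ℝ) + ((ω i').2 l' : ℝ) := by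
      refine ae_all_iff.2 fun i => ae_all_iff.2 fun i' => ae_all_iff.2 fun l =>
        ae_all_iff.2 fun l' => ?_
      by_cases h : i = i'
      · exact Eventually.of_forall fun _ h' => absurd h h'
      · simp only [h, ne_eq, not_false_eq_true, forall_const]
        have m1 : ∀ (i : Idx d) l, Measurable fun ω : Sample d => (i.2 : ℝ) + ((ω i).2 l : ℝ) :=
          fun i l => (measurable_subtype_coe.comp (mp_point lam i l).measurable).const_add _
        rw [ae_iff]
        simp only [not_not]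
        rw [law, measure_eq_lintegral_glue _ {i} (measurableSet_eq_fun (m1 i l) (m1 i' l'))]
        refine lintegral_eq_zero_of_ae_eq_zero (Eventually.of_forall fun a => ?_)
        refine measure_mono_null (fun b hb => ?_)
          (point_null lam i' l' ((i.2 : ℝ) + ((a i).2 l : ℝ) - i'.2))
        simp only [glue, mem_ofPred_eq, mem_singleton_iff, if_true, if_neg (Ne.symm h)] at hb ⊢
        linarith
    filter_upwards [this] with ω h x y x' y' t ⟨j, l, _, e⟩ ⟨j', l', _, e'⟩
    by_contra hne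
    exact h ((x, y), j) ((x', y'), j') l l' (fun e => hne (Prod.ext_iff.1 e).1) (e.symm.trans e')

end Pool.Agent.MP_452076_pr

end

-- part MP_452076_pr.Events
section

/-!
Elementary events of the discrete model and their probabilities.
-/

namespace Pool.Agent.MP_452076_pr

open MeasureTheory ProbabilityTheory Set
open scoped NNReal ENNReal

variable {d : ℕ}

/-- All variables of the pair `e` in `k` slots from `s` equal `b`. -/
def Col (e : Site d × Site d) (s : ℤ) (k : ℕ) (b : Bool) : Set (Cfg d) :=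
  {ω | ∀ t : ℤ, s ≤ t → t < s + k → ω (e, t) = b}

theorem real_Col (lam : ℝ≥0) (M : ℕ) (e : Site d × Site d) (s : ℤ) (k : ℕ) (b : Bool) :
    (mu d lam M).real (Col e s k b) = (nu lam M (e, 0)).real {b} ^ k := by
  have : Col e s k b = {ω | ∀ i ∈ (Finset.Ico s (s + k)).map
      ⟨fun t => (e, t), fun _ _ h => (Prod.ext_iff.1 h).2⟩, ω i = b} := by
    ext ω
    simp only [Col, mem_ofPred_eq, Finset.forall_mem_map, Finset.mem_Ico, and_imp]
    rfl
  rw [this, real_all, Finset.prod_map]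
  have h2 : ∀ t, nu lam M (e, t) = nu lam M (e, 0) := fun t => nu_congr lam M _ _ Iff.rfl Iff.rfl
  simp [h2]

theorem loc_Col {x y : Site d} (h : x = y ∨ Adj x y) (s : ℤ) (k : ℕ) (b : Bool) :
    Loc (Own {x} s (s + k)) (Col (x, y) s k b) :=
  fun _ _ e h1 t h2 h3 => (e ((x, y), t) ⟨rfl, h, h2, h3⟩).symm.trans (h1 t h2 h3)

theorem measurableSet_Col {x y : Site d} (h : x = y ∨ Adj x y) (s : ℤ) (k : ℕ) (b : Bool) :
    MeasurableSet (Col (x, y) s k b) :=
  (loc_Col h s k b).measurableSet (Own.finite (finite_singleton _) _ _)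

theorem upper_Col (e : Site d × Site d) (s : ℤ) (k : ℕ) : IsUpperSet (Col e s k true) :=
  fun _ _ h h1 t h2 h3 => Bool.le_iff_imp.1 (h (e, t)) (h1 t h2 h3)

theorem lower_Col (e : Site d × Site d) (s : ℤ) (k : ℕ) : IsLowerSet (Col e s k false) :=
  fun a b h h1 t h2 h3 => by
    have := h (e, t)
    rw [h1 t h2 h3] at this
    exact le_bot_iff.1 this

theorem real_Col_diag (lam : ℝ≥0) (M : ℕ) (x : Site d) (s : ℤ) (k : ℕ) :
    (mu d lam M).real (Col (x, x) s k true) = Real.exp (-(k / M)) := by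
  rw [real_Col, nu_true, pr_diag, ← Real.exp_nat_mul]
  congr 1; ring

theorem real_Col_adj (lam : ℝ≥0) (M : ℕ) {x y : Site d} (h : Adj x y) (s : ℤ) (k : ℕ) :
    (mu d lam M).real (Col (x, y) s k false) = Real.exp (-(lam * k / M)) := by
  rw [real_Col, nu_false, pr_adj lam M h, sub_sub_cancel, ← Real.exp_nat_mul]
  congr 1; ring

/-- No recovery in `S` during `k` slots. -/
def NoRec (S : Finset (Site d)) (s : ℤ) (k : ℕ) : Set (Cfg d) := ⋂ x ∈ S, Col (x, x) s k true

theorem loc_NoRec (S : Finset (Site d)) (s : ℤ) (k : ℕ) :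
    Loc (Own (S : Set (Site d)) s (s + k)) (NoRec S s k) :=
  Loc.iInter fun _ => Loc.iInter fun hx =>
    (loc_Col (Or.inl rfl) s k true).mono (Own.mono (singleton_subset_iff.2 hx) le_rfl le_rfl)

theorem upper_NoRec (S : Finset (Site d)) (s : ℤ) (k : ℕ) : IsUpperSet (NoRec S s k) :=
  isUpperSet_iInter₂ fun _ _ => upper_Col _ _ _

theorem real_NoRec (lam : ℝ≥0) (M : ℕ) (S : Finset (Site d)) (s : ℤ) (k : ℕ) :
    Real.exp (-(k / M)) ^ S.card ≤ (mu d lam M).real (NoRec S s k) :=
  harris_pow _ S _ (fun x _ => ⟨_, Own.finite (finite_singleton x) _ _,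
    loc_Col (Or.inl rfl) s k true⟩) (Or.inl fun _ _ => upper_Col _ _ _) (Real.exp_pos _).le
    fun x _ => (real_Col_diag lam M x s k).ge

/-- Every arrow inside `S` appears in each of `g` consecutive intervals of `h` slots. -/
def Arr (S : Finset (Site d)) (s : ℤ) (h g : ℕ) : Set (Cfg d) :=
  ⋂ p ∈ Finset.range g ×ˢ (S ×ˢ S), {ω | Adj p.2.1 p.2.2 → ω ∉ Col p.2 (s + p.1 * h) h false}

theorem loc_Arr_aux {S : Finset (Site d)} {s : ℤ} {h g : ℕ} {p : ℕ × Site d × Site d}
    (hp : p ∈ Finset.range g ×ˢ (S ×ˢ S)) :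
    Loc (Own (S : Set (Site d)) s (s + (g * h : ℕ)) ∩ {i | i.1.1 ≠ i.1.2})
      {ω | Adj p.2.1 p.2.2 → ω ∉ Col p.2 (s + p.1 * h) h false} := by
  obtain ⟨l, x, y⟩ := p
  simp only [Finset.mem_product, Finset.mem_range] at hp
  intro ω ω' e h1 ha h2
  refine h1 ha fun t h3 h4 => (e ((x, y), t) ⟨⟨hp.2.1, Or.inr ha, ?_, ?_⟩, ha.ne⟩).trans
    (h2 t h3 h4)
  · have : (0 : ℤ) ≤ l * h := by positivity
    simp only at h3 ⊢
    omega
  · have : ((l : ℤ) + 1) * h ≤ g * h :=
      mul_le_mul_of_nonneg_right (by have := hp.1; omega) (by positivity)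
    simp only at h4 ⊢
    push_cast
    linarith

theorem loc_Arr (S : Finset (Site d)) (s : ℤ) (h g : ℕ) :
    Loc (Own (S : Set (Site d)) s (s + (g * h : ℕ)) ∩ {i | i.1.1 ≠ i.1.2}) (Arr S s h g) :=
  Loc.iInter fun _ => Loc.iInter fun hp => loc_Arr_aux hp

theorem upper_Arr (S : Finset (Site d)) (s : ℤ) (h g : ℕ) : IsUpperSet (Arr S s h g) :=
  isUpperSet_iInter₂ fun _ _ _ _ hab h1 ha h2 => h1 ha (lower_Col _ _ _ hab h2)

theorem real_Arr (lam : ℝ≥0) (M : ℕ) (S : Finset (Site d)) (s : ℤ) (h g : ℕ) :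
    (1 - Real.exp (-(lam * h / M))) ^ (g * (S.card * S.card)) ≤
      (mu d lam M).real (Arr S s h g) := by
  have h0 : Real.exp (-(lam * h / M)) ≤ 1 :=
    Real.exp_le_one_iff.2 (neg_nonpos.2 (by positivity))
  have := harris_pow (nu lam M) (Finset.range g ×ˢ (S ×ˢ S))
    (fun p => {ω | Adj p.2.1 p.2.2 → ω ∉ Col p.2 (s + p.1 * h) h false})
    (fun p hp => ⟨_, (Own.finite S.finite_toSet _ _).inter_of_left _, loc_Arr_aux hp⟩)
    (Or.inl fun _ _ _ _ hab h1 ha h2 => h1 ha (lower_Col _ _ _ hab h2))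
    (c := 1 - Real.exp (-(lam * h / M))) (by linarith) ?_
  · simpa [Arr] using this
  · rintro ⟨l, x, y⟩ -
    by_cases ha : Adj x y
    · have : {ω : Cfg d | Adj x y → ω ∉ Col (x, y) (s + l * h) h false} =
          (Col (x, y) (s + l * h) h false)ᶜ := by ext; simp [ha]
      simp only
      rw [this, probReal_compl_eq_one_sub (measurableSet_Col (Or.inr ha) _ _ _),
        real_Col_adj lam M ha]
    · have : {ω : Cfg d | Adj x y → ω ∉ Col (x, y) (s + l * h) h false} = univ := by
        ext; simp [ha]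
      simp only
      rw [this, probReal_univ]
      linarith [Real.exp_pos (-(lam * h / M) : ℝ)]

theorem fill_aux {ω : Cfg d} {c x : Site d} {n h g : ℕ} {A : Set (Site d)} {s : ℤ} {k : ℕ}
    (h1 : ω ∈ NoRec (cube c n) (s + k) (g * h)) (h2 : ω ∈ Arr (cube c n) (s + k) h g)
    (hx : x ∈ cube c n) (hr : x ∈ reach ω A s (k + h)) (l : ℕ) (hl : l + 1 ≤ g) :
    ∀ y ∈ cube c n, l1 y x ≤ l → y ∈ reach ω A s (k + (l + 1) * h) := by
  simp only [NoRec, mem_iInter] at h1
  simp only [Arr, mem_iInter] at h2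
  induction l with
  | zero =>
    intro y _ hy
    rw [l1_eq_zero (x := y) (y := x) (by simpa using hy)]
    simpa using hr
  | succ l ih =>
    have hg : ((l : ℤ) + 1 + 1) * h ≤ g * h :=
      mul_le_mul_of_nonneg_right (by omega) (by positivity)
    have hp : (0 : ℤ) ≤ (l + 1) * h := by positivity
    have wait : ∀ y ∈ cube c n, ∀ a b : ℕ, k ≤ a → a ≤ b → b ≤ k + (l + 1 + 1) * h →
        y ∈ reach ω A s a → y ∈ reach ω A s b := fun y hy a b h3 h4 h5 h6 =>
      mem_reach_wait h6 h4 fun t h7 h8 => h1 y hy t (by omega) (by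
        have : (b : ℤ) ≤ k + (l + 1 + 1) * h := by exact_mod_cast h5
        push_cast; linarith)
    intro y hy hyl
    by_cases hle : l1 y x ≤ l
    · exact wait y hy _ _ (by omega) (by nlinarith) le_rfl (ih (by omega) y hy hle)
    · have hne : y ≠ x := by
        rintro rfl
        exact hle (by simp [l1])
      obtain ⟨z, hz, hadj, hzl⟩ := exists_geodesic hx hy hne
      have hz1 := ih (by omega) z hz (by push_cast at hyl; omega)
      have := h2 (l + 1, z, y) (by simp only [Finset.mem_product, Finset.mem_range]; exact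
        ⟨by omega, hz, hy⟩) hadj
      simp only [Col, mem_ofPred_eq, not_forall] at this
      obtain ⟨t, h3, h4, h5⟩ := this
      push_cast at h3 h4
      obtain ⟨u, rfl⟩ : ∃ u : ℕ, t = s + u := ⟨(t - s).toNat, by omega⟩
      have hu1 : k + (l + 1) * h ≤ u := by
        have : ((k + (l + 1) * h : ℕ) : ℤ) ≤ u := by push_cast; linarith
        exact_mod_cast this
      have hu2 : u + 1 ≤ k + (l + 1 + 1) * h := by
        have : ((u + 1 : ℕ) : ℤ) ≤ (k + (l + 1 + 1) * h : ℕ) := by push_cast; linarith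
        exact_mod_cast this
      refine wait y hy (u + 1) _ (by omega) hu2 le_rfl ⟨z, ?_, Or.inr hadj, ?_, ?_, ?_⟩
      · exact wait z hz _ _ (by omega) hu1 (by omega) hz1
      · exact h1 z hz _ (by omega) (by push_cast; linarith)
      · exact h1 y hy _ (by omega) (by push_cast; linarith)
      · simpa using h5

/-- A cube containing an infected site gets completely infected. -/
theorem fill {ω : Cfg d} {c x : Site d} {n h g : ℕ} {A : Set (Site d)} {s : ℤ} {k u : ℕ}
    (h1 : ω ∈ NoRec (cube c n) (s + k) (g * h)) (h2 : ω ∈ Arr (cube c n) (s + k) h g)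
    (hg : 2 * n * d + 1 ≤ g) (hx : x ∈ cube c n) (hu1 : k ≤ u) (hu2 : u ≤ k + h)
    (hr : x ∈ reach ω A s u) : (cube c n : Set (Site d)) ⊆ reach ω A s (k + g * h) := by
  obtain ⟨l, rfl⟩ : ∃ l, g = l + 1 := ⟨g - 1, by omega⟩
  have hr' : x ∈ reach ω A s (k + h) := by
    refine mem_reach_wait hr hu2 fun t h3 h4 => ?_
    simp only [NoRec, mem_iInter] at h1
    have : (0 : ℤ) ≤ l * h := by positivity
    exact h1 x hx t (by omega) (by push_cast at h4 ⊢; linarith)
  intro y hy
  refine fill_aux h1 h2 hx hr' l le_rfl y hy ?_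
  have e1 := l1_triangle y c x
  have e2 := l1_le_of_mem_cube hy
  have e3 := l1_le_of_mem_cube hx
  have e4 : l1 c x = l1 x c := Finset.sum_congr rfl fun i _ => abs_sub_comm _ _
  have : ((2 * n * d : ℕ) : ℤ) ≤ l := by exact_mod_cast (by omega : 2 * n * d ≤ l)
  push_cast at this
  linarith

theorem NoRec_cut {Λ : Set (Site d)} {S : Finset (Site d)} (hS : (S : Set (Site d)) ⊆ Λ)
    {ω : Cfg d} {s : ℤ} {k : ℕ} (h : ω ∈ NoRec S s k) : cut Λ ω ∈ NoRec S s k := by
  simp only [NoRec, mem_iInter] at h ⊢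
  exact fun x hx t h1 h2 => cut_eq_true.2 ⟨h x hx t h1 h2, hS hx⟩

theorem Arr_cut {Λ : Set (Site d)} {S : Finset (Site d)} (hS : (S : Set (Site d)) ⊆ Λ)
    {ω : Cfg d} {s : ℤ} {h g : ℕ} (h1 : ω ∈ Arr S s h g) : cut Λ ω ∈ Arr S s h g := by
  simp only [Arr, mem_iInter] at h1 ⊢
  intro p hp ha h2
  refine h1 p hp ha fun t h3 h4 => ?_
  have h5 := h2 t h3 h4
  simp only [Finset.mem_product] at hp
  have : p.2.1 ∈ Λ := hS hp.2.1
  simpa [cut, this] using h5

/-- The seed event. -/
def Seed (M : ℕ) (c : Site d) (n g : ℕ) (s : ℤ) : Set (Cfg d) :=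
  NoRec (cube c n) s (g * M) ∩ Arr (cube c n) s M g

theorem loc_Seed (M : ℕ) (c : Site d) (n g : ℕ) (s : ℤ) :
    Loc (Own (cube c n : Set (Site d)) s (s + (g * M : ℕ))) (Seed M c n g s) :=
  (loc_NoRec _ _ _).inter ((loc_Arr _ _ _ _).mono inter_subset_left)

/-- Lower bound for the probability of a seed. -/
noncomputable def seedP (d : ℕ) (lam : ℝ≥0) (n g : ℕ) : ℝ :=
  Real.exp (-g) ^ ((2 * n + 1) ^ d) *
    (1 - Real.exp (-lam)) ^ (g * ((2 * n + 1) ^ d * (2 * n + 1) ^ d))

theorem seedP_pos {lam : ℝ≥0} (hl : 0 < lam) (n g : ℕ) : 0 < seedP d lam n g := by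
  have : Real.exp (-lam) < 1 := Real.exp_lt_one_iff.2 (neg_lt_zero.2 hl)
  have : 0 < 1 - Real.exp (-lam) := by linarith
  unfold seedP
  positivity

theorem real_Seed (lam : ℝ≥0) {M : ℕ} (hM : 0 < M) (c : Site d) (n g : ℕ) (s : ℤ) :
    seedP d lam n g ≤ (mu d lam M).real (Seed M c n g s) := by
  have hM' : (M : ℝ) ≠ 0 := by positivity
  have h1 := real_NoRec lam M (cube c n) s (g * M)
  have h2 := real_Arr lam M (cube c n) s M g
  rw [card_cube] at h1 h2
  rw [Nat.cast_mul, mul_div_cancel_right₀ _ hM'] at h1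
  rw [mul_div_cancel_right₀ _ hM'] at h2
  refine le_trans ?_ (harris _ (Own.finite (cube c n).finite_toSet _ _) (loc_NoRec _ _ _)
    ((loc_Arr _ _ _ _).mono inter_subset_left) (upper_NoRec _ _ _) (upper_Arr _ _ _ _))
  refine mul_le_mul h1 h2 (pow_nonneg ?_ _) measureReal_nonneg
  have : Real.exp (-lam) ≤ 1 := Real.exp_le_one_iff.2 (neg_nonpos.2 (by positivity))
  linarith

noncomputable def nbrs (x : Site d) : Finset (Site d) := (cube x 1).filter (fun y => l1 x y = 1)

theorem mem_nbrs {x y : Site d} : y ∈ nbrs x ↔ Adj x y :=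
  ⟨fun h => (Finset.mem_filter.1 h).2, fun h => Finset.mem_filter.2 ⟨h.mem_cube, h⟩⟩

theorem card_nbrs (x : Site d) : (nbrs x).card ≤ 3 ^ d := by
  refine (Finset.card_filter_le _ _).trans ?_
  rw [card_cube]

/-- No arrow from `x` and a recovery at `x` in `M` slots. -/
def Die (M : ℕ) (x : Site d) (s : ℤ) : Set (Cfg d) :=
  (⋂ y ∈ nbrs x, Col (x, y) s M false) ∩ (Col (x, x) s M true)ᶜ

theorem loc_Die (M : ℕ) (x : Site d) (s : ℤ) : Loc (Own {x} s (s + M)) (Die M x s) :=
  (Loc.iInter fun _ => Loc.iInter fun hy =>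
    loc_Col (Or.inr (mem_nbrs.1 hy)) s M false).inter
    (loc_Col (Or.inl rfl) s M true).compl

theorem lower_Die (M : ℕ) (x : Site d) (s : ℤ) : IsLowerSet (Die M x s) :=
  (isLowerSet_iInter₂ fun _ _ => lower_Col _ _ _).inter (upper_Col _ _ _).compl

noncomputable def dieP (d : ℕ) (lam : ℝ≥0) : ℝ := Real.exp (-lam) ^ (3 ^ d) * (1 - Real.exp (-1))

theorem dieP_pos (lam : ℝ≥0) : 0 < dieP d lam := by
  have : Real.exp (-1) < 1 := Real.exp_lt_one_iff.2 (by norm_num)
  have : 0 < 1 - Real.exp (-1) := by linarith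
  unfold dieP
  positivity

theorem real_Die (lam : ℝ≥0) {M : ℕ} (hM : 0 < M) (x : Site d) (s : ℤ) :
    dieP d lam ≤ (mu d lam M).real (Die M x s) := by
  have hM' : (M : ℝ) ≠ 0 := by positivity
  have hf := Own.finite (finite_singleton x) s (s + M)
  refine le_trans ?_ (harris_lower _ hf (Loc.iInter fun _ => Loc.iInter fun hy =>
    loc_Col (Or.inr (mem_nbrs.1 hy)) s M false) (loc_Col (Or.inl rfl) s M true).compl
    (isLowerSet_iInter₂ fun _ _ => lower_Col _ _ _) (upper_Col _ _ _).compl)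
  rw [probReal_compl_eq_one_sub (measurableSet_Col (Or.inl rfl) _ _ _), real_Col_diag,
    div_self hM']
  refine mul_le_mul_of_nonneg_right ?_ (by
    have : Real.exp (-1) < 1 := Real.exp_lt_one_iff.2 (by norm_num)
    linarith)
  refine le_trans ?_ (harris_pow _ _ _ (fun y hy => ⟨_, hf,
    loc_Col (Or.inr (mem_nbrs.1 hy)) s M false⟩) (Or.inr fun _ _ => lower_Col _ _ _)
    (c := Real.exp (-lam)) (Real.exp_pos _).le fun y hy => ?_)
  · exact pow_le_pow_of_le_one (Real.exp_pos _).le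
      (Real.exp_le_one_iff.2 (neg_nonpos.2 (by positivity))) (card_nbrs x)
  · rw [real_Col_adj lam M (mem_nbrs.1 hy), mul_div_cancel_right₀ _ hM']

theorem dieP_le_one (lam : ℝ≥0) : dieP d lam ≤ 1 :=
  (real_Die lam Nat.one_pos (0 : Site d) 0).trans measureReal_le_one

theorem real_iInter_Die (lam : ℝ≥0) {M : ℕ} (hM : 0 < M) (S : Finset (Site d × ℤ)) {N : ℕ}
    (hN : S.card ≤ N) : dieP d lam ^ N ≤ (mu d lam M).real (⋂ p ∈ S, Die M p.1 p.2) :=
  (pow_le_pow_of_le_one (dieP_pos lam).le (dieP_le_one lam) hN).trans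
    (harris_pow _ S _ (fun p _ => ⟨_, Own.finite (finite_singleton p.1) _ _, loc_Die M p.1 p.2⟩)
      (Or.inr fun _ _ => lower_Die _ _ _) (dieP_pos lam).le fun p _ => real_Die lam hM p.1 p.2)

/-- The site `x` will recover before time `b` without emitting an arrow. -/
def Doomed (ω : Cfg d) (x : Site d) (s b : ℤ) : Prop :=
  ∃ t, s ≤ t ∧ t < b ∧ ω ((x, x), t) = false ∧
    ∀ u, s ≤ u → u < t → ∀ y, Adj x y → ω ((x, y), u) = false

theorem Doomed.step {ω : Cfg d} {x y : Site d} {s b : ℤ} (h : Doomed ω x s b)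
    (hs : step ω s x y) : Doomed ω y (s + 1) b := by
  obtain ⟨t, h1, h2, h3, h4⟩ := h
  have hts : s < t := lt_of_le_of_ne h1 (by
    rintro rfl
    rw [hs.2.1] at h3
    cases h3)
  rcases hs.1 with rfl | ha
  · exact ⟨t, hts, h2, h3, fun u h5 h6 => h4 u (by omega) h6⟩
  · have := h4 s le_rfl hts y ha
    rw [hs.2.2.2] at this
    cases this

theorem Die.arrow {M : ℕ} {x y : Site d} {s u : ℤ} {ω : Cfg d} (h : ω ∈ Die M x s) (ha : Adj x y)
    (h1 : s ≤ u) (h2 : u < s + M) : ω ((x, y), u) = false := by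
  have := h.1
  simp only [mem_iInter] at this
  exact this y (mem_nbrs.2 ha) u h1 h2

theorem Die.doomed {M : ℕ} {x : Site d} {s b : ℤ} {ω : Cfg d} (h : ω ∈ Die M x s)
    (hb : s + M ≤ b) : Doomed ω x s b := by
  have := h.2
  simp only [Col, mem_compl_iff, mem_ofPred_eq, not_forall] at this
  obtain ⟨t, h1, h2, h3⟩ := this
  exact ⟨t, h1, by omega, by simpa using h3, fun u h4 h5 y ha => Die.arrow h ha h4 (by omega)⟩

theorem reach_eq_empty_of_doomed {ω : Cfg d} {B : Set (Site d)} {s : ℤ} {k : ℕ}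
    (h : ∀ x ∈ B, Doomed ω x s (s + k)) : reach ω B s k = ∅ := by
  have : ∀ l, ∀ x ∈ reach ω B s l, Doomed ω x (s + l) (s + k) := by
    intro l
    induction l with
    | zero => simpa [reach_zero] using h
    | succ l ih =>
      rintro y ⟨x, hx, hs⟩
      have := (ih x hx).step hs
      rwa [Nat.cast_succ, ← add_assoc]
  rw [eq_empty_iff_forall_notMem]
  intro x hx
  obtain ⟨t, h1, h2, -⟩ := this k x hx
  omega

/-- The site `x` outside `Λ` receives an arrow from the process in `Λ` during layer `j`. -/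
def Hit (M : ℕ) (Λ A : Set (Site d)) (ω : Cfg d) (x : Site d) (j : ℕ) : Prop :=
  x ∉ Λ ∧ ∃ u : ℕ, j * M ≤ u ∧ u < (j + 1) * M ∧ ∃ z ∈ reach (cut Λ ω) A 0 u,
    Adj z x ∧ cut Λ ω ((z, z), u) = true ∧ cut Λ ω ((z, x), u) = true

theorem kill {M : ℕ} (hM : 0 < M) {Λ A : Set (Site d)} (hA : A ⊆ Λ) {ω : Cfg d} {T : ℕ}
    (h1 : ∀ x ∈ reach (cut Λ ω) A 0 (T * M), ω ∈ Die M x (T * M : ℕ))
    (h2 : ∀ x j, j < T → Hit M Λ A ω x j →
      ω ∈ Die M x (j * M : ℕ) ∧ ω ∈ Die M x ((j + 1) * M : ℕ)) :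
    reach ω A 0 ((T + 1) * M) = ∅ := by
  have key : ∀ l, l ≤ T * M → ∀ x ∈ reach ω A 0 l,
      x ∈ reach (cut Λ ω) A 0 l ∨ Doomed ω x l ((T + 1) * M : ℕ) := by
    intro l
    induction l with
    | zero => exact fun _ x hx => Or.inl hx
    | succ l ih =>
      rintro hl y ⟨x, hx, hs⟩
      rcases ih (by omega) x hx with h | h
      · have hxΛ := reach_cut_subset hA ω 0 l h
        by_cases hy : y ∈ Λ
        · exact Or.inl ⟨x, h, step_cut.2 ⟨hs, hxΛ, hy⟩⟩
        · right
          have ha : Adj x y := hs.1.resolve_left (by rintro rfl; exact hy hxΛ)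
          have e1 := Nat.div_mul_le_self l M
          have e2 : l < (l / M + 1) * M := by
            have := Nat.lt_div_mul_add (a := l) hM
            linarith
          have hj : l / M < T := (Nat.div_lt_iff_lt_mul hM).2 (by omega)
          rw [zero_add] at hs
          obtain ⟨d1, d2⟩ := h2 y (l / M) hj ⟨hy, l, e1, e2, x, h, ha,
            cut_eq_true.2 ⟨hs.2.1, hxΛ⟩, cut_eq_true.2 ⟨hs.2.2.2, hxΛ⟩⟩
          have e3 : (l / M + 1) * M + M ≤ (T + 1) * M := by nlinarith
          obtain ⟨t, t1, t2, t3, t4⟩ := Die.doomed d2 (b := ((T + 1) * M : ℕ)) (by omega)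
          refine ⟨t, by omega, t2, t3, fun u u1 u2 z hz => ?_⟩
          by_cases hu : u < ((l / M + 1) * M : ℕ)
          · exact Die.arrow d1 hz (by omega) (by push_cast at hu ⊢; linarith)
          · exact t4 u (by omega) u2 z hz
      · right
        rw [zero_add] at hs
        exact_mod_cast h.step hs
  rw [add_mul, one_mul, reach_add]
  refine reach_eq_empty_of_doomed fun x hx => ?_
  rw [zero_add]
  rcases key _ le_rfl x hx with h | h
  · exact Die.doomed (h1 x h) le_rfl
  · have e : (((T + 1) * M : ℕ) : ℤ) = (T * M : ℕ) + M := by push_cast; ring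
    rwa [e] at h

end Pool.Agent.MP_452076_pr

end

-- part MP_452076_pr.Speed
section

/-!
Finite speed of propagation, uniformly in the discretisation.
-/

namespace Pool.Agent.MP_452076_pr

open MeasureTheory ProbabilityTheory Set Filter Topology
open scoped NNReal ENNReal

variable {d : ℕ}

/-- All recoveries are removed. -/
def free (ω : Cfg d) : Cfg d := fun i => ω i || decide (i.1.1 = i.1.2)

theorem le_free (ω : Cfg d) : ω ≤ free ω := fun i => by
  rw [Bool.le_iff_imp]
  intro h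
  simp [free, h]

theorem free_diag (ω : Cfg d) (x : Site d) (t : ℤ) : free ω ((x, x), t) = true := by simp [free]

theorem measurable_free : Measurable (free (d := d)) := by
  refine measurable_pi_lambda _ fun i => ?_
  exact (measurable_of_countable fun b : Bool => b || decide (i.1.1 = i.1.2)).comp
    (measurable_pi_apply i)

theorem reach_free_mono (ω : Cfg d) (A : Set (Site d)) (s : ℤ) {k l : ℕ} (h : k ≤ l) :
    reach (free ω) A s k ⊆ reach (free ω) A s l :=
  fun _ hx => mem_reach_wait hx h fun _ _ _ => free_diag _ _ _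

def Exit (c : Site d) (L : ℕ) (A : Set (Site d)) (s : ℤ) (k : ℕ) : Set (Cfg d) :=
  {ω | ∃ y, y ∉ cube c L ∧ y ∈ reach (free ω) A s k}

theorem reach_subset_cut {c : Site d} {L : ℕ} {A : Set (Site d)} {s : ℤ} {k : ℕ} {ω : Cfg d}
    (h : ω ∉ Exit c L A s k) {u : ℕ} (hu : u ≤ k) :
    reach ω A s u ⊆ reach (cut (cube c L) ω) A s u := by
  have key : ∀ v ≤ k, ∀ y ∈ reach ω A s v, y ∈ cube c L := fun v hv y hy => by
    by_contra h'
    exact h ⟨y, h', reach_free_mono ω A s hv (reach_mono (le_free ω) subset_rfl s v hy)⟩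
  induction u with
  | zero => exact subset_rfl
  | succ u ih =>
    rintro y ⟨x, hx, hs⟩
    exact ⟨x, ih (by omega) hx, step_cut.2 ⟨hs, key u (by omega) x hx,
      key (u + 1) hu y ⟨x, hx, hs⟩⟩⟩

theorem exit_shell {c : Site d} {L : ℕ} {A : Set (Site d)} (hA : A ⊆ cube c L) {s : ℤ} {k : ℕ}
    {ω : Cfg d} (h : ω ∈ Exit c L A s k) :
    ∃ y ∈ cube c (L + 1), y ∉ cube c L ∧ y ∈ reach (free ω) A s k := by
  induction k with
  | zero =>
    obtain ⟨y, h1, h2⟩ := h
    exact absurd (hA h2) h1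
  | succ k ih =>
    obtain ⟨y, h1, x, hx, hs⟩ := h
    by_cases hx' : x ∈ cube c L
    · refine ⟨y, ?_, h1, x, hx, hs⟩
      have ha : Adj x y := hs.1.resolve_left (by rintro rfl; exact h1 hx')
      exact cube_subset hx' (by omega) ha.mem_cube
    · obtain ⟨z, h2, h3, h4⟩ := ih ⟨x, hx', hx⟩
      exact ⟨z, h2, h3, reach_free_mono ω A s (Nat.le_succ k) h4⟩

theorem real_reach_free (lam : ℝ≥0) (M : ℕ) {c : Site d} {n : ℕ} {A : Set (Site d)}
    (hA : A ⊆ cube c n) (s : ℤ) (k : ℕ) (y : Site d) :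
    (mu d lam M).real {ω | y ∈ reach (free ω) A s k} ≤
      (1 + 3 ^ d * Real.exp 1 * (lam / M)) ^ k * Real.exp (n * d - l1 y c) := by
  induction k generalizing y with
  | zero =>
    by_cases hy : y ∈ A
    · refine measureReal_le_one.trans ?_
      rw [pow_zero, one_mul]
      refine Real.one_le_exp ?_
      have : (l1 y c : ℝ) ≤ n * d := by exact_mod_cast l1_le_of_mem_cube (hA hy)
      linarith
    · simp only [reach_zero, hy, ofPred_false, measureReal_empty]
      positivity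
  | succ k ih =>
    have sub : {ω : Cfg d | y ∈ reach (free ω) A s (k + 1)} ⊆
        {ω | y ∈ reach (free ω) A s k} ∪ ⋃ x ∈ nbrs y,
          ({ω | x ∈ reach (free ω) A s k} ∩ {ω | ω ((x, y), s + k) = true}) := by
      rintro ω ⟨x, hx, hs⟩
      rcases hs.1 with rfl | ha
      · exact Or.inl hx
      · refine Or.inr (mem_biUnion (mem_nbrs.2 ha.symm) ⟨hx, ?_⟩)
        simpa [free, ha.ne] using hs.2.2.2
    refine (measureReal_mono sub).trans ((measureReal_union_le _ _).trans ?_)
    have hb : ∀ x ∈ nbrs y, (mu d lam M).real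
        ({ω | x ∈ reach (free ω) A s k} ∩ {ω | ω ((x, y), s + k) = true}) ≤
        (1 + 3 ^ d * Real.exp 1 * (lam / M)) ^ k * Real.exp (n * d - l1 y c) *
          (Real.exp 1 * (lam / M)) := by
      intro x hx
      have ha := (mem_nbrs.1 hx).symm
      rw [indep_loc_real _ (J := Own univ s (s + k)) ?_ (loc_coord _ _) ?_
        (measurableSet_reach measurable_free _ _ _ _) (measurableSet_coord _ _), real_coord,
        nu_true]
      · have h1 := ih x
        have h2 := pr_adj_le lam M ha (s + k)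
        have h3 : Real.exp (n * d - l1 x c) ≤ Real.exp (n * d - l1 y c) * Real.exp 1 := by
          rw [← Real.exp_add]
          refine Real.exp_le_exp.2 ?_
          have e1 := l1_triangle y x c
          have e2 : l1 y x = 1 := ha.symm
          have : (l1 y c : ℝ) ≤ 1 + l1 x c := by exact_mod_cast e2 ▸ e1
          linarith
        calc _ ≤ ((1 + 3 ^ d * Real.exp 1 * (lam / M)) ^ k *
              (Real.exp (n * d - l1 y c) * Real.exp 1)) * (lam / M) :=
              mul_le_mul (h1.trans (mul_le_mul_of_nonneg_left h3 (by positivity))) h2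
                (pr lam M _).2.1 (by positivity)
          _ = _ := by ring
      · intro ω ω' e h
        simp only [mem_ofPred_eq] at h ⊢
        rwa [← reach_time_congr (ω := free ω) A le_rfl fun i hi => by simp only [free, e i hi]]
      · rw [disjoint_singleton_right]
        exact fun h => lt_irrefl _ h.2.2.2
    have h2 := (measureReal_biUnion_finset_le (μ := mu d lam M) _ _).trans
      (Finset.sum_le_card_nsmul _ _ _ hb)
    rw [nsmul_eq_mul] at h2
    have h3 : ((nbrs y).card : ℝ) ≤ 3 ^ d := by exact_mod_cast card_nbrs y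
    have h4 := mul_le_mul_of_nonneg_right h3 (show 0 ≤ (1 + 3 ^ d * Real.exp 1 * (lam / M)) ^ k *
      Real.exp (n * d - l1 y c) * (Real.exp 1 * (lam / M)) by positivity)
    have h5 := ih y
    rw [pow_succ]
    linarith

theorem real_Exit (lam : ℝ≥0) {M : ℕ} (hM : 0 < M) {c : Site d} {n L : ℕ} (hnL : n ≤ L)
    {A : Set (Site d)} (hA : A ⊆ cube c n) (s : ℤ) (t : ℕ) :
    (mu d lam M).real (Exit c L A s (t * M)) ≤
      (3 ^ d * Real.exp (3 ^ d * Real.exp 1 * lam * t + n * d)) *
        (((L + 1 : ℕ) : ℝ) ^ d * Real.exp (-((L + 1 : ℕ) : ℝ))) := by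
  classical
  have sub : Exit c L A s (t * M) ⊆ ⋃ y ∈ (cube c (L + 1)).filter (fun y => y ∉ cube c L),
      {ω | y ∈ reach (free ω) A s (t * M)} := by
    intro ω h
    obtain ⟨y, h1, h2, h3⟩ := exit_shell
      (hA.trans (Finset.coe_subset.2 (cube_subset (self_mem_cube c 0) (by omega)))) h
    exact mem_biUnion (Finset.mem_coe.2 (Finset.mem_filter.2 ⟨h1, h2⟩)) h3
  have hM' : (M : ℝ) ≠ 0 := by positivity
  have hb : ∀ y ∈ (cube c (L + 1)).filter (fun y => y ∉ cube c L),
      (mu d lam M).real {ω | y ∈ reach (free ω) A s (t * M)} ≤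
      Real.exp (3 ^ d * Real.exp 1 * lam * t + n * d) * Real.exp (-((L + 1 : ℕ) : ℝ)) := by
    intro y hy
    refine (real_reach_free lam M hA s _ y).trans ?_
    have h1 : (1 + 3 ^ d * Real.exp 1 * (lam / M)) ^ (t * M) ≤
        Real.exp (3 ^ d * Real.exp 1 * lam * t) := by
      have : (1 + 3 ^ d * Real.exp 1 * (lam / M)) ≤ Real.exp (3 ^ d * Real.exp 1 * (lam / M)) := by
        rw [add_comm]; exact Real.add_one_le_exp _
      refine (pow_le_pow_left₀ (by positivity) this _).trans_eq ?_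
      rw [← Real.exp_nat_mul]
      congr 1
      push_cast
      field_simp
    have h2 : ((L + 1 : ℕ) : ℝ) ≤ l1 y c := by
      have := (Finset.mem_filter.1 hy).2
      rw [mem_cube] at this
      push Not at this
      obtain ⟨i, hi⟩ := this
      have := abs_le_l1 y c i
      have : ((L + 1 : ℕ) : ℤ) ≤ l1 y c := by push_cast; omega
      exact_mod_cast this
    refine (mul_le_mul_of_nonneg_right h1 (Real.exp_pos _).le).trans ?_
    rw [← Real.exp_add, ← Real.exp_add]
    exact Real.exp_le_exp.2 (by linarith)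
  have h2 := (measureReal_biUnion_finset_le (μ := mu d lam M) _ _).trans
    (Finset.sum_le_card_nsmul _ _ _ hb)
  rw [nsmul_eq_mul] at h2
  refine (rmono sub).trans (h2.trans ?_)
  have h3 : (((cube c (L + 1)).filter (fun y => y ∉ cube c L)).card : ℝ) ≤
      3 ^ d * ((L + 1 : ℕ) : ℝ) ^ d := by
    rw [← mul_pow]
    have := Finset.card_filter_le (cube c (L + 1)) (fun y => y ∉ cube c L)
    rw [card_cube] at this
    have h := this.trans (Nat.pow_le_pow_left (show 2 * (L + 1) + 1 ≤ 3 * (L + 1) by omega) d)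
    exact_mod_cast h
  refine (mul_le_mul_of_nonneg_right h3 (by positivity)).trans_eq ?_
  ring

theorem exists_Exit_le (d : ℕ) (lam : ℝ≥0) (n t : ℕ) {η : ℝ} (hη : 0 < η) :
    ∃ L, n ≤ L ∧ ∀ M, 0 < M → ∀ (c : Site d) (A : Set (Site d)), A ⊆ cube c n → ∀ s : ℤ,
      (mu d lam M).real (Exit c L A s (t * M)) ≤ η := by
  have h1 : Tendsto (fun L : ℕ => (3 ^ d * Real.exp (3 ^ d * Real.exp 1 * lam * t + n * d)) *
      (((L + 1 : ℕ) : ℝ) ^ d * Real.exp (-((L + 1 : ℕ) : ℝ)))) atTop (𝓝 0) := by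
    have := ((Real.tendsto_pow_mul_exp_neg_atTop_nhds_zero d).comp
      (tendsto_natCast_atTop_atTop.comp (tendsto_add_atTop_nat 1))).const_mul
      (3 ^ d * Real.exp (3 ^ d * Real.exp 1 * lam * t + n * d))
    simpa using this
  obtain ⟨L, hL1, hL2⟩ := ((h1.eventually (ge_mem_nhds hη)).and (eventually_ge_atTop n)).exists
  exact ⟨L, hL2, fun M hM c A hA s => (real_Exit lam hM hL2 hA s t).trans hL1⟩

end Pool.Agent.MP_452076_pr

end

-- part MP_452076_pr.Target
section

/-!
Target events (a fully infected cube is reproduced somewhere else) and their symmetries.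
-/

namespace Pool.Agent.MP_452076_pr

open MeasureTheory ProbabilityTheory Set Filter Topology
open scoped NNReal ENNReal

variable {d : ℕ}

def Ev (n : ℕ) (Λ : Set (Site d)) (c : Site d) (s : ℤ) (𝒯 : Set (Site d × ℕ)) : Set (Cfg d) :=
  {ω | ∃ p ∈ 𝒯, (cube p.1 n : Set (Site d)) ⊆ reach (cut Λ ω) (cube c n) s p.2}

theorem upper_Ev (n : ℕ) (Λ : Set (Site d)) (c : Site d) (s : ℤ) (𝒯 : Set (Site d × ℕ)) :
    IsUpperSet (Ev n Λ c s 𝒯) := fun _ _ h ⟨p, hp, h1⟩ =>
  ⟨p, hp, h1.trans (reach_mono (cut_mono subset_rfl h) subset_rfl _ _)⟩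

theorem loc_Ev (n : ℕ) (Λ : Set (Site d)) (c : Site d) (s : ℤ) {𝒯 : Set (Site d × ℕ)} {s' : ℤ}
    (h : ∀ p ∈ 𝒯, s + p.2 ≤ s') : Loc (Own Λ s s') (Ev n Λ c s 𝒯) := fun _ _ e ⟨p, hp, h1⟩ =>
  ⟨p, hp, by rwa [← reach_cut_congr _ (h p hp) e]⟩

theorem measurableSet_Ev' {Ω : Type*} [MeasurableSpace Ω] {g : Ω → Cfg d} (hg : Measurable g)
    (n : ℕ) (Λ : Set (Site d)) (c : Site d) (s : ℤ) (𝒯 : Set (Site d × ℕ)) :
    MeasurableSet {ω | g ω ∈ Ev n Λ c s 𝒯} := by
  have : {ω | g ω ∈ Ev n Λ c s 𝒯} = ⋃ p ∈ 𝒯,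
      {ω | (cube p.1 n : Set (Site d)) ⊆ reach (cut Λ (g ω)) (cube c n) s p.2} := by
    ext ω; simp [Ev]
  rw [this]
  exact .biUnion (to_countable _) fun p _ =>
    measurableSet_subset_reach ((measurable_cut Λ).comp hg) _ _ _ _

theorem measurableSet_Ev (n : ℕ) (Λ : Set (Site d)) (c : Site d) (s : ℤ)
    (𝒯 : Set (Site d × ℕ)) : MeasurableSet (Ev n Λ c s 𝒯) :=
  measurableSet_Ev' measurable_id n Λ c s 𝒯

theorem Ev.mono {n : ℕ} {Λ Λ' : Set (Site d)} (h : Λ ⊆ Λ') {c : Site d} {s : ℤ}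
    {𝒯 𝒯' : Set (Site d × ℕ)} (h' : 𝒯 ⊆ 𝒯') : Ev n Λ c s 𝒯 ⊆ Ev n Λ' c s 𝒯' :=
  fun _ ⟨p, hp, h1⟩ => ⟨p, h' hp, h1.trans (reach_mono (cut_mono h le_rfl) subset_rfl _ _)⟩

/-- Signed permutations of the coordinates followed by a translation. -/
def aff (π : Equiv.Perm (Fin d)) (σ : Fin d → ℤˣ) (c : Site d) : Site d ≃ Site d where
  toFun x := fun i => σ i * x (π i) + c i
  invFun y := fun j => σ (π.symm j) * (y (π.symm j) - c (π.symm j))
  left_inv x := by
    funext j
    simp [← mul_assoc]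
  right_inv y := by
    funext i
    simp [← mul_assoc]

theorem aff_apply (π : Equiv.Perm (Fin d)) (σ : Fin d → ℤˣ) (c x : Site d) (i : Fin d) :
    aff π σ c x i = σ i * x (π i) + c i := rfl

theorem abs_aff (π : Equiv.Perm (Fin d)) (σ : Fin d → ℤˣ) (c x y : Site d) (i : Fin d) :
    |aff π σ c x i - aff π σ c y i| = |x (π i) - y (π i)| := by
  rw [aff_apply, aff_apply, add_sub_add_right_eq_sub, ← mul_sub, abs_mul]
  rcases Int.units_eq_one_or (σ i) with h | h <;> simp [h]

theorem adj_aff (π : Equiv.Perm (Fin d)) (σ : Fin d → ℤˣ) (c x y : Site d) :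
    Adj (aff π σ c x) (aff π σ c y) ↔ Adj x y := by
  unfold Adj
  simp only [abs_aff]
  rw [Equiv.sum_comp π (fun i => |x i - y i|)]

theorem cube_aff (π : Equiv.Perm (Fin d)) (σ : Fin d → ℤˣ) (c x y : Site d) (r : ℕ) :
    x ∈ cube y r ↔ aff π σ c x ∈ cube (aff π σ c y) r := by
  simp only [mem_cube, abs_aff]
  exact (π.forall_congr_right (q := fun i => |x i - y i| ≤ r)).symm

theorem aff_zero (π : Equiv.Perm (Fin d)) (σ : Fin d → ℤˣ) (c : Site d) : aff π σ c 0 = c := by
  funext i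
  simp [aff_apply]

theorem mul_aff_sub (π : Equiv.Perm (Fin d)) (σ : Fin d → ℤˣ) (c x : Site d) (i : Fin d) :
    σ i * (aff π σ c x i - c i) = x (π i) := by
  simp [aff_apply, ← mul_assoc]

theorem real_Ev_aff (lam : ℝ≥0) (M : ℕ) (π : Equiv.Perm (Fin d)) (σ : Fin d → ℤˣ) (c : Site d)
    (n ρ : ℕ) (s : ℤ) {𝒯 𝒯' : Set (Site d × ℕ)}
    (h : ∀ p : Site d × ℕ, p ∈ 𝒯 ↔ (aff π σ c p.1, p.2) ∈ 𝒯') :
    (mu d lam M).real (Ev n (cube c ρ) c s 𝒯')ᶜ = (mu d lam M).real (Ev n (cube (0 : Site d) ρ) 0 0 𝒯)ᶜ := by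
  rw [← real_act lam M (adj_aff π σ c) s (measurableSet_Ev n (cube (0 : Site d) ρ) 0 0 𝒯).compl]
  congr 1
  ext ω
  simp only [mem_compl_iff, mem_ofPred_eq]
  refine not_congr ?_
  have hc : ∀ r x, x ∈ (cube (0 : Site d) r : Set (Site d)) ↔
      aff π σ c x ∈ (cube c r : Set (Site d)) := fun r x => by
    rw [Finset.mem_coe, Finset.mem_coe, cube_aff π σ c, aff_zero]
  have key : ∀ (p : Site d × ℕ), (cube p.1 n : Set (Site d)) ⊆
      reach (cut (cube (0 : Site d) ρ) (act (aff π σ c) s ω)) (cube (0 : Site d) n) 0 p.2 ↔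
      (cube (aff π σ c p.1) n : Set (Site d)) ⊆ reach (cut (cube c ρ) ω) (cube c n) s p.2 := by
    intro p
    rw [cut_act _ _ _ (hc ρ)]
    constructor
    · intro h1 y hy
      obtain ⟨y, rfl⟩ := (aff π σ c).surjective y
      have := (mem_reach_act (adj_aff π σ c) s _ (hc n) 0 p.2 y).1
        (h1 ((cube_aff π σ c _ _ _).2 hy))
      rwa [zero_add] at this
    · intro h1 y hy
      refine (mem_reach_act (adj_aff π σ c) s _ (hc n) 0 p.2 y).2 ?_
      rw [zero_add]
      exact h1 ((cube_aff π σ c _ _ _).1 hy)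
  constructor
  · rintro ⟨⟨x, k⟩, hp, h1⟩
    obtain ⟨x, rfl⟩ := (aff π σ c).surjective x
    exact ⟨(x, k), (h (x, k)).2 hp, (key (x, k)).2 h1⟩
  · rintro ⟨p, hp, h1⟩
    exact ⟨(aff π σ c p.1, p.2), (h p).1 hp, (key p).1 h1⟩

/-- Targets on the top of the space-time box. -/
def TopT (L k : ℕ) (c : Site d) (σ : Fin d → ℤˣ) : Set (Site d × ℕ) :=
  {p | (∀ i, 0 ≤ σ i * (p.1 i - c i) ∧ σ i * (p.1 i - c i) ≤ L) ∧ p.2 = k}

/-- Targets on a side of the space-time box. -/
def SideT (M L n g T : ℕ) (c : Site d) (i₀ : Fin d) (σ : Fin d → ℤˣ) : Set (Site d × ℕ) :=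
  {p | σ i₀ * (p.1 i₀ - c i₀) = L + 1 + n ∧
    (∀ i, i ≠ i₀ → 0 ≤ σ i * (p.1 i - c i) ∧ σ i * (p.1 i - c i) ≤ L) ∧ ∃ j < T, p.2 = (j + g) * M}

theorem real_Top (lam : ℝ≥0) (M n ρ L k : ℕ) (c : Site d) (s : ℤ) (σ : Fin d → ℤˣ) :
    (mu d lam M).real (Ev n (cube c ρ) c s (TopT L k c σ))ᶜ =
      (mu d lam M).real (Ev n (cube (0 : Site d) ρ) 0 0 (TopT L k 0 1))ᶜ := by
  refine real_Ev_aff lam M 1 σ c n ρ s fun p => ?_
  simp [TopT, mul_aff_sub]

theorem real_Side (lam : ℝ≥0) (M n ρ L g T : ℕ) (c : Site d) (s : ℤ) (i₀ i₁ : Fin d)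
    (σ : Fin d → ℤˣ) :
    (mu d lam M).real (Ev n (cube c ρ) c s (SideT M L n g T c i₀ σ))ᶜ =
      (mu d lam M).real (Ev n (cube (0 : Site d) ρ) 0 0 (SideT M L n g T 0 i₁ 1))ᶜ := by
  refine real_Ev_aff lam M (Equiv.swap i₀ i₁) σ c n ρ s fun p => ?_
  simp only [SideT, mem_ofPred_eq, mul_aff_sub, Pi.one_apply, Units.val_one, Pi.zero_apply,
    sub_zero, one_mul, Equiv.swap_apply_left]
  refine and_congr_right fun _ => and_congr_left fun _ => ?_
  rw [← (Equiv.swap i₀ i₁).forall_congr_right]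
  refine forall_congr' fun i => imp_congr_left ?_
  rw [Ne, Ne, ← Equiv.eq_symm_apply, Equiv.symm_swap, Equiv.swap_apply_right]

def Surv (A : Set (Site d)) (s : ℤ) (k : ℕ) : Set (Cfg d) := {ω | (reach ω A s k).Nonempty}

theorem measurableSet_Surv (A : Set (Site d)) (s : ℤ) (k : ℕ) : MeasurableSet (Surv A s k) :=
  measurableSet_reach_nonempty measurable_id A s k

theorem Surv.anti (A : Set (Site d)) (s : ℤ) {k l : ℕ} (h : k ≤ l) : Surv A s l ⊆ Surv A s k :=
  fun _ h1 => reach_nonempty_of_le h h1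

theorem real_Surv_single (lam : ℝ≥0) (M : ℕ) (x : Site d) (k : ℕ) :
    (mu d lam M).real (Surv {x} 0 k) = (mu d lam M).real (Surv {0} 0 k) := by
  rw [← real_act lam M (adj_aff 1 1 x) 0 (measurableSet_Surv {0} 0 k)]
  congr 1
  ext ω
  have hc : ∀ y : Site d, y ∈ ({0} : Set (Site d)) ↔ aff 1 1 x y ∈ ({x} : Set (Site d)) := by
    intro y
    rw [mem_singleton_iff, mem_singleton_iff]
    conv_rhs => rw [← aff_zero 1 1 x]
    simp only [aff_zero]
    conv_rhs => enter [2]; rw [← aff_zero 1 1 x]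
    exact (aff 1 1 x).injective.eq_iff.symm
  constructor
  · rintro ⟨y, hy⟩
    obtain ⟨y, rfl⟩ := (aff 1 1 x).surjective y
    exact ⟨y, (mem_reach_act (adj_aff 1 1 x) 0 ω hc 0 k y).2 hy⟩
  · rintro ⟨y, hy⟩
    exact ⟨_, (mem_reach_act (adj_aff 1 1 x) 0 ω hc 0 k y).1 hy⟩

/-- The finite-size criterion. -/
def Crit (d : ℕ) (lam : ℝ≥0) (M n L g t₀ T : ℕ) (ε : ℝ) : Prop :=
  (∀ (c : Site d) (s : ℤ) (σ : Fin d → ℤˣ) (t : ℕ), t₀ ≤ t → t < T →
    (mu d lam M).real (Ev n (cube c (L + 1 + 2 * n)) c s (TopT L ((t + g) * M) c σ))ᶜ ≤ ε) ∧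
  ∀ (c : Site d) (s : ℤ) (i₀ : Fin d) (σ : Fin d → ℤˣ),
    (mu d lam M).real (Ev n (cube c (L + 1 + 2 * n)) c s (SideT M L n g T c i₀ σ))ᶜ ≤ ε

end Pool.Agent.MP_452076_pr

end

-- part MP_452076_pr.Cont
section

/-!
Comparison of paths in continuous time with paths of the discretisations.
-/

namespace Pool.Agent.MP_452076_pr

open MeasureTheory ProbabilityTheory Set Filter Topology
open scoped NNReal ENNReal

variable {d : ℕ}

def MarkIn (ω : Sample d) (x y : Site d) (M : ℕ) (s : ℤ) : Prop :=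
  ∃ t, Mark ω x y t ∧ (s : ℝ) ≤ M * t ∧ (M : ℝ) * t < s + 1

theorem Reg.irr {ω : Sample d} (h : Reg ω) {x y : Site d} {t : ℝ} (ht : Mark ω x y t) :
    Irrational t := by
  obtain ⟨j, l, -, rfl⟩ := ht
  exact (h.1 _ l).intCast_add j

theorem Reg.not_free {ω : Sample d} (h : Reg ω) {M : ℕ} (hM : 0 < M) (x y : Site d) (s : ℤ) :
    ω ∉ Free M ((x, y), s) ↔ MarkIn ω x y M s := by
  have e : ((s / M : ℤ) : ℝ) * M + ((s % M : ℤ) : ℝ) = s := by
    exact_mod_cast Int.ediv_mul_add_emod s M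
  simp only [Free, Avoid, mem_ofPred_eq, not_forall, not_not, slotI]
  constructor
  · rintro ⟨l, hl, h1, h2⟩
    exact ⟨_, ⟨s / M, l, hl, rfl⟩, by linarith, by linarith⟩
  · rintro ⟨t, ⟨j, l, hl, rfl⟩, h1, h2⟩
    have hM' : (0 : ℝ) < M := by exact_mod_cast hM
    have u0 := ((ω ((x, y), j)).2 l).2.1
    have u1 : (((ω ((x, y), j)).2 l : ℝ)) < 1 :=
      lt_of_le_of_ne ((ω ((x, y), j)).2 l).2.2 (h.1 _ l).ne_one
    have a1 : (j : ℝ) * M < s + 1 := by nlinarith
    have a2 : (s : ℝ) < (j + 1) * M := by nlinarith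
    have a1 : j * M < s + 1 := by exact_mod_cast a1
    have a2 : s < (j + 1) * M := by exact_mod_cast a2
    have hj : s / M = j := by
      have hM'' : (0 : ℤ) < M := by omega
      exact le_antisymm (Int.lt_add_one_iff.1 ((Int.ediv_lt_iff_lt_mul hM'').2 a2))
        ((Int.le_ediv_iff_mul_le hM'').2 (by omega))
    rw [hj] at e ⊢
    exact ⟨l, hl, by linarith, by linarith⟩

theorem Reg.disc_diag {ω : Sample d} (h : Reg ω) {M : ℕ} (hM : 0 < M) (x : Site d) (s : ℤ) :
    disc M ω ((x, x), s) = true ↔ ¬ MarkIn ω x x M s := by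
  rw [← h.not_free hM]; simp [disc]

theorem Reg.disc_ne {ω : Sample d} (h : Reg ω) {M : ℕ} (hM : 0 < M) {x y : Site d} (hne : x ≠ y)
    (s : ℤ) : disc M ω ((x, y), s) = true ↔ MarkIn ω x y M s := by
  rw [← h.not_free hM]; simp [disc, hne]

theorem Reg.no_mark {ω : Sample d} (h : Reg ω) {M : ℕ} (hM : 0 < M) {x : Site d} {s : ℤ}
    (h1 : disc M ω ((x, x), s) = true) {r : ℝ} (h2 : (s : ℝ) / M ≤ r) (h3 : r ≤ (s + 1) / M) :
    ¬ Mark ω x x r := fun hr => by
  have hM' : (0 : ℝ) < M := by exact_mod_cast hM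
  rw [div_le_iff₀ hM'] at h2
  refine (h.disc_diag hM x s).1 h1 ⟨r, hr, by linarith, ?_⟩
  have h4 : r ≠ (s + 1) / M := by
    have := (h.irr hr).ne_rat ((s + 1) / M)
    simpa using this
  have := (lt_div_iff₀ hM').1 (lt_of_le_of_ne h3 h4)
  linarith

theorem Reg.path_of_reach {ω : Sample d} (h : Reg ω) {M : ℕ} (hM : 0 < M) {x y : Site d} {s : ℤ}
    {k : ℕ} (hy : y ∈ reach (disc M ω) {x} s k) : Path ω x (s / M) y ((s + k) / M) := by
  have hM' : (0 : ℝ) < M := by exact_mod_cast hM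
  induction k generalizing y with
  | zero =>
    rw [mem_singleton_iff.1 hy, Nat.cast_zero, add_zero]
    exact Path.start
  | succ k ih =>
    obtain ⟨z, hz, h1, h2, h3, h4⟩ := hy
    have a1 := ih hz
    have e1 : ((s : ℝ) + k) / M = ((s + k : ℤ) : ℝ) / M := by push_cast; rfl
    have e2 : ((s : ℝ) + (k + 1 : ℕ)) / M = (((s + k : ℤ) : ℝ) + 1) / M := by push_cast; ring
    rw [e1] at a1
    rw [e2]
    rcases h1 with rfl | ha
    · exact a1.wait (div_le_div_of_nonneg_right (by linarith) hM'.le)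
        fun r b1 b2 => h.no_mark hM h2 b1 b2
    · obtain ⟨t, ht, c1, c2⟩ := (h.disc_ne hM ha.ne _).1 h4
      have c3 : ((s + k : ℤ) : ℝ) / M ≤ t := (div_le_iff₀ hM').2 (by linarith)
      have c4 : t ≤ (((s + k : ℤ) : ℝ) + 1) / M := (le_div_iff₀ hM').2 (by linarith)
      exact ((a1.wait c3 fun r b1 b2 => h.no_mark hM h2 b1 (b2.trans c4)).jump ha ht).wait c4
        fun r b1 b2 => h.no_mark hM h3 (c3.trans b1) b2

theorem finite_marks (ω : Sample d) (x y : Site d) (a b : ℝ) :
    {t | Mark ω x y t ∧ a ≤ t ∧ t ≤ b}.Finite := by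
  have : (⋃ j ∈ Icc (⌊a⌋ - 1) ⌈b⌉, ⋃ l ∈ Iio (ω ((x, y), j)).1,
      ({(j : ℝ) + ((ω ((x, y), j)).2 l : ℝ)} : Set ℝ)).Finite :=
    (finite_Icc _ _).biUnion fun j _ => (finite_Iio _).biUnion fun l _ => finite_singleton _
  refine this.subset ?_
  rintro t ⟨⟨j, l, hl, rfl⟩, h1, h2⟩
  have u0 := ((ω ((x, y), j)).2 l).2.1
  have u1 := ((ω ((x, y), j)).2 l).2.2
  refine mem_biUnion (x := j) ⟨?_, ?_⟩ (mem_biUnion (x := l) hl rfl)
  · have := Int.floor_le a
    have : ((⌊a⌋ - 1 : ℤ) : ℝ) ≤ j := by push_cast; linarith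
    exact_mod_cast this
  · have := Int.le_ceil b
    have : (j : ℝ) ≤ ⌈b⌉ := by linarith
    exact_mod_cast this

theorem ev_gap {a b : ℝ} (h : a < b) : ∀ᶠ M : ℕ in atTop, (M : ℝ) * a + 1 ≤ M * b := by
  filter_upwards [(tendsto_natCast_atTop_atTop.atTop_mul_const (sub_pos.2 h)).eventually_ge_atTop 1]
    with M hM
  linarith

theorem no_mark_ev {ω : Sample d} {x y : Site d} {u t : ℝ}
    (h : ∀ r, u ≤ r → r ≤ t → ¬ Mark ω x y r) :
    ∀ᶠ M : ℕ in atTop, ∀ s : ℤ, ⌊M * u⌋ ≤ s → s ≤ ⌊M * t⌋ → ¬ MarkIn ω x y M s := by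
  have h1 : ∀ᶠ M : ℕ in atTop, ∀ r ∈ {r | Mark ω x y r ∧ u - 1 ≤ r ∧ r ≤ t + 1},
      (M : ℝ) * r + 1 ≤ M * u ∨ (M : ℝ) * t + 1 ≤ M * r := by
    refine (eventually_all_finite (finite_marks ω x y _ _)).2 fun r hr => ?_
    by_cases h2 : r < u
    · exact (ev_gap h2).mono fun M => Or.inl
    · exact (ev_gap (not_le.1 fun h3 => h r (not_lt.1 h2) h3 hr.1)).mono fun M => Or.inr
  filter_upwards [h1, eventually_ge_atTop 1] with M h2 hM s h3 h4 ⟨r, hr, h5, h6⟩
  have hM' : (1 : ℝ) ≤ M := by exact_mod_cast hM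
  have h3' : (⌊M * u⌋ : ℝ) ≤ s := by exact_mod_cast h3
  have h4' : (s : ℝ) ≤ ⌊M * t⌋ := by exact_mod_cast h4
  have a1 := Int.lt_floor_add_one (M * u)
  have a2 := Int.floor_le (M * t)
  have a3 : u - 1 ≤ r := by
    by_contra hc
    nlinarith
  have a4 : r ≤ t + 1 := by
    by_contra hc
    nlinarith
  rcases h2 r ⟨hr, a3, a4⟩ with h7 | h7 <;> linarith

theorem Reg.reach_of_path_aux {ω : Sample d} (h : Reg ω) {x y : Site d} {j : ℤ} {t : ℝ}
    (hp : Path ω x j y t) : ¬ Mark ω y y t ∧ (j : ℝ) ≤ t ∧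
      ((∀ᶠ M : ℕ in atTop, y ∈ reach (disc M ω) {x} (j * M) (⌊M * t⌋ - j * M).toNat) ∨
      ((∃ z, z ≠ y ∧ Mark ω z y t) ∧
        ∀ᶠ M : ℕ in atTop, y ∈ reach (disc M ω) {x} (j * M) (⌊M * t⌋ - j * M + 1).toNat)) := by
  have fl : ∀ (M : ℕ) (u : ℝ), (j : ℝ) ≤ u → j * M ≤ ⌊M * u⌋ := fun M u hu => by
    rw [Int.le_floor]
    push_cast
    rw [mul_comm]
    exact mul_le_mul_of_nonneg_left hu (by positivity)
  induction hp with
  | start =>
    refine ⟨fun hm => (h.irr hm).ne_int j rfl, le_rfl, Or.inl (Eventually.of_forall fun M => ?_)⟩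
    have : ⌊(M : ℝ) * j⌋ = j * M := by
      rw [mul_comm, ← Int.floor_intCast (R := ℝ) (j * M)]; push_cast; rfl
    rw [this, sub_self]
    rfl
  | @wait y u t _ hut hno ih =>
    refine ⟨hno t hut le_rfl, ih.2.1.trans hut, ?_⟩
    rcases hut.eq_or_lt with rfl | hlt
    · exact ih.2.2
    · left
      have a1 : ∀ᶠ M : ℕ in atTop, ∃ k : ℕ, ⌊M * u⌋ - j * M ≤ k ∧ k ≤ ⌊M * u⌋ - j * M + 1 ∧
          y ∈ reach (disc M ω) {x} (j * M) k := by
        rcases ih.2.2 with b | b
        · exact b.mono fun M hM => ⟨_, by omega, by have := fl M u ih.2.1; omega, hM⟩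
        · exact b.2.mono fun M hM => ⟨_, by omega, by have := fl M u ih.2.1; omega, hM⟩
      filter_upwards [a1, no_mark_ev hno, ev_gap hlt, eventually_gt_atTop 0]
        with M ⟨k, k1, k2, k3⟩ b2 b3 hM
      have b4 : ⌊M * u⌋ + 1 ≤ ⌊M * t⌋ := by
        rw [← Int.floor_add_one]; exact Int.floor_mono b3
      refine mem_reach_wait k3 (by omega) fun s c1 c2 => (h.disc_diag hM y s).2 (b2 s ?_ ?_)
      · omega
      · omega
  | @jump y z u _ ha hm ih =>
    have hz : ¬ Mark ω z z u := fun hz => ha.ne (Prod.ext_iff.1 (h.2 _ _ _ _ _ hm hz)).1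
    refine ⟨hz, ih.2.1, Or.inr ⟨⟨y, ha.ne, hm⟩, ?_⟩⟩
    rcases ih.2.2 with b | ⟨⟨w, hw, hw'⟩, -⟩
    · filter_upwards [b, no_mark_ev (u := u) (t := u) (x := y) (y := y)
        (fun r c1 c2 => by rw [le_antisymm c2 c1]; exact ih.1),
        no_mark_ev (u := u) (t := u) (x := z) (y := z)
        (fun r c1 c2 => by rw [le_antisymm c2 c1]; exact hz), eventually_gt_atTop 0]
        with M b1 b2 b3 hM
      have := fl M u ih.2.1
      have e1 : (⌊M * u⌋ - j * M + 1).toNat = (⌊M * u⌋ - j * M).toNat + 1 := by omega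
      have e2 : j * M + ((⌊M * u⌋ - j * M).toNat : ℤ) = ⌊M * u⌋ := by omega
      rw [e1]
      refine ⟨y, b1, ?_⟩
      rw [e2]
      exact ⟨Or.inr ha, (h.disc_diag hM y _).2 (b2 _ le_rfl le_rfl),
        (h.disc_diag hM z _).2 (b3 _ le_rfl le_rfl),
        (h.disc_ne hM ha.ne _).2 ⟨u, hm, Int.floor_le _, Int.lt_floor_add_one _⟩⟩
    · exact absurd (Prod.ext_iff.1 (h.2 _ _ _ _ _ hw' hm)).1 hw

theorem Reg.reach_of_path {ω : Sample d} (h : Reg ω) {x y : Site d} {j : ℤ} {n : ℕ}
    (hp : Path ω x j y (j + n)) : ∀ᶠ M : ℕ in atTop, y ∈ reach (disc M ω) {x} (j * M) (n * M) := by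
  rcases (h.reach_of_path_aux hp).2.2 with b | ⟨⟨z, -, hz⟩, -⟩
  · refine b.mono fun M hM => ?_
    have : ⌊(M : ℝ) * (j + n)⌋ = j * M + (n * M : ℕ) := by
      rw [← Int.floor_intCast (R := ℝ) (j * M + (n * M : ℕ))]; push_cast; congr 1; ring
    rwa [this, add_sub_cancel_left, Int.toNat_natCast] at hM
  · exact absurd (by push_cast; rfl) ((h.irr hz).ne_int (j + n))

theorem Path.through {ω : Sample d} {x y : Site d} {s₀ s t : ℝ} (hp : Path ω x s₀ y t)
    (h1 : s₀ ≤ s) (h2 : s ≤ t) : ∃ z, Path ω z s y t := by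
  induction hp with
  | start => exact ⟨x, by rw [le_antisymm h2 h1]; exact Path.start⟩
  | @wait y u t _ hut hno ih =>
    by_cases hs : s ≤ u
    · obtain ⟨z, hz⟩ := ih hs
      exact ⟨z, hz.wait hut hno⟩
    · exact ⟨y, Path.start.wait h2 fun r a b => hno r (by linarith) b⟩
  | jump _ ha hm ih =>
    obtain ⟨z, hz⟩ := ih h2
    exact ⟨z, hz.jump ha hm⟩

theorem eta_eq_true {ω : Sample d} {i : ℤ} {x : Site d} :
    eta ω i x = true ↔ ∀ n : ℕ, ∃ y, Path ω y ((i - n : ℤ) : ℝ) x i := by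
  simp only [eta, decide_eq_true_eq]
  constructor
  · intro h n
    obtain ⟨y, hy⟩ := h (i - n - 1) (by linarith [Nat.cast_nonneg (α := ℝ) n])
    exact hy.through (by push_cast; linarith) (by push_cast; linarith [Nat.cast_nonneg (α := ℝ) n])
  · intro h s hs
    obtain ⟨n, hn⟩ := exists_nat_ge (i - s)
    obtain ⟨y, hy⟩ := h n
    exact hy.through (by push_cast; linarith) hs.le

theorem Reg.eta_iff {ω : Sample d} (h : Reg ω) {i : ℤ} {x : Site d} :
    eta ω i x = true ↔
      ∀ n : ℕ, ∃ y, ∃ M : ℕ, 0 < M ∧ x ∈ reach (disc M ω) {y} ((i - n) * M) (n * M) := by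
  rw [eta_eq_true]
  refine forall_congr' fun n => exists_congr fun y => ⟨fun hp => ?_, fun ⟨M, hM, hp⟩ => ?_⟩
  · have e : (i : ℝ) = ((i - n : ℤ) : ℝ) + n := by push_cast; ring
    rw [e] at hp
    exact ((eventually_gt_atTop 0).and (h.reach_of_path hp)).exists
  · have hM' : (M : ℝ) ≠ 0 := by positivity
    have := h.path_of_reach hM hp
    have e1 : (((i - n) * M : ℤ) : ℝ) / M = ((i - n : ℤ) : ℝ) := by push_cast; field_simp
    have e2 : ((((i - n) * M : ℤ) : ℝ) + (n * M : ℕ)) / M = i := by push_cast; field_simp; ring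
    rwa [e1, e2] at this

theorem aemeasurable_eta (lam : ℝ≥0) (x : ℤ → Site d) :
    AEMeasurable (fun (ω : Sample d) (i : ℤ) => eta ω i (x i)) (law d lam) := by
  classical
  refine ⟨fun ω i => decide (∀ n : ℕ, ∃ y, ∃ M : ℕ, 0 < M ∧
    x i ∈ reach (disc M ω) {y} ((i - n) * M) (n * M)), ?_, ?_⟩
  · refine measurable_pi_lambda _ fun i => measurable_to_bool ?_
    have : (fun ω : Sample d => decide (∀ n : ℕ, ∃ y, ∃ M : ℕ, 0 < M ∧
        x i ∈ reach (disc M ω) {y} ((i - n) * M) (n * M))) ⁻¹' {true} =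
        ⋂ n : ℕ, ⋃ y, ⋃ M : ℕ, ⋃ _ : 0 < M,
          {ω | x i ∈ reach (disc M ω) {y} ((i - n) * M) (n * M)} := by
      ext; simp
    rw [this]
    exact .iInter fun n => .iUnion fun y => .iUnion fun M => .iUnion fun _ =>
      measurableSet_reach (measurable_disc M) _ _ _ _
  · filter_upwards [ae_reg lam] with ω h
    funext i
    rw [Bool.eq_iff_iff, h.eta_iff, decide_eq_true_eq]

theorem surv_ev (lam : ℝ≥0) (h : survival d lam ≠ 0) (t : ℕ) :
    ∀ᶠ M : ℕ in atTop, (survival d lam).toReal / 2 ≤ (mu d lam M).real (Surv {0} 0 (t * M)) := by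
  let A : ℕ → Set (Sample d) := fun M₀ => ⋂ M ≥ M₀, disc M ⁻¹' Surv {0} 0 (t * M)
  have mono : Monotone A := fun a b hab ω hω =>
    mem_iInter₂.2 fun M hM => mem_iInter₂.1 hω M (hab.trans hM)
  have a1 : survival d lam ≤ law d lam (⋃ M₀, A M₀) := by
    refine measure_mono_ae ?_
    filter_upwards [ae_reg lam] with ω hω hs
    obtain ⟨y, hy⟩ := hs t (Nat.cast_nonneg t)
    have := hω.reach_of_path (x := 0) (y := y) (j := 0) (n := t) (by simpa using hy)
    obtain ⟨M₀, hM₀⟩ := eventually_atTop.1 this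
    exact mem_iUnion.2 ⟨M₀, mem_iInter₂.2 fun M hM => ⟨y, by simpa using hM₀ M hM⟩⟩
  have hne : survival d lam ≠ ∞ := measure_ne_top _ _
  have a2 : (survival d lam).toReal / 2 < (law d lam).real (⋃ M₀, A M₀) :=
    (half_lt_self (ENNReal.toReal_pos h hne)).trans_le
      (ENNReal.toReal_mono (measure_ne_top _ _) a1)
  have a3 := (ENNReal.tendsto_toReal (measure_ne_top _ _)).comp
    (tendsto_measure_iUnion_atTop (μ := law d lam) mono)
  obtain ⟨M₀, hM₀⟩ := (a3.eventually (lt_mem_nhds a2)).exists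
  filter_upwards [eventually_ge_atTop M₀, eventually_gt_atTop 0] with M h1 h2
  rw [← map_disc lam h2, map_measureReal_apply (measurable_disc M) (measurableSet_Surv _ _ _)]
  exact hM₀.le.trans (rmono fun ω hω => mem_iInter₂.1 hω M h1)

end Pool.Agent.MP_452076_pr

end
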