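import Pool.Agent.MP_452076_pr.Mg.Cont

-- part MP_452076_pr.BG
section

/-!
The two halves of the Bezuidenhout-Grimmett argument in the discrete model.
-/

namespace Pool.Agent.MP_452076_pr

open MeasureTheory ProbabilityTheory Set Filter Topology
open scoped NNReal ENNReal

variable {d : ℕ}

noncomputable abbrev bx (d r : ℕ) : Finset (Site d) := cube 0 r

open Classical in
noncomputable def topS (d M L n t : ℕ) (ω : Cfg d) : Finset (Site d) :=
  (bx d L).filter fun x => x ∈ reach (cut (bx d L) ω) (bx d n) 0 (t * M)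

open Classical in
noncomputable def hitS (d M L n t : ℕ) (ω : Cfg d) : Finset (Site d × ℕ) :=
  (bx d (L + 1) ×ˢ Finset.range t).filter fun p => Hit M (bx d L) (bx d n) ω p.1 p.2

theorem bx_subset {n L : ℕ} (h : n ≤ L) : (bx d n : Set (Site d)) ⊆ bx d L :=
  Finset.coe_subset.2 (cube_subset (self_mem_cube 0 0) (by omega))

theorem mem_topS {M L n t : ℕ} (h : n ≤ L) {ω : Cfg d} {x : Site d} :
    x ∈ topS d M L n t ω ↔ x ∈ reach (cut (bx d L) ω) (bx d n) 0 (t * M) := by
  classical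
  rw [topS, Finset.mem_filter]
  exact ⟨fun h => h.2, fun h1 => ⟨reach_cut_subset (bx_subset h) ω 0 _ h1, h1⟩⟩

theorem mem_hitS {M L n t : ℕ} {ω : Cfg d} {p : Site d × ℕ} :
    p ∈ hitS d M L n t ω ↔ p.2 < t ∧ Hit M (bx d L) (bx d n) ω p.1 p.2 := by
  classical
  rw [hitS, Finset.mem_filter, Finset.mem_product, Finset.mem_range]
  refine ⟨fun h => ⟨h.1.2, h.2⟩, fun h => ⟨⟨?_, h.1⟩, h.2⟩⟩
  obtain ⟨-, -, u, -, -, z, -, ha, h1, -⟩ := h
  exact cube_subset (cut_eq_true.1 h1).2 (by omega) ha.mem_cube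

theorem topS_congr {M L n t : ℕ} {ω ω' : Cfg d}
    (e : ∀ i ∈ Own (bx d L : Set (Site d)) 0 (t * M : ℕ), ω i = ω' i) :
    topS d M L n t ω = topS d M L n t ω' := by
  unfold topS
  rw [reach_cut_congr _ (by rw [zero_add]) e]

theorem hitS_subset {M L n t : ℕ} {ω ω' : Cfg d}
    (e : ∀ i ∈ Own (bx d L : Set (Site d)) 0 (t * M : ℕ), ω i = ω' i) :
    hitS d M L n t ω ⊆ hitS d M L n t ω' := by
  intro p hp
  rw [mem_hitS] at hp ⊢
  obtain ⟨h0, h1, u, h2, h3, z, h4, ha, h5, h6⟩ := hp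
  have hu : u < t * M := h3.trans_le (Nat.mul_le_mul_right _ h0)
  rw [cut_eq_true] at h5 h6
  refine ⟨h0, h1, u, h2, h3, z, ?_, ha, cut_eq_true.2 ⟨?_, h5.2⟩, cut_eq_true.2 ⟨?_, h5.2⟩⟩
  · rwa [← reach_cut_congr _ (by omega) e]
  · rw [← e _ ⟨h5.2, Or.inl rfl, by simp, by simpa using (Int.ofNat_lt.2 hu)⟩]; exact h5.1
  · rw [← e ((z, p.1), u) ⟨h5.2, Or.inr ha, by simp, by simpa using (Int.ofNat_lt.2 hu)⟩]; exact h6.1

theorem hitS_congr {M L n t : ℕ} {ω ω' : Cfg d}
    (e : ∀ i ∈ Own (bx d L : Set (Site d)) 0 (t * M : ℕ), ω i = ω' i) :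
    hitS d M L n t ω = hitS d M L n t ω' :=
  (hitS_subset e).antisymm (hitS_subset fun i hi => (e i hi).symm)

theorem topS_mono {M L n t : ℕ} {ω ω' : Cfg d} (h : ω ≤ ω') :
    topS d M L n t ω ⊆ topS d M L n t ω' := by
  classical
  intro x hx
  rw [topS, Finset.mem_filter] at hx ⊢
  exact ⟨hx.1, reach_mono (cut_mono subset_rfl h) subset_rfl _ _ hx.2⟩

theorem hitS_mono {M L n t : ℕ} {ω ω' : Cfg d} (h : ω ≤ ω') :
    hitS d M L n t ω ⊆ hitS d M L n t ω' := by
  intro p hp
  rw [mem_hitS] at hp ⊢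
  obtain ⟨h0, h1, u, h2, h3, z, h4, ha, h5, h6⟩ := hp
  have hc := cut_mono (subset_refl (bx d L : Set (Site d))) h
  exact ⟨h0, h1, u, h2, h3, z, reach_mono hc subset_rfl _ _ h4, ha,
    Bool.le_iff_imp.1 (hc _) h5, Bool.le_iff_imp.1 (hc _) h6⟩

theorem loc_topS (d M L n t : ℕ) (P : Finset (Site d) → Prop) :
    Loc (Own (bx d L : Set (Site d)) 0 (t * M : ℕ)) {ω | P (topS d M L n t ω)} :=
  fun _ _ e h => by
    simp only [mem_ofPred_eq] at h ⊢
    rwa [← topS_congr e]

theorem loc_hitS (d M L n t : ℕ) (P : Finset (Site d × ℕ) → Prop) :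
    Loc (Own (bx d L : Set (Site d)) 0 (t * M : ℕ)) {ω | P (hitS d M L n t ω)} :=
  fun _ _ e h => by
    simp only [mem_ofPred_eq] at h ⊢
    rwa [← hitS_congr e]

theorem own_bx_finite (d L : ℕ) (s s' : ℤ) : (Own (bx d L : Set (Site d)) s s').Finite :=
  Own.finite (Finset.finite_toSet _) _ _

/-- Few infected points on the boundary. -/
def Few (d M L n t N : ℕ) : Set (Cfg d) :=
  {ω | (topS d M L n t ω).card ≤ N} ∩ {ω | (hitS d M L n t ω).card ≤ N}

/-- Some infected point on the boundary. -/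
def Some (d M L n t : ℕ) : Set (Cfg d) :=
  {ω | (topS d M L n t ω).Nonempty} ∪ {ω | (hitS d M L n t ω).Nonempty}

theorem neg_aux (lam : ℝ≥0) {M L n : ℕ} (hM : 0 < M) (hn : n ≤ L) (t N : ℕ) :
    dieP d lam ^ (3 * N) * (mu d lam M).real (Few d M L n t N ∩ Some d M L n t) ≤
      (mu d lam M).real (Some d M L n t ∩ (Surv (bx d n) 0 ((t + 1) * M))ᶜ) := by
  classical
  have hH : Loc (Own (bx d L : Set (Site d)) 0 (t * M : ℕ)) (Few d M L n t N ∩ Some d M L n t) :=
    ((loc_topS d M L n t (·.card ≤ N)).inter (loc_hitS d M L n t (·.card ≤ N))).inter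
      ((loc_topS d M L n t (·.Nonempty)).union (loc_hitS d M L n t (·.Nonempty)))
  refine (freeze _ hH (hH.measurableSet (own_bx_finite _ _ _ _))
    (measurableSet_Surv (bx d n) 0 ((t + 1) * M)).compl fun a ha => ?_).trans
    (rmono (inter_subset_inter_left _ inter_subset_right))
  let S : Finset (Site d × ℤ) := ((topS d M L n t a).image fun x => (x, ((t * M : ℕ) : ℤ))) ∪
    (((hitS d M L n t a).image fun p => (p.1, ((p.2 * M : ℕ) : ℤ))) ∪
      ((hitS d M L n t a).image fun p => (p.1, (((p.2 + 1) * M : ℕ) : ℤ))))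
  refine ⟨⋂ p ∈ S, Die M p.1 p.2, ?_, real_iInter_Die lam hM S ?_, fun ω e hω => ?_⟩
  · refine Loc.iInter fun p => Loc.iInter fun hp => (loc_Die M p.1 p.2).mono ?_
    rintro i ⟨h1, -, h2, -⟩ ⟨h3, -, -, h4⟩
    simp only [S, Finset.mem_union, Finset.mem_image] at hp
    rw [mem_singleton_iff] at h1
    rcases hp with ⟨x, -, rfl⟩ | ⟨q, hq, rfl⟩ | ⟨q, hq, rfl⟩
    · simp only at h2; omega
    · exact (mem_hitS.1 hq).2.1 (h1 ▸ h3)
    · exact (mem_hitS.1 hq).2.1 (h1 ▸ h3)
  · have h1 : (topS d M L n t a).card ≤ N := ha.1.1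
    have h2 : (hitS d M L n t a).card ≤ N := ha.1.2
    refine (Finset.card_union_le _ _).trans ?_
    refine (add_le_add le_rfl (Finset.card_union_le _ _)).trans ?_
    refine (add_le_add Finset.card_image_le
      (add_le_add Finset.card_image_le Finset.card_image_le)).trans ?_
    omega
  · simp only [mem_iInter] at hω
    have := kill hM (bx_subset hn) (ω := ω) (T := t) (fun x hx => ?_) (fun x j hj hx => ?_)
    · simp [Surv, this]
    · rw [← mem_topS hn, topS_congr e] at hx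
      exact hω (x, ((t * M : ℕ) : ℤ))
        (Finset.mem_union_left _ (Finset.mem_image_of_mem _ hx))
    · have hx' : (x, j) ∈ hitS d M L n t ω := mem_hitS.2 ⟨hj, hx⟩
      rw [hitS_congr e] at hx'
      exact ⟨hω (x, ((j * M : ℕ) : ℤ)) (Finset.mem_union_right _ (Finset.mem_union_left _
        (Finset.mem_image_of_mem _ hx'))), hω (x, (((j + 1) * M : ℕ) : ℤ))
        (Finset.mem_union_right _ (Finset.mem_union_right _ (Finset.mem_image_of_mem _ hx')))⟩

theorem Hit.exit {M L n : ℕ} {ω : Cfg d} {x : Site d} {j : ℕ}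
    (h : Hit M (bx d L) (bx d n) ω x j) {k : ℕ} :
    ω ∈ Exit 0 L (bx d n) 0 k ∨ ω ∈ Surv (bx d n) 0 k := by
  obtain ⟨h1, u, -, -, z, h4, ha, h5, h6⟩ := h
  rcases le_or_gt k u with hk | hk
  · exact Or.inr (Surv.anti _ _ hk ⟨z, reach_mono (cut_le _ _) subset_rfl _ _ h4⟩)
  · refine Or.inl ⟨x, h1, reach_free_mono ω _ _ (show u + 1 ≤ k from hk) ?_⟩
    refine ⟨z, reach_mono ((cut_le _ _).trans (le_free ω)) subset_rfl _ _ h4, Or.inr ha,
      free_diag _ _ _, free_diag _ _ _, ?_⟩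
    rw [zero_add]
    exact Bool.le_iff_imp.1 (((cut_le _ _).trans (le_free ω)) _) h6

theorem Hit.exit' {M L n : ℕ} {ω : Cfg d} {x : Site d} {j : ℕ}
    (h : Hit M (bx d L) (bx d n) ω x j) {t : ℕ} (hj : j < t) :
    ω ∈ Exit 0 L (bx d n) 0 (t * M) := by
  obtain ⟨h1, u, -, h3, z, h4, ha, h5, h6⟩ := h
  have hu : u + 1 ≤ t * M := h3.trans_le (Nat.mul_le_mul_right _ hj)
  refine ⟨x, h1, reach_free_mono ω _ _ hu ?_⟩
  refine ⟨z, reach_mono ((cut_le _ _).trans (le_free ω)) subset_rfl _ _ h4, Or.inr ha,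
    free_diag _ _ _, free_diag _ _ _, ?_⟩
  rw [zero_add]
  exact Bool.le_iff_imp.1 (((cut_le _ _).trans (le_free ω)) _) h6

/-- It is unlikely to have few infected boundary points. -/
theorem neg (lam : ℝ≥0) {M L n : ℕ} (hM : 0 < M) (hn : n ≤ L) {t₀ t T N : ℕ} (h0 : t₀ ≤ t)
    (hT : t ≤ T) {γ : ℝ}
    (h1 : (mu d lam M).real (Surv (bx d n) 0 ((T + 1) * M))ᶜ ≤ γ / 2)
    (h2 : (mu d lam M).real (Surv (bx d n) 0 (t₀ * M)) -
      (mu d lam M).real (Surv (bx d n) 0 ((T + 1) * M)) ≤ dieP d lam ^ (3 * N) * γ / 4)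
    (h3 : (mu d lam M).real (Exit 0 L (bx d n) 0 (t₀ * M)) ≤ dieP d lam ^ (3 * N) * γ / 4) :
    (mu d lam M).real (Few d M L n t N) ≤ γ := by
  have hc : 0 < dieP d lam ^ (3 * N) := pow_pos (dieP_pos lam) _
  have hle : (t + 1) * M ≤ (T + 1) * M := Nat.mul_le_mul_right _ (by omega)
  have a1 := neg_aux (d := d) lam hM hn t N
  have a2 : (mu d lam M).real (Some d M L n t ∩ (Surv (bx d n) 0 ((t + 1) * M))ᶜ) ≤
      (mu d lam M).real (Surv (bx d n) 0 (t₀ * M) \ Surv (bx d n) 0 ((T + 1) * M)) +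
      (mu d lam M).real (Exit 0 L (bx d n) 0 (t₀ * M)) := by
    refine runion ?_
    rintro ω ⟨h4, h5⟩
    have h6 : ω ∉ Surv (bx d n) 0 ((T + 1) * M) := fun h => h5 (Surv.anti _ _ hle h)
    rcases h4 with ⟨x, hx⟩ | ⟨p, hp⟩
    · refine Or.inl ⟨Surv.anti _ _ (Nat.mul_le_mul_right _ h0) ⟨x, ?_⟩, h6⟩
      exact reach_mono (cut_le _ _) subset_rfl _ _ ((mem_topS hn).1 hx)
    · exact ((mem_hitS.1 hp).2.exit (k := t₀ * M)).symm.imp_left fun h => ⟨h, h6⟩
  rw [measureReal_sdiff (Surv.anti _ _ (Nat.mul_le_mul_right _ (by omega)))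
    (measurableSet_Surv _ _ _)] at a2
  have a3 : (mu d lam M).real (Few d M L n t N) ≤
      (mu d lam M).real (Few d M L n t N ∩ Some d M L n t) +
      (mu d lam M).real (Surv (bx d n) 0 ((T + 1) * M))ᶜ := by
    refine runion fun ω hω => ?_
    by_cases hs : ω ∈ Some d M L n t
    · exact Or.inl ⟨hω, hs⟩
    · right
      intro h
      have := kill hM (bx_subset hn) (ω := ω) (T := t)
        (fun x hx => absurd (Or.inl ⟨x, (mem_topS hn).2 hx⟩) hs)
        (fun x j hj hx => absurd (Or.inr ⟨(x, j), mem_hitS.2 ⟨hj, hx⟩⟩) hs)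
      have h' := Surv.anti _ _ hle h
      simp [Surv, this] at h'
  have a4 : (mu d lam M).real (Few d M L n t N ∩ Some d M L n t) ≤ γ / 2 := by
    refine le_of_mul_le_mul_left ?_ hc
    linarith
  linarith

theorem top_decay (lam : ℝ≥0) {M L n : ℕ} (hM : 0 < M) (hn : n ≤ L) (t : ℕ) :
    (mu d lam M).real {ω | (topS d M L n t ω).Nonempty} ≤
      (1 - dieP d lam ^ ((2 * L + 1) ^ d)) ^ t := by
  classical
  induction t with
  | zero => simp
  | succ t ih =>
    let S : Finset (Site d × ℤ) := (bx d L).image fun x => (x, ((t * M : ℕ) : ℤ))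
    have lK : Loc (Own (bx d L : Set (Site d)) (t * M : ℕ) ((t * M : ℕ) + M))
        (⋂ p ∈ S, Die M p.1 p.2) := by
      refine Loc.iInter fun p => Loc.iInter fun hp => ?_
      obtain ⟨x, hx, rfl⟩ := Finset.mem_image.1 hp
      exact (loc_Die M _ _).mono (Own.mono (singleton_subset_iff.2 hx) le_rfl le_rfl)
    have mK := lK.measurableSet (own_bx_finite _ _ _ _)
    have sub : {ω | (topS d M L n (t + 1) ω).Nonempty} ⊆
        {ω | (topS d M L n t ω).Nonempty} ∩ (⋂ p ∈ S, Die M p.1 p.2)ᶜ := by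
      rintro ω ⟨x, hx⟩
      rw [mem_topS hn] at hx
      constructor
      · obtain ⟨y, hy⟩ := reach_nonempty_of_le (Nat.mul_le_mul_right M (Nat.le_succ t)) ⟨x, hx⟩
        exact ⟨y, (mem_topS hn).2 hy⟩
      · intro h
        simp only [mem_iInter] at h
        rw [add_mul, one_mul, reach_add, reach_eq_empty_of_doomed] at hx
        · exact hx
        · intro y hy
          rw [zero_add]
          refine Die.doomed (M := M) (lower_Die _ _ _ (cut_le _ ω) ?_) le_rfl
          exact h (y, ((t * M : ℕ) : ℤ))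
            (Finset.mem_image_of_mem _ (reach_cut_subset (bx_subset hn) ω 0 _ hy))
    refine (rmono sub).trans ?_
    rw [indep_loc_real _ (loc_topS d M L n t (·.Nonempty)) lK.compl ?_
      ((loc_topS d M L n t (·.Nonempty)).measurableSet (own_bx_finite _ _ _ _)) mK.compl,
      probReal_compl_eq_one_sub mK, pow_succ]
    · have h1 := real_iInter_Die lam hM S (N := (2 * L + 1) ^ d)
        (Finset.card_image_le.trans (card_cube _ _).le)
      have h2 : (mu d lam M).real (⋂ p ∈ S, Die M p.1 p.2) ≤ 1 := measureReal_le_one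
      exact mul_le_mul ih (by linarith) (by linarith) (measureReal_nonneg.trans ih)
    · rw [Set.disjoint_left]
      rintro i ⟨-, -, -, h1⟩ ⟨-, -, h2, -⟩
      omega

/-- Separation of two seeds. -/
def Sep (n g : ℕ) (p q : Site d × ℕ) : Prop :=
  (∃ i, 2 * n + 1 ≤ |p.1 i - q.1 i|) ∨ p.2 + g ≤ q.2 ∨ q.2 + g ≤ p.2

theorem pigeon {κ : Type*} [Fintype κ] (n g r : ℕ) (hg : 0 < g) (S : Finset (Site d × ℕ))
    (f : Site d × ℕ → κ) (h : Fintype.card κ * ((2 * n + 1) ^ d * g) * r < S.card) :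
    ∃ k, ∃ S' ⊆ S, r ≤ S'.card ∧ (∀ p ∈ S', f p = k) ∧
      ∀ p ∈ S', ∀ q ∈ S', p ≠ q → Sep n g p q := by
  classical
  have : NeZero g := ⟨hg.ne'⟩
  let F : Site d × ℕ → κ × (Fin d → ZMod (2 * n + 1)) × ZMod g :=
    fun p => (f p, fun i => (p.1 i : ZMod (2 * n + 1)), (p.2 : ZMod g))
  obtain ⟨y, -, hy⟩ := Finset.exists_lt_card_fiber_of_mul_lt_card_of_maps_to (s := S)
    (t := Finset.univ) (f := F) (n := r) (fun _ _ => Finset.mem_univ _) (by simpa using h)
  refine ⟨y.1, _, Finset.filter_subset _ _, hy.le, fun p hp => ?_, fun p hp q hq hne => ?_⟩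
  · rw [← (Finset.mem_filter.1 hp).2]
  · have e : F p = F q := (Finset.mem_filter.1 hp).2.trans (Finset.mem_filter.1 hq).2.symm
    simp only [F, Prod.mk.injEq] at e
    obtain ⟨-, e1, e2⟩ := e
    by_cases h1 : p.1 = q.1
    · right
      have h2 : p.2 ≠ q.2 := fun h2 => hne (Prod.ext h1 h2)
      rw [ZMod.natCast_eq_natCast_iff] at e2
      rcases lt_or_gt_of_ne h2 with h3 | h3
      · have := Nat.le_of_dvd (by omega) ((Nat.modEq_iff_dvd' h3.le).1 e2)
        omega
      · have := Nat.le_of_dvd (by omega) ((Nat.modEq_iff_dvd' h3.le).1 e2.symm)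
        omega
    · left
      obtain ⟨i, hi⟩ := Function.ne_iff.1 h1
      have e3 := congrFun e1 i
      rw [ZMod.intCast_eq_intCast_iff_dvd_sub] at e3
      refine ⟨i, ?_⟩
      have := Int.le_of_dvd (abs_pos.2 (sub_ne_zero.2 hi.symm)) ((dvd_abs _ _).2 e3)
      rw [abs_sub_comm]
      exact_mod_cast this

theorem seed_union (lam : ℝ≥0) {M : ℕ} (hM : 0 < M) (n g r : ℕ) (S : Finset (Site d × ℕ))
    (v : Site d) (hr : r ≤ S.card) (hS : ∀ p ∈ S, ∀ q ∈ S, p ≠ q → Sep n g p q) :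
    (mu d lam M).real (⋃ p ∈ S, Seed M (p.1 + v) n g (p.2 * M : ℕ))ᶜ ≤
      (1 - seedP d lam n g) ^ r := by
  have mS : ∀ c s, MeasurableSet (Seed M (c : Site d) n g s) := fun c s =>
    (loc_Seed M c n g s).measurableSet (Own.finite (Finset.finite_toSet _) _ _)
  have h0 : 0 ≤ seedP d lam n g := by
    have : Real.exp (-lam) ≤ 1 := Real.exp_le_one_iff.2 (neg_nonpos.2 (by positivity))
    have : 0 ≤ 1 - Real.exp (-lam) := by linarith
    unfold seedP
    positivity
  have h1 : seedP d lam n g ≤ 1 := (real_Seed lam hM 0 n g 0).trans measureReal_le_one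
  rw [compl_iUnion₂]
  refine (measure_iInter_le_pow _ S _ _ (fun p _ => (loc_Seed M (p.1 + v) n g _).compl)
    (fun p _ => (mS _ _).compl) (fun p hp q hq hne => ?_) (fun p _ => ?_)).trans
    (pow_le_pow_of_le_one (by linarith) (by linarith) hr)
  · rw [Set.disjoint_left]
    rintro i ⟨a1, -, a2, a3⟩ ⟨b1, -, b2, b3⟩
    rcases hS p hp q hq hne with ⟨j, hj⟩ | h | h
    · have c1 := abs_le.1 (mem_cube.1 a1 j)
      have c2 := abs_le.1 (mem_cube.1 b1 j)
      simp only [Pi.add_apply] at c1 c2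
      have : |p.1 j - q.1 j| ≤ 2 * n := abs_le.2 ⟨by omega, by omega⟩
      omega
    · have := Nat.mul_le_mul_right M h
      rw [add_mul] at this
      omega
    · have := Nat.mul_le_mul_right M h
      rw [add_mul] at this
      omega
  · rw [probReal_compl_eq_one_sub (mS _ _)]
    linarith [real_Seed lam hM (p.1 + v) n g (p.2 * M : ℕ)]

/-- The signs of the coordinates. -/
def sgn (x : Site d) : Fin d → ℤˣ := fun i => if 0 ≤ x i then 1 else -1

theorem sgn_mul (x : Site d) (i : Fin d) : sgn x i * x i = |x i| := by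
  unfold sgn
  split_ifs with h
  · simp [abs_of_nonneg h]
  · simp [abs_of_neg (not_le.1 h)]

theorem real_le_of_freeze {Ω : Type*} [MeasurableSpace Ω] {μ : Measure Ω} [IsProbabilityMeasure μ]
    {H B : Set Ω} {c : ℝ} (hc : 0 ≤ c) (h : μ.real (H ∩ B) ≤ c * μ.real H) :
    μ.real B ≤ μ.real Hᶜ + c := by
  have h1 : μ.real B ≤ μ.real Hᶜ + μ.real (H ∩ B) :=
    runion fun ω hω => (em' (ω ∈ H)).imp id fun h => ⟨h, hω⟩
  have h2 : c * μ.real H ≤ c * 1 := mul_le_mul_of_nonneg_left measureReal_le_one hc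
  linarith

theorem pos_top (lam : ℝ≥0) {M L n g : ℕ} (hM : 0 < M) (hn : n ≤ L) (hg : 2 * n * d + 1 ≤ g)
    (r t N : ℕ) (hN : Fintype.card (Fin d → ℤˣ) * ((2 * n + 1) ^ d * g) * r ≤ N) :
    (mu d lam M).real (⋂ σ : Fin d → ℤˣ,
      (Ev n (bx d (L + 1 + 2 * n)) 0 0 (TopT L ((t + g) * M) 0 σ))ᶜ) ≤
      (mu d lam M).real {ω | (topS d M L n t ω).card ≤ N} + (1 - seedP d lam n g) ^ r := by
  classical
  have h1 : seedP d lam n g ≤ 1 := (real_Seed lam hM 0 n g 0).trans measureReal_le_one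
  have lH := (loc_topS d M L n t (·.card ≤ N)).compl
  have := real_le_of_freeze (pow_nonneg (sub_nonneg.2 h1) r)
    (freeze_le (nu lam M) lH (lH.measurableSet (own_bx_finite _ _ _ _))
      (B := ⋂ σ : Fin d → ℤˣ, (Ev n (bx d (L + 1 + 2 * n)) 0 0 (TopT L ((t + g) * M) 0 σ))ᶜ)
      (.iInter fun σ => (measurableSet_Ev _ _ _ _ _).compl) fun a ha => ?_)
  · rwa [compl_compl] at this
  simp only [mem_compl_iff, mem_ofPred_eq, not_le] at ha
  obtain ⟨σ, S, hS, hr, hσ, hsep⟩ := pigeon n g r (by omega)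
    ((topS d M L n t a).image fun x => (x, t)) (fun p => sgn p.1)
    (by rw [Finset.card_image_of_injective _ (fun x y h => (Prod.ext_iff.1 h).1)]; omega)
  refine ⟨⋃ p ∈ S, Seed M (p.1 + 0) n g (p.2 * M : ℕ), ?_, ?_,
    seed_union lam hM n g r S 0 hr hsep, fun ω e hω hB => ?_⟩
  · refine Loc.iUnion fun p => Loc.iUnion fun hp => (loc_Seed M _ n g _).mono ?_
    obtain ⟨x, -, rfl⟩ := Finset.mem_image.1 (hS hp)
    rintro i ⟨-, -, h2, -⟩ ⟨-, -, -, h3⟩
    simp only at h2
    omega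
  · exact Finset.measurableSet_biUnion _ fun p _ =>
      (loc_Seed M _ n g _).measurableSet (Own.finite (Finset.finite_toSet _) _ _)
  · simp only [mem_iUnion] at hω
    obtain ⟨p, hp, hω⟩ := hω
    obtain ⟨x, hx, rfl⟩ := Finset.mem_image.1 (hS hp)
    rw [← topS_congr e] at hx
    have hxL : x ∈ bx d L := (Finset.mem_filter.1 hx).1
    rw [mem_topS hn] at hx
    rw [add_zero] at hω
    have hsub : (cube x n : Set (Site d)) ⊆ bx d (L + 1 + 2 * n) :=
      Finset.coe_subset.2 (cube_subset hxL (by omega))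
    refine mem_iInter.1 hB σ ⟨(x, (t + g) * M), ⟨fun i => ?_, rfl⟩, ?_⟩
    · have := mem_cube.1 hxL i
      rw [← hσ _ hp]
      simp only [Pi.zero_apply, sub_zero] at this ⊢
      rw [sgn_mul]
      exact ⟨abs_nonneg _, this⟩
    · rw [add_mul]
      refine fill (h := M) (u := t * M) (NoRec_cut hsub ?_) (Arr_cut hsub ?_) hg
        (self_mem_cube x n) le_rfl (by omega)
        (reach_mono (cut_mono (bx_subset (by omega)) le_rfl) subset_rfl _ _ hx)
      · rw [zero_add]; exact hω.1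
      · rw [zero_add]; exact hω.2

theorem hit_face {L : ℕ} {x z : Site d} (hx : x ∉ bx d L) (hz : z ∈ bx d L) (ha : Adj z x) :
    ∃ i, |x i| = L + 1 ∧ ∀ j, j ≠ i → |x j| ≤ L := by
  rw [mem_cube] at hx hz
  push Not at hx
  obtain ⟨i, hi⟩ := hx
  simp only [Pi.zero_apply, sub_zero] at hi hz
  have h1 := abs_le.1 (ha.abs_le i)
  have h2 := abs_le.1 (hz i)
  have h3 : |x i| = L + 1 ∧ 1 ≤ |z i - x i| := by
    rcases abs_cases (x i) with h | h <;> rcases abs_cases (z i - x i) with h' | h' <;> omega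
  refine ⟨i, h3.1, fun j hj => ?_⟩
  have h4 := Finset.add_le_sum (f := fun i => |z i - x i|) (s := Finset.univ)
    (fun _ _ => abs_nonneg _) (Finset.mem_univ i) (Finset.mem_univ j) hj.symm
  rw [ha] at h4
  have h5 : z j = x j := by
    rcases abs_cases (z j - x j) with h' | h' <;> omega
  rw [← h5]; exact hz j

theorem pos_side (i₁ : Fin d) (lam : ℝ≥0) {M L n g : ℕ} (hM : 0 < M)
    (hg : 2 * n * d + 1 ≤ g) (r T N : ℕ)
    (hN : Fintype.card (Fin d × (Fin d → ℤˣ)) * ((2 * n + 1) ^ d * g) * r ≤ N) :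
    (mu d lam M).real (⋂ k : Fin d × (Fin d → ℤˣ),
      (Ev n (bx d (L + 1 + 2 * n)) 0 0 (SideT M L n g T 0 k.1 k.2))ᶜ) ≤
      (mu d lam M).real {ω | (hitS d M L n T ω).card ≤ N} + (1 - seedP d lam n g) ^ r := by
  classical
  have h1 : seedP d lam n g ≤ 1 := (real_Seed lam hM 0 n g 0).trans measureReal_le_one
  have lH := (loc_hitS d M L n T (·.card ≤ N)).compl
  have := real_le_of_freeze (pow_nonneg (sub_nonneg.2 h1) r)
    (freeze_le (nu lam M) lH (lH.measurableSet (own_bx_finite _ _ _ _))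
      (B := ⋂ k : Fin d × (Fin d → ℤˣ),
        (Ev n (bx d (L + 1 + 2 * n)) 0 0 (SideT M L n g T 0 k.1 k.2))ᶜ)
      (.iInter fun σ => (measurableSet_Ev _ _ _ _ _).compl) fun a ha => ?_)
  · rwa [compl_compl] at this
  simp only [mem_compl_iff, mem_ofPred_eq, not_le] at ha
  have hface : ∀ p ∈ hitS d M L n T a, ∃ i, |p.1 i| = L + 1 ∧ ∀ j, j ≠ i → |p.1 j| ≤ L := by
    intro p hp
    obtain ⟨-, h2, u, -, -, z, -, h3, h4, -⟩ := mem_hitS.1 hp
    exact hit_face h2 (cut_eq_true.1 h4).2 h3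
  have : Nonempty (Fin d) := ⟨i₁⟩
  choose! fc hfc1 hfc2 using hface
  obtain ⟨⟨i₀, σ⟩, S, hS, hr, hσ, hsep⟩ := pigeon n g r (by omega)
    (hitS d M L n T a) (fun p => (fc p, sgn p.1)) (by omega)
  let v : Site d := Pi.single i₀ (σ i₀ * n)
  have hσ2 : ∀ i, (σ i : ℤ) * σ i = 1 := fun i => Int.units_coe_mul_self _
  have hv0 : ∀ p ∈ S, σ i₀ * ((p.1 + v) i₀) = L + 1 + n := by
    intro p hp
    have e := hσ p hp
    simp only [Prod.mk.injEq] at e
    have e1 := hfc1 p (hS hp)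
    rw [e.1, ← sgn_mul, e.2] at e1
    simp only [v, Pi.add_apply, Pi.single_eq_same, mul_add, ← mul_assoc, hσ2, e1, one_mul]
  have hv1 : ∀ p ∈ S, ∀ i, i ≠ i₀ → σ i * ((p.1 + v) i) = |p.1 i| ∧ |p.1 i| ≤ L := by
    intro p hp i hi
    have e := hσ p hp
    simp only [Prod.mk.injEq] at e
    refine ⟨?_, hfc2 p (hS hp) i (by rwa [e.1])⟩
    simp only [v, Pi.add_apply, Pi.single_eq_of_ne hi, add_zero]
    rw [← e.2, sgn_mul]
  have habs : ∀ i (y : ℤ), |(σ i : ℤ) * y| = |y| := fun i y => by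
    rw [abs_mul]
    rcases Int.units_eq_one_or (σ i) with h | h <;> simp [h]
  refine ⟨⋃ p ∈ S, Seed M (p.1 + v) n g (p.2 * M : ℕ), ?_, ?_,
    seed_union lam hM n g r S v hr hsep, fun ω e hω hB => ?_⟩
  · refine Loc.iUnion fun p => Loc.iUnion fun hp => (loc_Seed M _ n g _).mono ?_
    rintro i ⟨h2, -⟩ ⟨h3, -⟩
    have c1 := mem_cube.1 h2 i₀
    have c2 := mem_cube.1 h3 i₀
    rw [← habs i₀, mul_sub, hv0 p hp] at c1
    rw [Pi.zero_apply, sub_zero, ← habs i₀] at c2
    have c1 := abs_le.1 c1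
    have c2 := abs_le.1 c2
    omega
  · exact Finset.measurableSet_biUnion _ fun p _ =>
      (loc_Seed M _ n g _).measurableSet (Own.finite (Finset.finite_toSet _) _ _)
  · simp only [mem_iUnion] at hω
    obtain ⟨p, hp, hω⟩ := hω
    have hp' := hS hp
    rw [← hitS_congr e] at hp'
    obtain ⟨hj, -, u, u1, u2, z, hz, hadj, z1, z2⟩ := mem_hitS.1 hp'
    have hc : p.1 + v ∈ bx d (L + 1 + n) := by
      rw [mem_cube]
      intro i
      rw [Pi.zero_apply, sub_zero, ← habs i]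
      by_cases hi : i = i₀
      · rw [hi, hv0 p hp, abs_of_nonneg (by positivity)]
        push_cast; rfl
      · rw [(hv1 p hp i hi).1, abs_abs]
        have := (hv1 p hp i hi).2
        push_cast; omega
    have hsub : (cube (p.1 + v) n : Set (Site d)) ⊆ bx d (L + 1 + 2 * n) :=
      Finset.coe_subset.2 (cube_subset hc (by omega))
    have hx : p.1 ∈ cube (p.1 + v) n := by
      rw [mem_cube]
      intro i
      by_cases hi : i = i₀
      · simp [v, hi, habs]
      · simp [v, Pi.single_eq_of_ne hi]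
    have hcut := cut_mono (bx_subset (d := d) (show L ≤ L + 1 + 2 * n by omega)) (le_refl ω)
    refine mem_iInter.1 hB (i₀, σ) ⟨(p.1 + v, (p.2 + g) * M), ⟨?_, fun i hi => ?_, p.2, hj, rfl⟩, ?_⟩
    · simpa using hv0 p hp
    · simp only [Pi.zero_apply, sub_zero]
      rw [(hv1 p hp i hi).1]
      exact ⟨abs_nonneg _, (hv1 p hp i hi).2⟩
    · have hN1 := NoRec_cut hsub hω.1
      rw [add_mul] at u2 ⊢
      refine fill (h := M) (u := u + 1) (x := p.1) (by rw [zero_add]; exact hN1)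
        (Arr_cut hsub (by rw [zero_add]; exact hω.2)) hg hx (by omega) (by omega) ?_
      refine ⟨z, reach_mono hcut subset_rfl _ _ hz, Or.inr hadj, ?_, ?_, ?_⟩
      · rw [zero_add]; exact Bool.le_iff_imp.1 (hcut _) z1
      · simp only [NoRec, mem_iInter] at hN1
        have : M ≤ g * M := Nat.le_mul_of_pos_left _ (by omega)
        exact hN1 _ hx _ (by omega) (by omega)
      · rw [zero_add]; exact Bool.le_iff_imp.1 (hcut _) z2

end Pool.Agent.MP_452076_pr

end

-- part MP_452076_pr.Crit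
section

/-!
Survival implies the finite-size criterion along an ultrafilter of discretisations.
-/

namespace Pool.Agent.MP_452076_pr

open MeasureTheory ProbabilityTheory Set Filter Topology
open scoped NNReal ENNReal

variable {d : ℕ}

theorem root_trick (lam : ℝ≥0) (M : ℕ) {κ : Type*} [Fintype κ] [Nonempty κ] (G : κ → Set (Cfg d))
    (hG : ∀ k, ∃ J : Set (Idx d), J.Finite ∧ Loc J (G k)) (hl : ∀ k, IsLowerSet (G k)) {b ε : ℝ}
    (hb : ∀ k, (mu d lam M).real (G k) = b) (h0 : 0 < ε) (h1 : ε ≤ 1) {D : ℕ}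
    (hD : Fintype.card κ ≤ D) (h : (mu d lam M).real (⋂ k, G k) ≤ ε ^ D) : b ≤ ε := by
  have hb0 : 0 ≤ b := (hb (Classical.arbitrary κ)) ▸ measureReal_nonneg
  have h2 := harris_pow (nu lam M) Finset.univ G (fun k _ => hG k) (Or.inr fun k _ => hl k) hb0
    fun k _ => (hb k).ge
  simp only [Finset.mem_univ, iInter_true, Finset.card_univ] at h2
  exact le_of_pow_le_pow_left₀ Fintype.card_ne_zero h0.le
    (h2.trans (h.trans (pow_le_pow_of_le_one h0.le h1 hD)))

theorem crit_fixed (i₁ : Fin d) (lam : ℝ≥0) {M L n g r N t₀ T₂ : ℕ} (hM : 0 < M) (hn : n ≤ L)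
    (hg : 2 * n * d + 1 ≤ g) {ε η : ℝ} (hε : 0 < ε) (hε1 : ε ≤ 1)
    (hη : η = ε ^ Fintype.card (Fin d × (Fin d → ℤˣ)))
    (hr : (1 - seedP d lam n g) ^ r ≤ η / 2)
    (hN : Fintype.card (Fin d × (Fin d → ℤˣ)) * ((2 * n + 1) ^ d * g) * r ≤ N)
    (h1 : (mu d lam M).real (Surv (bx d n) 0 ((T₂ + 1) * M))ᶜ ≤ η ^ 2 / 8)
    (h2 : (mu d lam M).real (Surv (bx d n) 0 (t₀ * M)) -
      (mu d lam M).real (Surv (bx d n) 0 ((T₂ + 1) * M)) ≤ dieP d lam ^ (3 * N) * η ^ 2 / 16)
    (h3 : (mu d lam M).real (Exit 0 L (bx d n) 0 (2 * t₀ * M)) ≤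
      dieP d lam ^ (3 * N) * η ^ 2 / 16)
    (h4 : (1 - dieP d lam ^ ((2 * L + 1) ^ d)) ^ T₂ < 1 - η / 2) (ht : t₀ ≤ T₂) :
    ∃ T ≤ T₂, 2 * t₀ + 1 ≤ T ∧ Crit d lam M n L g t₀ T ε := by
  classical
  have : Nonempty (Fin d) := ⟨i₁⟩
  have η0 : 0 < η := hη ▸ pow_pos hε _
  have η1 : η ≤ 1 := hη ▸ pow_le_one₀ hε.le hε1
  have c1 : dieP d lam ^ (3 * N) ≤ 1 := pow_le_one₀ (dieP_pos lam).le (dieP_le_one lam)
  have exm : ∀ t ≤ 2 * t₀, Exit 0 L (bx d n : Set (Site d)) 0 (t * M) ⊆
      Exit 0 L (bx d n) 0 (2 * t₀ * M) := fun t ht ω ⟨y, h5, h6⟩ =>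
    ⟨y, h5, reach_free_mono ω _ _ (Nat.mul_le_mul_right _ ht) h6⟩
  have hFew : ∀ t, t₀ ≤ t → t ≤ T₂ → (mu d lam M).real (Few d M L n t N) ≤ η ^ 2 / 4 :=
    fun t a b => neg lam hM hn a b (by linarith) (by linarith)
      (by have := rmono (μ := mu d lam M) (exm t₀ (by omega)); linarith)
  have hex : ∃ t, t₀ ≤ t ∧ η / 2 < (mu d lam M).real {ω | (topS d M L n t ω).card ≤ N} := by
    refine ⟨T₂, ht, ?_⟩
    have a1 := top_decay (d := d) lam hM hn T₂
    have a2 : (mu d lam M).real univ ≤ (mu d lam M).real {ω | (topS d M L n T₂ ω).Nonempty} +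
        (mu d lam M).real {ω | (topS d M L n T₂ ω).card ≤ N} := by
      refine runion fun ω _ => ?_
      rcases (topS d M L n T₂ ω).eq_empty_or_nonempty with h | h
      · right; simp [h]
      · exact Or.inl h
    rw [probReal_univ] at a2
    linarith
  have hT₂ : Nat.find hex ≤ T₂ := by
    refine Nat.find_min' hex ⟨ht, ?_⟩
    have a1 := top_decay (d := d) lam hM hn T₂
    have a2 : (mu d lam M).real univ ≤ (mu d lam M).real {ω | (topS d M L n T₂ ω).Nonempty} +
        (mu d lam M).real {ω | (topS d M L n T₂ ω).card ≤ N} := by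
      refine runion fun ω _ => ?_
      rcases (topS d M L n T₂ ω).eq_empty_or_nonempty with h | h
      · right; simp [h]
      · exact Or.inl h
    rw [probReal_univ] at a2
    linarith
  obtain ⟨hT0, hT1⟩ := Nat.find_spec hex
  have hmin : ∀ t, t₀ ≤ t → t < Nat.find hex →
      (mu d lam M).real {ω | (topS d M L n t ω).card ≤ N} ≤ η / 2 := fun t a b =>
    not_lt.1 fun h => Nat.find_min hex b ⟨a, h⟩
  set T := Nat.find hex
  have hF := hFew T hT0 hT₂
  refine ⟨T, hT₂, ?_, fun c s σ t a b => ?_, fun c s i₀ σ => ?_⟩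
  · by_contra hlt
    have a2 : (mu d lam M).real {ω | (topS d M L n T ω).card ≤ N} ≤
        (mu d lam M).real (Few d M L n T N) +
        (mu d lam M).real (Exit 0 L (bx d n) 0 (2 * t₀ * M)) := by
      refine runion fun ω hω => ?_
      rcases (hitS d M L n T ω).eq_empty_or_nonempty with h | ⟨p, hp⟩
      · exact Or.inl ⟨hω, by simp [h]⟩
      · exact Or.inr (exm T (by omega) ((mem_hitS.1 hp).2.exit' (mem_hitS.1 hp).1))
    nlinarith [mul_le_mul_of_nonneg_right c1 (sq_nonneg η)]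
  · rw [real_Top]
    refine root_trick lam M (fun σ : Fin d → ℤˣ =>
      (Ev n (bx d (L + 1 + 2 * n)) 0 0 (TopT L ((t + g) * M) 0 σ))ᶜ)
      (fun σ => ⟨_, own_bx_finite _ _ _ _,
        (loc_Ev _ _ _ _ (s' := ((t + g) * M : ℕ)) fun p hp => by rw [hp.2, zero_add]).compl⟩)
      (fun σ => (upper_Ev _ _ _ _ _).compl) (fun σ => real_Top _ _ _ _ _ _ _ _ _) hε hε1
      (D := Fintype.card (Fin d × (Fin d → ℤˣ))) ?_ ?_
    · rw [Fintype.card_prod]
      exact Nat.le_mul_of_pos_left _ Fintype.card_pos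
    · refine (pos_top lam hM hn hg r t N (le_trans ?_ hN)).trans ?_
      · rw [Fintype.card_prod]
        exact Nat.mul_le_mul_right _ (Nat.mul_le_mul_right _
          (Nat.le_mul_of_pos_left _ Fintype.card_pos))
      · linarith [hmin t a b]
  · rw [real_Side _ _ _ _ _ _ _ _ _ _ i₁]
    refine root_trick lam M (fun k : Fin d × (Fin d → ℤˣ) =>
      (Ev n (bx d (L + 1 + 2 * n)) 0 0 (SideT M L n g T 0 k.1 k.2))ᶜ)
      (fun k => ⟨_, own_bx_finite _ _ _ _,
        (loc_Ev _ _ _ _ (s' := ((T + g) * M : ℕ)) fun p hp => ?_).compl⟩)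
      (fun σ => (upper_Ev _ _ _ _ _).compl) (fun σ => real_Side _ _ _ _ _ _ _ _ _ _ _ _) hε hε1
      le_rfl ?_
    · obtain ⟨-, -, j, hj, e⟩ := hp
      rw [e, zero_add]
      exact_mod_cast Nat.mul_le_mul_right M (by omega)
    · refine (pos_side i₁ lam hM hg r T N hN).trans ?_
      have a1 := harris_lower (nu lam M) (own_bx_finite d L _ _) (loc_topS d M L n T (·.card ≤ N))
        (loc_hitS d M L n T (·.card ≤ N))
        (fun _ _ h hx => (Finset.card_le_card (topS_mono h)).trans hx)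
        (fun _ _ h hx => (Finset.card_le_card (hitS_mono h)).trans hx)
      have a2 : (mu d lam M).real {ω | (hitS d M L n T ω).card ≤ N} ≤ η / 2 := by
        by_contra hc
        have a3 := mul_lt_mul'' hT1 (not_le.1 hc) (by linarith) (by linarith)
        have a4 : (mu d lam M).real {ω | (topS d M L n T ω).card ≤ N} *
          (mu d lam M).real {ω | (hitS d M L n T ω).card ≤ N} ≤ η ^ 2 / 4 := a1.trans hF
        linarith
      linarith

theorem far (i₁ : Fin d) (lam : ℝ≥0) (M L r k₁ k : ℕ) (hk : k₁ ≤ k) {θ η : ℝ}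
    (h1 : θ ≤ (mu d lam M).real (Surv {0} 0 k₁))
    (h2 : ∀ x : Site d, (mu d lam M).real (Exit x L {x} 0 k₁) ≤ θ / 2)
    (h3 : (mu d lam M).real (Surv {0} 0 k₁) - (mu d lam M).real (Surv {0} 0 k) ≤ η) :
    (mu d lam M).real (Surv (bx d (r * (2 * L + 1))) 0 k)ᶜ ≤ (1 - θ / 2) ^ r + r * η := by
  classical
  let x : ℕ → Site d := fun j => Pi.single i₁ (j * (2 * L + 1))
  let G : ℕ → Set (Cfg d) := fun j => {ω | (reach (cut (cube (x j) L) ω) {x j} 0 k₁).Nonempty}
  have lG : ∀ j, Loc (Own (cube (x j) L : Set (Site d)) 0 k₁) (G j) := fun j ω ω' e h => by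
    simp only [G, mem_ofPred_eq] at h ⊢
    rwa [← reach_cut_congr _ (by rw [zero_add]) e]
  have mG : ∀ j, MeasurableSet (G j) := fun j =>
    (lG j).measurableSet (Own.finite (Finset.finite_toSet _) _ _)
  have a1 : (mu d lam M).real (⋂ j ∈ Finset.range r, (G j)ᶜ) ≤ (1 - θ / 2) ^ r := by
    have := measure_iInter_le_pow (nu lam M) (Finset.range r) _ _ (fun j _ => (lG j).compl)
      (fun j _ => (mG j).compl) (fun j _ j' _ hne => ?_) (c := 1 - θ / 2) (fun j _ => ?_)
    · rwa [Finset.card_range] at this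
    · rw [Set.disjoint_left]
      rintro i ⟨b1, -⟩ ⟨b2, -⟩
      have c1 := abs_le.1 (mem_cube.1 b1 i₁)
      have c2 := abs_le.1 (mem_cube.1 b2 i₁)
      simp only [x, Pi.single_eq_same] at c1 c2
      rcases lt_or_gt_of_ne hne with h | h
      · have : ((j : ℤ) + 1) * (2 * L + 1) ≤ j' * (2 * L + 1) :=
          mul_le_mul_of_nonneg_right (by omega) (by positivity)
        linarith [c1.1, c1.2, c2.1, c2.2]
      · have : ((j' : ℤ) + 1) * (2 * L + 1) ≤ j * (2 * L + 1) :=
          mul_le_mul_of_nonneg_right (by omega) (by positivity)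
        linarith [c1.1, c1.2, c2.1, c2.2]
    · rw [probReal_compl_eq_one_sub (mG j)]
      have b1 : (mu d lam M).real (Surv {x j} 0 k₁) ≤ (mu d lam M).real (G j) +
          (mu d lam M).real (Exit (x j) L {x j} 0 k₁) := by
        refine runion fun ω ⟨y, hy⟩ => ?_
        by_cases h : ω ∈ Exit (x j) L {x j} 0 k₁
        · exact Or.inr h
        · exact Or.inl ⟨y, reach_subset_cut h le_rfl hy⟩
      rw [real_Surv_single] at b1
      linarith [h2 (x j)]
  have a2 : (mu d lam M).real (⋃ j ∈ Finset.range r, Surv {x j} 0 k₁ \ Surv {x j} 0 k) ≤ r * η := by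
    have := rbiUnion (μ := mu d lam M) (S := Finset.range r)
      (G := fun j => Surv {x j} 0 k₁ \ Surv {x j} 0 k) subset_rfl (c := η) fun j _ => by
        rw [measureReal_sdiff (Surv.anti _ _ hk) (measurableSet_Surv _ _ _), real_Surv_single,
          real_Surv_single lam M (x j) k]
        exact h3
    rwa [Finset.card_range] at this
  refine le_trans (runion fun ω hω => ?_) (add_le_add a1 a2)
  by_cases h : ω ∈ ⋂ j ∈ Finset.range r, (G j)ᶜ
  · exact Or.inl h
  · right
    simp only [mem_iInter, not_forall, mem_compl_iff, not_not] at h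
    obtain ⟨j, hj, y, hy⟩ := h
    refine mem_biUnion hj ⟨⟨y, reach_mono (cut_le _ _) subset_rfl _ _ hy⟩, fun ⟨z, hz⟩ => ?_⟩
    refine hω ⟨z, reach_mono le_rfl (singleton_subset_iff.2 ?_) _ _ hz⟩
    rw [Finset.mem_coe, mem_cube]
    intro i
    by_cases hi : i = i₁
    · simp only [x, hi, Pi.single_eq_same, Pi.zero_apply, sub_zero]
      rw [abs_of_nonneg (by positivity)]
      have := Finset.mem_range.1 hj
      push_cast
      exact mul_le_mul_of_nonneg_right (by omega) (by positivity)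
    · simp only [x, Pi.single_eq_of_ne hi, Pi.zero_apply, sub_zero, abs_zero]
      positivity

theorem ulim (U : Ultrafilter ℕ) (f : ℕ → ℕ → ℝ) (h0 : ∀ M t, f M t ∈ Icc (0 : ℝ) 1) {η : ℝ}
    (hη : 0 < η) : ∃ t₁, ∀ t, ∀ᶠ M in U, f M t₁ - f M t ≤ η := by
  have : ∀ t, ∃ a ∈ Icc (0 : ℝ) 1, Tendsto (fun M => f M t) U (𝓝 a) := fun t =>
    isCompact_Icc.ultrafilter_le_nhds (U.map fun M => f M t)
      (le_principal_iff.2 (mem_map.2 (univ_mem' fun M => h0 M t)))
  choose a ha1 ha2 using this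
  have hb : BddBelow (range a) := ⟨0, by rintro _ ⟨t, rfl⟩; exact (ha1 t).1⟩
  obtain ⟨t₁, ht₁⟩ := exists_lt_of_ciInf_lt (f := a) (show ⨅ t, a t < (⨅ t, a t) + η by linarith)
  refine ⟨t₁, fun t => ((ha2 t₁).sub (ha2 t)).eventually (ge_mem_nhds ?_)⟩
  linarith [ciInf_le hb t]

theorem exists_cube (i₁ : Fin d) (lam : ℝ≥0) (U : Ultrafilter ℕ) (hU : ∀ᶠ M in U, 0 < M) {θ : ℝ}
    (hθ : 0 < θ) (h : ∀ t, ∀ᶠ M in U, θ ≤ (mu d lam M).real (Surv {0} 0 (t * M))) {γ : ℝ}
    (hγ : 0 < γ) :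
    ∃ n, ∀ t, ∀ᶠ M in U, (mu d lam M).real (Surv (bx d n) 0 (t * M))ᶜ ≤ γ := by
  obtain ⟨r, hr⟩ := exists_pow_lt_of_lt_one (half_pos hγ) (show 1 - θ / 2 < 1 by linarith)
  obtain ⟨t₁, ht₁⟩ := ulim U (fun M t => (mu d lam M).real (Surv {0} 0 (t * M)))
    (fun M t => ⟨measureReal_nonneg, measureReal_le_one⟩)
    (η := γ / 2 / (r + 1)) (by positivity)
  obtain ⟨L, -, hL⟩ := exists_Exit_le d lam 0 t₁ (half_pos hθ)
  refine ⟨r * (2 * L + 1), fun t => ?_⟩
  filter_upwards [hU, h t₁, ht₁ (max t t₁)] with M a1 a2 a3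
  have a4 := far i₁ lam M L r (t₁ * M) (max t t₁ * M) (Nat.mul_le_mul_right _ (le_max_right _ _))
    a2 (fun x => hL M a1 x {x} (singleton_subset_iff.2 (self_mem_cube x 0)) 0) a3
  have a5 : (r : ℝ) * (γ / 2 / (r + 1)) ≤ γ / 2 := by
    rw [← mul_div_assoc, div_le_iff₀ (by positivity)]
    nlinarith
  refine (rmono (compl_subset_compl.2 (Surv.anti _ _
    (Nat.mul_le_mul_right M (le_max_left t t₁))))).trans (by linarith)

theorem exists_crit (i₁ : Fin d) {lam : ℝ≥0} (hl : 0 < lam) (U : Ultrafilter ℕ)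
    (hU : ∀ᶠ M in U, 0 < M) {θ : ℝ}
    (hθ : 0 < θ) (h : ∀ t, ∀ᶠ M in U, θ ≤ (mu d lam M).real (Surv {0} 0 (t * M))) {ε : ℝ}
    (hε : 0 < ε) (hε1 : ε ≤ 1) :
    ∃ n L g t₀ T, n ≤ L ∧ 0 < g ∧ 2 * t₀ + 1 ≤ T ∧ ∀ᶠ M in U, Crit d lam M n L g t₀ T ε := by
  set η := ε ^ Fintype.card (Fin d × (Fin d → ℤˣ)) with hη
  have η0 : 0 < η := pow_pos hε _
  have η1 : η ≤ 1 := pow_le_one₀ hε.le hε1
  obtain ⟨n, hn⟩ := exists_cube i₁ lam U hU hθ h (γ := η ^ 2 / 8) (by positivity)
  set g := 2 * n * d + 1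
  obtain ⟨r, hr⟩ := exists_pow_lt_of_lt_one (half_pos η0)
    (show 1 - seedP d lam n g < 1 by linarith [seedP_pos (d := d) hl n g])
  set N := Fintype.card (Fin d × (Fin d → ℤˣ)) * ((2 * n + 1) ^ d * g) * r
  have hc : 0 < dieP d lam ^ (3 * N) * η ^ 2 / 16 := by
    have := dieP_pos (d := d) lam
    positivity
  obtain ⟨t₀, ht₀⟩ := ulim U (fun M t => (mu d lam M).real (Surv (bx d n) 0 (t * M)))
    (fun M t => ⟨measureReal_nonneg, measureReal_le_one⟩) hc
  obtain ⟨L, hnL, hL⟩ := exists_Exit_le d lam n (2 * t₀) hc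
  have hq : 0 < dieP d lam ^ ((2 * L + 1) ^ d) := pow_pos (dieP_pos lam) _
  have hq1 : dieP d lam ^ ((2 * L + 1) ^ d) ≤ 1 := pow_le_one₀ (dieP_pos lam).le (dieP_le_one lam)
  obtain ⟨T₁, hT₁⟩ := exists_pow_lt_of_lt_one (show 0 < 1 - η / 2 by linarith)
    (show 1 - dieP d lam ^ ((2 * L + 1) ^ d) < 1 by linarith)
  have key : ∀ᶠ M in U, ∃ T ∈ Iic (max T₁ t₀), 2 * t₀ + 1 ≤ T ∧ Crit d lam M n L g t₀ T ε := by
    filter_upwards [hU, hn (max T₁ t₀ + 1), ht₀ (max T₁ t₀ + 1)] with M a1 a2 a3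
    exact crit_fixed i₁ lam a1 hnL le_rfl hε hε1 hη hr.le le_rfl a2 a3
      (hL M a1 0 _ subset_rfl 0)
      ((pow_le_pow_of_le_one (by linarith) (by linarith) (le_max_left _ _)).trans_lt hT₁)
      (le_max_right _ _)
  obtain ⟨T, -, hT⟩ := (Ultrafilter.eventually_exists_mem_iff (finite_Iic _)).1 key
  exact ⟨n, L, g, t₀, T, hnL, Nat.succ_pos _, hT.exists.choose_spec.1, hT.mono fun M a => a.2⟩

end Pool.Agent.MP_452076_pr

end

-- part MP_452076_pr.Window
section

/-!
Arrows are ignored in short time windows; composition of steering steps.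
-/

namespace Pool.Agent.MP_452076_pr

open MeasureTheory ProbabilityTheory Set Filter Topology
open scoped NNReal ENNReal

variable {d : ℕ}

/-- Arrow variables in the first `m` slots of each layer. -/
def Wn (d M m : ℕ) : Set (Idx d) := {i | i.1.1 ≠ i.1.2 ∧ i.2 % M < m}

open Classical in
noncomputable def win (M m : ℕ) (ω : Cfg d) : Cfg d := fun i => ω i && decide (i ∉ Wn d M m)

theorem win_le (M m : ℕ) (ω : Cfg d) : win M m ω ≤ ω := fun i => by
  rw [Bool.le_iff_imp]
  simp only [win, Bool.and_eq_true]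
  exact fun h => h.1

theorem measurable_win (M m : ℕ) : Measurable (win (d := d) M m) := by
  classical
  refine measurable_pi_lambda _ fun i => ?_
  exact (measurable_of_countable fun b : Bool => b && decide (i ∉ Wn d M m)).comp
    (measurable_pi_apply i)

theorem win_congr {M m : ℕ} {J : Set (Idx d)} {ω ω' : Cfg d}
    (e : ∀ i ∈ J \ Wn d M m, ω i = ω' i) : ∀ i ∈ J, win M m ω i = win M m ω' i := by
  intro i hi
  by_cases h : i ∈ Wn d M m
  · simp [win, h]
  · simp only [win, e i ⟨hi, h⟩]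

theorem Loc.win {J : Set (Idx d)} {A : Set (Cfg d)} (h : Loc J A) (M m : ℕ) :
    Loc (J \ Wn d M m) {ω | win M m ω ∈ A} := fun _ _ e => h _ _ (win_congr e)

/-- The target event in the windowed model. -/
def WEv (M m n : ℕ) (Λ : Set (Site d)) (c : Site d) (s : ℤ) (𝒯 : Set (Site d × ℕ)) :
    Set (Cfg d) := {ω | win M m ω ∈ Ev n Λ c s 𝒯}

theorem measurableSet_WEv (M m n : ℕ) (Λ : Set (Site d)) (c : Site d) (s : ℤ)
    (𝒯 : Set (Site d × ℕ)) : MeasurableSet (WEv M m n Λ c s 𝒯) :=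
  measurableSet_Ev' (measurable_win M m) n Λ c s 𝒯

theorem real_WEv (lam : ℝ≥0) {M : ℕ} (hM : 0 < M) (m n ρ K : ℕ) (c : Site d) (j : ℤ)
    {𝒯 : Set (Site d × ℕ)} (h : ∀ p ∈ 𝒯, p.2 ≤ K * M) :
    (mu d lam M).real (WEv M m n (cube c ρ) c (j * M) 𝒯)ᶜ ≤
      (mu d lam M).real (Ev n (cube c ρ) c (j * M) 𝒯)ᶜ +
        ((2 * ρ + 1) ^ d * (2 * (ρ + 1) + 1) ^ d * (K * m) : ℕ) * (lam / M) := by
  have a1 := rbiUnion (μ := mu d lam M)
    (S := (cube c ρ ×ˢ cube c (ρ + 1)) ×ˢ (Finset.range K ×ˢ Finset.range m))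
    (G := fun q => {ω | Adj q.1.1 q.1.2 ∧ ω (q.1, j * M + q.2.1 * M + q.2.2) = true})
    subset_rfl (c := lam / M) (by
      rintro ⟨⟨x, y⟩, l, r⟩ -
      by_cases ha : Adj x y
      · simp only [ha, true_and]
        rw [real_coord, nu_true]
        exact pr_adj_le lam M ha _
      · simp only [ha, false_and, ofPred_false, measureReal_empty]
        positivity)
  simp only [Finset.card_product, card_cube, Finset.card_range] at a1
  refine le_trans (runion fun ω hω => ?_) (add_le_add le_rfl a1)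
  by_contra hc
  simp only [mem_union, not_or, mem_compl_iff, not_not] at hc
  refine hω (loc_Ev n (cube c ρ) c (j * M) (s' := j * M + (K * M : ℕ))
    (fun p hp => by have := h p hp; omega) ω _ (fun i hi => ?_) hc.1)
  obtain ⟨⟨x, y⟩, t⟩ := i
  obtain ⟨h1, h2, h3, h4⟩ := hi
  by_cases hw : ((x, y), t) ∈ Wn d M m
  · simp only [win, hw, not_true_eq_false, decide_false, Bool.and_false]
    by_contra hf
    have ha : Adj x y := h2.resolve_left hw.1
    have hM' : (0 : ℤ) < M := by omega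
    have b1 := Int.emod_nonneg t hM'.ne'
    have b2 : t % M < m := hw.2
    have b3 := Int.ediv_mul_add_emod t M
    have b4 := Int.emod_lt_of_pos t hM'
    simp only at h3 h4
    push_cast at h4
    have b5 : j ≤ t / M := by
      by_contra hlt
      have : (t / M + 1) * M ≤ j * M := mul_le_mul_of_nonneg_right (by omega) hM'.le
      linarith
    have b6 : t / M < j + K := by
      by_contra hlt
      have : (j + K) * M ≤ t / M * M := mul_le_mul_of_nonneg_right (by omega) hM'.le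
      linarith
    refine hc.2 (mem_biUnion (x := ((x, y), ((t / M - j).toNat, (t % M).toNat))) ?_ ⟨ha, ?_⟩)
    · simp only [Finset.mem_coe, Finset.mem_product, Finset.mem_range]
      exact ⟨⟨h1, cube_subset h1 (by omega) ha.mem_cube⟩, by omega, by omega⟩
    · have e1 : ((t / M - j).toNat : ℤ) = t / M - j := by omega
      have e2 : ((t % M).toNat : ℤ) = t % M := by omega
      simp only [e1, e2]
      have : j * M + (t / M - j) * M + t % M = t := by linarith
      rw [this]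
      simpa using hf
  · simp [win, hw]

/-- The finite-size criterion for the windowed model. -/
def WCrit (d : ℕ) (lam : ℝ≥0) (M m n L g t₀ T : ℕ) (ε : ℝ) : Prop :=
  (∀ (c : Site d) (j : ℤ) (σ : Fin d → ℤˣ) (t : ℕ), t₀ ≤ t → t < T →
    (mu d lam M).real
      (WEv M m n (cube c (L + 1 + 2 * n)) c (j * M) (TopT L ((t + g) * M) c σ))ᶜ ≤ ε) ∧
  ∀ (c : Site d) (j : ℤ) (i₀ : Fin d) (σ : Fin d → ℤˣ),
    (mu d lam M).real
      (WEv M m n (cube c (L + 1 + 2 * n)) c (j * M) (SideT M L n g T c i₀ σ))ᶜ ≤ ε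

theorem Crit.wcrit {lam : ℝ≥0} {M n L g t₀ T : ℕ} {ε : ℝ} (h : Crit d lam M n L g t₀ T ε)
    (hM : 0 < M) (m : ℕ)
    (hm : ((2 * (L + 1 + 2 * n) + 1) ^ d * (2 * (L + 1 + 2 * n + 1) + 1) ^ d *
      ((T + g) * m) : ℕ) * (lam / M : ℝ) ≤ ε) : WCrit d lam M m n L g t₀ T (2 * ε) := by
  refine ⟨fun c j σ t h1 h2 => ?_, fun c j i₀ σ => ?_⟩
  · refine (real_WEv lam hM m n _ (T + g) c j fun p hp => ?_).trans ?_
    · rw [hp.2]; exact Nat.mul_le_mul_right _ (by omega)
    · linarith [h.1 c (j * M) σ t h1 h2]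
  · refine (real_WEv lam hM m n _ (T + g) c j fun p hp => ?_).trans ?_
    · obtain ⟨-, -, l, hl, e⟩ := hp
      rw [e]; exact Nat.mul_le_mul_right _ (by omega)
    · linarith [h.2 c (j * M) i₀ σ]

theorem loc_Ev_ge (n : ℕ) (Λ : Set (Site d)) (c : Site d) (s : ℤ) (𝒯 : Set (Site d × ℕ)) :
    Loc {i | s ≤ i.2} (Ev n Λ c s 𝒯) := fun _ _ e ⟨p, hp, h1⟩ =>
  ⟨p, hp, by rwa [← reach_cut_congr (s' := s + p.2) _ le_rfl fun i hi => e i hi.2.2.1]⟩

theorem comp (lam : ℝ≥0) (M m n : ℕ) (Λ : Set (Site d)) (c : Site d) (s : ℤ)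
    {𝒯₁ 𝒯₃ : Set (Site d × ℕ)} {K : ℕ} (hK : ∀ p ∈ 𝒯₁, p.2 < K) {ε : ℝ} (hε : 0 ≤ ε)
    (h : ∀ p ∈ 𝒯₁, ∃ 𝒯₂ : Set (Site d × ℕ), (∀ q ∈ 𝒯₂, (q.1, p.2 + q.2) ∈ 𝒯₃) ∧
      (mu d lam M).real (WEv M m n Λ p.1 (s + p.2) 𝒯₂)ᶜ ≤ ε) :
    (mu d lam M).real (WEv M m n Λ c s 𝒯₃)ᶜ ≤ (mu d lam M).real (WEv M m n Λ c s 𝒯₁)ᶜ + ε := by
  let A : ℕ → Set (Cfg d) := fun k => WEv M m n Λ c s (𝒯₁ ∩ {p | p.2 < k})
  have mA : ∀ k, MeasurableSet (A k) := fun k => measurableSet_WEv _ _ _ _ _ _ _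
  have m3 := measurableSet_WEv M m n Λ c s 𝒯₃
  have key : ∀ k, (mu d lam M).real (A k ∩ (WEv M m n Λ c s 𝒯₃)ᶜ) ≤
      ε * (mu d lam M).real (A k) := by
    intro k
    induction k with
    | zero =>
      have : A 0 = ∅ := by
        ext ω; simp [A, WEv, Ev]
      simp [this]
    | succ k ih =>
      have hsub : A k ⊆ A (k + 1) := fun ω hω =>
        Ev.mono subset_rfl (inter_subset_inter_right _ fun p hp => Nat.lt_succ_of_lt hp) hω
      have lA : ∀ l, l ≤ k + 1 → Loc {i | i.2 < s + k} (A l) := fun l hl =>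
        ((loc_Ev n Λ c s (s' := s + k) fun p hp => by
          have : p.2 < l := hp.2
          omega).win M m).mono fun i hi => hi.1.2.2.2
      have a1 := freeze_le (nu lam M) ((lA _ le_rfl).diff (lA k (by omega)))
        ((mA _).diff (mA _)) m3.compl (c := ε) fun a ha => by
          obtain ⟨⟨p, ⟨hp1, hp2⟩, hp3⟩, ha2⟩ := ha
          have hpk : p.2 = k := by
            by_contra hne
            have hp2' : p.2 < k + 1 := hp2
            exact ha2 ⟨p, ⟨hp1, show p.2 < k by omega⟩, hp3⟩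
          obtain ⟨𝒯₂, b1, b2⟩ := h p hp1
          refine ⟨_, ?_, measurableSet_WEv _ _ _ _ _ _ _, b2, fun ω e ⟨q, hq1, hq2⟩ hn => ?_⟩
          · refine ((loc_Ev_ge n Λ p.1 (s + p.2) 𝒯₂).win M m).mono fun i hi => ?_
            have := hi.1
            simp only [mem_ofPred_eq, mem_compl_iff, not_lt] at this ⊢
            omega
          · refine hn ⟨_, b1 q hq1, hq2.trans ?_⟩
            rw [reach_add]
            refine reach_mono le_rfl ?_ _ _
            rwa [reach_cut_congr (s' := s + k) (ω' := win M m a) _ (by omega)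
              (win_congr fun i hi => e i hi.1.2.2.2)]
      have a2 : (mu d lam M).real (A (k + 1) ∩ (WEv M m n Λ c s 𝒯₃)ᶜ) ≤
          (mu d lam M).real (A k ∩ (WEv M m n Λ c s 𝒯₃)ᶜ) +
          (mu d lam M).real ((A (k + 1) \ A k) ∩ (WEv M m n Λ c s 𝒯₃)ᶜ) :=
        runion fun ω hω => (em (ω ∈ A k)).imp (fun h => ⟨h, hω.2⟩) fun h => ⟨⟨hω.1, h⟩, hω.2⟩
      rw [measureReal_sdiff hsub (mA k)] at a1
      linarith
  have e : A K = WEv M m n Λ c s 𝒯₁ := by
    simp only [A]
    rw [inter_eq_left.2 (show 𝒯₁ ⊆ {p | p.2 < K} from hK)]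
  have a3 := key K
  rw [e] at a3
  have h1 : (mu d lam M).real (WEv M m n Λ c s 𝒯₃)ᶜ ≤ (mu d lam M).real (WEv M m n Λ c s 𝒯₁)ᶜ +
      (mu d lam M).real (WEv M m n Λ c s 𝒯₁ ∩ (WEv M m n Λ c s 𝒯₃)ᶜ) :=
    runion fun ω hω => (em' (ω ∈ WEv M m n Λ c s 𝒯₁)).imp id fun h => ⟨h, hω⟩
  have h2 : ε * (mu d lam M).real (WEv M m n Λ c s 𝒯₁) ≤ ε * 1 :=
    mul_le_mul_of_nonneg_left measureReal_le_one hε
  linarith

/-- The signs of the coordinates. -/
def sg (x : Site d) : Fin d → ℤˣ := fun i => if 0 ≤ x i then 1 else -1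

theorem steer {L : ℕ} {a b v : ℤ} (h : |a - b| ≤ L) {σ : ℤˣ} (hσ : σ = if 0 ≤ b - a then 1 else -1)
    (h1 : 0 ≤ σ * (v - a)) (h2 : σ * (v - a) ≤ L) : |v - b| ≤ L := by
  have := abs_le.1 h
  rw [abs_le]
  split_ifs at hσ with h3 <;> subst hσ <;> simp at h1 h2 <;> constructor <;> omega

/-- Targets near `z` at a given time. -/
def Near (L : ℕ) (z : Site d) (k : ℕ) : Set (Site d × ℕ) := {p | p.1 ∈ cube z L ∧ p.2 = k}

theorem WEv.mono {M m n : ℕ} {Λ Λ' : Set (Site d)} (h : Λ ⊆ Λ') {c : Site d} {s : ℤ}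
    {𝒯 𝒯' : Set (Site d × ℕ)} (h' : 𝒯 ⊆ 𝒯') : WEv M m n Λ c s 𝒯 ⊆ WEv M m n Λ' c s 𝒯' :=
  fun _ hω => Ev.mono h h' hω

theorem WCrit.top {lam : ℝ≥0} {M m n L g t₀ T : ℕ} {ε : ℝ} (h : WCrit d lam M m n L g t₀ T ε)
    {Λ : Set (Site d)} {c z : Site d} (hc : c ∈ cube z L)
    (hΛ : (cube z (L + 1 + 2 * n + L) : Set (Site d)) ⊆ Λ) (j : ℤ) {t : ℕ} (h1 : t₀ ≤ t)
    (h2 : t < T) : (mu d lam M).real (WEv M m n Λ c (j * M) (Near L z ((t + g) * M)))ᶜ ≤ ε := by
  refine (rmono (compl_subset_compl.2 (WEv.mono ?_ ?_))).trans (h.1 c j (sg (z - c)) t h1 h2)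
  · exact (Finset.coe_subset.2 (cube_subset hc le_rfl)).trans hΛ
  · rintro p ⟨h3, h4⟩
    exact ⟨mem_cube.2 fun i => steer (mem_cube.1 hc i) rfl (h3 i).1 (h3 i).2, h4⟩

theorem WCrit.block {lam : ℝ≥0} {M m n L g t₀ T : ℕ} {ε : ℝ} (h : WCrit d lam M m n L g t₀ T ε)
    (hT : 2 * t₀ + 1 ≤ T) (i₁ : Fin d) (τ : ℤˣ) {c z₀ : Site d} (hc : c ∈ cube z₀ L) (j : ℤ) :
    (mu d lam M).real (WEv M m n (cube z₀ (3 * L + 2 + 3 * n)) c (j * M)
      (Near L (z₀ + Pi.single i₁ ((τ : ℤ) * (L + 1 + n))) ((3 * g + 2 * (T - 1)) * M)))ᶜ ≤ 3 * ε := by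
  classical
  have hε : 0 ≤ ε := measureReal_nonneg.trans (h.2 c j i₁ 1)
  set z := z₀ + Pi.single i₁ ((τ : ℤ) * (L + 1 + n)) with hz
  have hzz : z ∈ cube z₀ (L + 1 + n) := by
    rw [mem_cube]
    intro i
    by_cases hi : i = i₁
    · simp only [hz, hi, Pi.add_apply, Pi.single_eq_same, add_sub_cancel_left, abs_mul]
      rw [abs_of_nonneg (show (0 : ℤ) ≤ L + 1 + n by positivity)]
      rcases Int.units_eq_one_or τ with h | h <;> simp [h]
    · simp only [hz, Pi.add_apply, Pi.single_eq_of_ne hi, add_zero, sub_self, abs_zero]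
      positivity
  have hΛ : (cube z (L + 1 + 2 * n + L) : Set (Site d)) ⊆ cube z₀ (3 * L + 2 + 3 * n) :=
    Finset.coe_subset.2 (cube_subset hzz (by omega))
  have s1 : (mu d lam M).real (WEv M m n (cube z₀ (3 * L + 2 + 3 * n)) c (j * M)
      {p | p.1 ∈ cube z L ∧ ∃ l < T, p.2 = (l + g) * M})ᶜ ≤ ε := by
    refine (rmono (compl_subset_compl.2 (WEv.mono ?_ ?_))).trans
      (h.2 c j i₁ (Function.update (sg (z₀ - c)) i₁ τ))
    · exact Finset.coe_subset.2 (cube_subset hc (by omega))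
    · rintro p ⟨h3, h4, h5⟩
      refine ⟨mem_cube.2 fun i => ?_, h5⟩
      by_cases hi : i = i₁
      · subst hi
        simp only [Function.update_self] at h3
        have := mem_cube.1 hc i
        have e : p.1 i - z i = c i - z₀ i := by
          simp only [hz, Pi.add_apply, Pi.single_eq_same]
          rw [← h3, ← mul_assoc, Int.units_coe_mul_self]
          ring
        rwa [e]
      · have := h4 i hi
        simp only [Function.update_of_ne hi] at this
        simp only [hz, Pi.add_apply, Pi.single_eq_of_ne hi, add_zero]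
        exact steer (mem_cube.1 hc i) rfl this.1 this.2
  refine (comp lam M m n _ c (j * M) (𝒯₁ := {p | p.1 ∈ cube z L ∧ ∃ l < T, p.2 = (l + g) * M})
    (K := (T + g) * M + 1) (ε := 2 * ε) ?_ (by linarith) ?_).trans (by linarith)
  · rintro p ⟨-, l, hl, e⟩
    rw [e]
    exact Nat.lt_succ_of_le (Nat.mul_le_mul_right _ (by omega))
  · rintro ⟨c₁, k⟩ ⟨hc₁, l, hl, e⟩
    simp only at hc₁ e
    subst e
    obtain ⟨t₁, t₂, a1, a2, a3, a4, a5⟩ : ∃ t₁ t₂, t₀ ≤ t₁ ∧ t₁ < T ∧ t₀ ≤ t₂ ∧ t₂ < T ∧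
        l + g + (t₁ + g + (t₂ + g)) = 3 * g + 2 * (T - 1) :=
      ⟨T - 1 - l / 2, T - 1 - (l + 1) / 2, by omega, by omega, by omega, by omega, by omega⟩
    refine ⟨Near L z ((t₁ + g + (t₂ + g)) * M), fun q hq => ⟨hq.1, ?_⟩, ?_⟩
    · simp only
      rw [hq.2, ← add_mul, a5]
    · have e1 : j * M + (((l + g) * M : ℕ) : ℤ) = (j + l + g) * M := by push_cast; ring
      simp only
      rw [e1]
      refine (comp lam M m n _ c₁ _ (𝒯₁ := Near L z ((t₁ + g) * M)) (K := (t₁ + g) * M + 1)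
        (ε := ε) (fun p hp => by rw [hp.2]; omega) hε ?_).trans ?_
      · rintro ⟨c₂, k⟩ ⟨hc₂, e⟩
        simp only at hc₂ e
        subst e
        refine ⟨Near L z ((t₂ + g) * M), fun q hq => ⟨hq.1, ?_⟩, ?_⟩
        · simp only
          rw [hq.2, ← add_mul]
        · have e2 : (j + l + g) * M + (((t₁ + g) * M : ℕ) : ℤ) = (j + l + g + t₁ + g) * M := by
            push_cast; ring
          simp only
          rw [e2]
          exact h.top hc₂ hΛ _ a3 a4
      · linarith [h.top hc₁ hΛ (j + l + g) a1 a2]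

end Pool.Agent.MP_452076_pr

end

-- part MP_452076_pr.Peierls
section

/-!
A contour argument for oriented site percolation in the plane.
-/

namespace Pool.Agent.MP_452076_pr

open MeasureTheory Set
open scoped NNReal ENNReal

def stp : Fin 3 → ℤ × ℤ := ![(1, 0), (0, 1), (-1, -1)]

def endp : ℤ × ℤ → List (Fin 3) → ℤ × ℤ
  | p, [] => p
  | p, a :: l => endp (p + stp a) l

def marks : ℤ × ℤ → List (Fin 3) → Finset (ℤ × ℤ)
  | _, [] => ∅
  | p, a :: l => if a = 0 then insert p (marks (p + stp a) l) else marks (p + stp a) l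

theorem endp_append (p : ℤ × ℤ) (l l' : List (Fin 3)) :
    endp p (l ++ l') = endp (endp p l) l' := by
  induction l generalizing p with
  | nil => rfl
  | cons a l ih => exact ih _

theorem marks_append (p : ℤ × ℤ) (l l' : List (Fin 3)) :
    marks p (l ++ l') = marks p l ∪ marks (endp p l) l' := by
  induction l generalizing p with
  | nil => simp [marks, endp]
  | cons a l ih =>
    simp only [List.cons_append, marks, endp, ih]
    split_ifs
    · rw [Finset.insert_union]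
    · rfl

theorem endp_eq (p : ℤ × ℤ) (l : List (Fin 3)) :
    (endp p l).1 = p.1 + l.count 0 - l.count 2 ∧ (endp p l).2 = p.2 + l.count 1 - l.count 2 ∧
      l.length = l.count 0 + l.count 1 + l.count 2 := by
  induction l generalizing p with
  | nil => simp [endp]
  | cons a l ih =>
    obtain ⟨h1, h2, h3⟩ := ih (p + stp a)
    simp only [endp, h1, h2, h3, List.length_cons, List.count_cons]
    fin_cases a <;> simp [stp] <;> omega

theorem card_marks_le (p : ℤ × ℤ) (l : List (Fin 3)) : (marks p l).card ≤ l.count 0 := by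
  induction l generalizing p with
  | nil => simp [marks]
  | cons a l ih =>
    have := ih (p + stp a)
    simp only [marks, List.count_cons]
    by_cases h : a = 0
    · have h2 := Finset.card_insert_le p (marks (p + stp a) l)
      simp only [h, if_true, beq_self_eq_true] at h2 this ⊢
      omega
    · simp only [h, if_false]
      omega

theorem exists_suffix {p q : ℤ × ℤ} {l : List (Fin 3)} (h : (marks q l).card = l.count 0)
    (hp : p ∈ marks q l) : ∃ l', endp p l' = endp q l ∧ marks p l' ⊆ marks q l ∧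
      (marks p l').card = l'.count 0 := by
  induction l generalizing q with
  | nil => simp [marks] at hp
  | cons a l ih =>
    by_cases hpq : p = q
    · subst hpq
      exact ⟨a :: l, rfl, subset_rfl, h⟩
    · have h1 := card_marks_le (q + stp a) l
      by_cases ha : a = 0
      · subst ha
        simp only [marks, if_true, List.count_cons, beq_self_eq_true] at h hp ⊢
        have h2 := Finset.card_insert_le q (marks (q + stp 0) l)
        obtain ⟨l', e1, e2, e3⟩ := ih (q := q + stp 0) (by omega)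
          ((Finset.mem_insert.1 hp).resolve_left hpq)
        exact ⟨l', e1, e2.trans (Finset.subset_insert _ _), e3⟩
      · simp only [marks, ha, if_false, List.count_cons, beq_iff_eq, add_zero] at h hp ⊢
        exact ih h hp

theorem exists_erase (p : ℤ × ℤ) (l : List (Fin 3)) : ∃ l', endp p l' = endp p l ∧
    marks p l' ⊆ marks p l ∧ (marks p l').card = l'.count 0 := by
  induction l generalizing p with
  | nil => exact ⟨[], rfl, subset_rfl, rfl⟩
  | cons a l ih =>
    obtain ⟨l', e1, e2, e3⟩ := ih (p + stp a)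
    by_cases ha : a = 0
    · subst ha
      by_cases hp : p ∈ marks (p + stp 0) l'
      · obtain ⟨l'', f1, f2, f3⟩ := exists_suffix e3 hp
        refine ⟨l'', f1.trans e1, f2.trans (e2.trans ?_), f3⟩
        simp only [marks, if_true]
        exact Finset.subset_insert _ _
      · refine ⟨0 :: l', e1, ?_, ?_⟩
        · simp only [marks, if_true]
          exact Finset.insert_subset_insert _ e2
        · simp only [marks, if_true, List.count_cons, beq_self_eq_true]
          rw [Finset.card_insert_of_notMem hp, e3]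
    · refine ⟨a :: l', e1, ?_, ?_⟩
      · simpa only [marks, ha, if_false] using e2
      · simpa only [marks, ha, if_false, List.count_cons, beq_iff_eq, add_zero] using e3

def Walk (B : ℤ × ℤ → Prop) (p q : ℤ × ℤ) : Prop := ∃ l, endp p l = q ∧ ∀ m ∈ marks p l, B m

theorem Walk.refl (B : ℤ × ℤ → Prop) (p : ℤ × ℤ) : Walk B p p := ⟨[], rfl, by simp [marks]⟩

theorem Walk.trans {B : ℤ × ℤ → Prop} {p q r : ℤ × ℤ} (h : Walk B p q) (h' : Walk B q r) :
    Walk B p r := by
  obtain ⟨l, rfl, h1⟩ := h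
  obtain ⟨l', rfl, h2⟩ := h'
  refine ⟨l ++ l', endp_append _ _ _, fun m hm => ?_⟩
  rw [marks_append, Finset.mem_union] at hm
  exact hm.elim (h1 m) (h2 m)

theorem Walk.bad {B : ℤ × ℤ → Prop} {u i : ℤ} (h : B (u, i)) : Walk B (u, i) (u + 1, i) :=
  ⟨[0], by simp [endp, stp], by simpa [marks] using h⟩

theorem Walk.up (B : ℤ × ℤ → Prop) (u i : ℤ) : Walk B (u, i) (u, i + 1) :=
  ⟨[1], by simp [endp, stp], by simp [marks]⟩

theorem Walk.down (B : ℤ × ℤ → Prop) (u i : ℤ) : Walk B (u + 1, i + 1) (u, i) :=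
  ⟨[2], by simp [endp, stp], by simp [marks]⟩

/-- There is an oriented path of `k` good sites from `(u, i)`. -/
def Alive (B : ℤ × ℤ → Prop) : ℕ → ℤ → ℤ → Prop
  | 0, _, _ => True
  | k + 1, u, i => ¬ B (u, i) ∧ (Alive B k u (i + 1) ∨ Alive B k (u + 1) (i + 1))

theorem walk_of_dead {B : ℤ × ℤ → Prop} {h : ℕ} {u i : ℤ} (hd : ¬ Alive B h u i) :
    Walk B (u, i) (u + 1, i) := by
  induction h generalizing u i with
  | zero => exact absurd trivial hd
  | succ h ih =>
    by_cases hb : B (u, i)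
    · exact Walk.bad hb
    · simp only [Alive, hb, not_false_eq_true, true_and, not_or] at hd
      exact (Walk.up B u i).trans ((ih hd.1).trans ((ih hd.2).trans (Walk.down B (u + 1) i)))

theorem walk_of_alive {B : ℤ × ℤ → Prop} {h k : ℕ} {u i : ℤ} (hd : ¬ Alive B h u i)
    (ha : Alive B k u i) : ∃ v, Walk B (u, i) (v, i + k) ∧ Walk B (v, i + k) (u + 1, i) := by
  induction k generalizing h u i with
  | zero => exact ⟨u, by simpa using Walk.refl B _, by simpa using walk_of_dead hd⟩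
  | succ k ih =>
    cases h with
    | zero => exact absurd trivial hd
    | succ h =>
      obtain ⟨hb, ha⟩ := ha
      simp only [Alive, hb, not_false_eq_true, true_and, not_or] at hd
      have e : i + ((k + 1 : ℕ) : ℤ) = i + 1 + k := by push_cast; ring
      rw [e]
      rcases ha with ha | ha
      · obtain ⟨v, w1, w2⟩ := ih hd.1 ha
        exact ⟨v, (Walk.up B u i).trans w1,
          w2.trans ((walk_of_dead hd.2).trans (Walk.down B (u + 1) i))⟩
      · obtain ⟨v, w1, w2⟩ := ih hd.2 ha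
        exact ⟨v, (Walk.up B u i).trans ((walk_of_dead hd.1).trans w1),
          w2.trans (Walk.down B (u + 1) i)⟩

/-- The percolation process started from `N` adjacent sites reaches level `k`. -/
def AliveN (B : ℤ × ℤ → Prop) (N k : ℕ) : Prop := ∃ u : ℕ, u < N ∧ Alive B k u 0

theorem Alive.anti {B : ℤ × ℤ → Prop} {k : ℕ} {u i : ℤ} (h : Alive B (k + 1) u i) :
    Alive B k u i := by
  induction k generalizing u i with
  | zero => trivial
  | succ k ih => exact ⟨h.1, h.2.imp ih ih⟩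

theorem AliveN.anti {B : ℤ × ℤ → Prop} {N k l : ℕ} (hkl : k ≤ l) (h : AliveN B N l) :
    AliveN B N k := by
  induction l, hkl using Nat.le_induction with
  | base => exact h
  | succ l _ ih =>
    obtain ⟨u, h1, h2⟩ := h
    exact ih ⟨u, h1, h2.anti⟩

theorem contour {B : ℤ × ℤ → Prop} {N h k : ℕ} (ha : AliveN B N k) (hd : ¬ AliveN B N h) :
    ∃ l : List (Fin 3), N + k ≤ l.length ∧ l.length ≤ 6 * (marks (0, 0) l).card ∧
      ∀ m ∈ marks (0, 0) l, B m := by
  have hd' : ∀ u : ℕ, u < N → ¬ Alive B h u 0 := fun u h1 h2 => hd ⟨u, h1, h2⟩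
  have w : ∀ a b : ℕ, a ≤ b → b ≤ N → Walk B (a, 0) (b, 0) := by
    intro a b hab
    induction b, hab using Nat.le_induction with
    | base => exact fun _ => Walk.refl B _
    | succ b _ ih =>
      intro hb
      exact (ih (by omega)).trans (by simpa using walk_of_dead (hd' b (by omega)))
  obtain ⟨u, hu, ha⟩ := ha
  obtain ⟨v, w1, w2⟩ := walk_of_alive (hd' u hu) ha
  obtain ⟨l1, e1, b1⟩ := (w 0 u (by omega) hu.le).trans w1
  obtain ⟨l2, e2, b2⟩ := w2.trans (by simpa using w (u + 1) N hu le_rfl)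
  obtain ⟨l1', f1, f2, f3⟩ := exists_erase _ l1
  obtain ⟨l2', g1, g2, g3⟩ := exists_erase (v, (0 : ℤ) + k) l2
  rw [Nat.cast_zero] at e1 b1
  rw [e1] at f1
  rw [e2] at g1
  have c1 := endp_eq (0, 0) l1'
  have c2 := endp_eq (v, (0 : ℤ) + k) l2'
  rw [f1] at c1
  rw [g1] at c2
  simp only at c1 c2
  have m1 : (marks (0, 0) l1').card ≤ (marks (0, 0) (l1' ++ l2')).card :=
    Finset.card_le_card (by rw [marks_append]; exact Finset.subset_union_left)
  have m2 : (marks (v, (0 : ℤ) + k) l2').card ≤ (marks (0, 0) (l1' ++ l2')).card :=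
    Finset.card_le_card (by rw [marks_append, f1]; exact Finset.subset_union_right)
  refine ⟨l1' ++ l2', ?_, ?_, fun m hm => ?_⟩
  · rw [List.length_append]; omega
  · rw [List.length_append]; omega
  · rw [marks_append, f1, Finset.mem_union] at hm
    exact hm.elim (fun h => b1 m (f2 h)) (fun h => b2 m (g2 h))

theorem peierls {Ω : Type*} [MeasurableSpace Ω] (μ : Measure Ω) [IsProbabilityMeasure μ]
    (Bad : ℤ × ℤ → Set Ω)
    (hB : ∀ K : Finset (ℤ × ℤ), μ.real (⋂ p ∈ K, Bad p) ≤ (1 / 12) ^ (6 * K.card)) (N k : ℕ) :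
    μ.real {ω | AliveN (fun p => ω ∈ Bad p) N k ∧ ∃ h, ¬ AliveN (fun p => ω ∈ Bad p) N h} ≤
      4 / 3 * (1 / 4) ^ (N + k) := by
  classical
  let U : ℕ → Set Ω := fun n => ⋃ f ∈ (Finset.univ : Finset (Fin n → Fin 3)).filter
    (fun f => n ≤ 6 * (marks (0, 0) (List.ofFn f)).card), ⋂ p ∈ marks (0, 0) (List.ofFn f), Bad p
  have hU : ∀ n, μ.real (U n) ≤ (1 / 4) ^ n := fun n => by
    refine (rbiUnion (μ := μ) subset_rfl (c := (1 / 12) ^ n) fun f hf => ?_).trans ?_
    · exact (hB _).trans (pow_le_pow_of_le_one (by norm_num) (by norm_num)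
        (Finset.mem_filter.1 hf).2)
    · have h1 : (((Finset.univ : Finset (Fin n → Fin 3)).filter
          (fun f => n ≤ 6 * (marks (0, 0) (List.ofFn f)).card)).card : ℝ) ≤ 3 ^ n := by
        have := Finset.card_filter_le (Finset.univ : Finset (Fin n → Fin 3))
          (fun f => n ≤ 6 * (marks (0, 0) (List.ofFn f)).card)
        simp only [Finset.card_univ, Fintype.card_pi, Fintype.card_fin, Finset.prod_const] at this
        exact_mod_cast this
      refine (mul_le_mul_of_nonneg_right h1 (by positivity)).trans_eq ?_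
      rw [← mul_pow]; norm_num
  have sub : {ω | AliveN (fun p => ω ∈ Bad p) N k ∧ ∃ h, ¬ AliveN (fun p => ω ∈ Bad p) N h} ⊆
      ⋃ j, U (N + k + j) := by
    rintro ω ⟨h1, h, h2⟩
    obtain ⟨l, a1, a2, a3⟩ := contour h1 h2
    obtain ⟨j, hj⟩ := Nat.exists_eq_add_of_le a1
    refine mem_iUnion.2 ⟨j, ?_⟩
    rw [← hj]
    refine mem_biUnion (x := l.get) (Finset.mem_coe.2 (Finset.mem_filter.2
      ⟨Finset.mem_univ _, by rwa [List.ofFn_get]⟩)) ?_
    rw [List.ofFn_get]
    exact mem_iInter₂.2 a3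
  have hs : HasSum (fun j : ℕ => (1 / 4 : ℝ) ^ (N + k + j)) (4 / 3 * (1 / 4) ^ (N + k)) := by
    have := (hasSum_geometric_of_lt_one (r := (1 / 4 : ℝ)) (by norm_num) (by norm_num)).mul_left
      ((1 / 4) ^ (N + k))
    simp only [← pow_add] at this
    have e : (4 / 3 * (1 / 4) ^ (N + k) : ℝ) = (1 / 4) ^ (N + k) * (1 - 1 / 4)⁻¹ := by
      rw [mul_comm]; norm_num
    rwa [e]
  refine ENNReal.toReal_le_of_le_ofReal (by positivity) ?_
  refine (measure_mono sub).trans ((measure_iUnion_le _).trans ?_)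
  rw [← hs.tsum_eq, ENNReal.ofReal_tsum_of_nonneg (fun j => by positivity) hs.summable]
  refine ENNReal.tsum_le_tsum fun j => ?_
  exact (ENNReal.le_ofReal_iff_toReal_le (measure_ne_top _ _) (by positivity)).2 (hU _)

end Pool.Agent.MP_452076_pr

end

-- part MP_452076_pr.Block
section

/-!
The block construction: comparison with oriented percolation.
-/

namespace Pool.Agent.MP_452076_pr

open MeasureTheory ProbabilityTheory Set Filter Topology
open scoped NNReal ENNReal

variable {d : ℕ}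

/-- The data of a block construction. -/
structure Par (d : ℕ) where
  M : ℕ
  m : ℕ
  n : ℕ
  L : ℕ
  Ts : ℕ
  i₁ : Fin d
  x : Site d
  B : Set (Site d)
  j : ℤ

namespace Par

variable (P : Par d)

def ctr (u k : ℤ) : Site d := P.x + Pi.single P.i₁ ((2 * u - k) * (P.L + 1 + P.n))

def tm (k : ℕ) : ℤ := (P.j + k * P.Ts) * P.M

noncomputable def reg (u k : ℤ) : Set (Site d) := cube (P.ctr u k) (3 * P.L + 2 + 3 * P.n)

def Occ (u : ℤ) (k : ℕ) (c : Site d) : Set (Cfg d) :=
  {ω | c ∈ cube (P.ctr u k) P.L ∧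
    (cube c P.n : Set (Site d)) ⊆ reach (win P.M P.m ω) P.B (P.tm 0) (k * P.Ts * P.M)}

def Good (u : ℤ) (k : ℕ) (c : Site d) : Set (Cfg d) :=
  WEv P.M P.m P.n (P.reg u k) c (P.tm k) (Near P.L (P.ctr u (k + 1)) (P.Ts * P.M)) ∩
    WEv P.M P.m P.n (P.reg u k) c (P.tm k) (Near P.L (P.ctr (u + 1) (k + 1)) (P.Ts * P.M))

def BadN (u : ℤ) (k : ℕ) : Set (Cfg d) :=
  (⋃ c, P.Occ u k c) ∩ ⋂ c, ((P.Occ u k c)ᶜ ∪ (P.Good u k c)ᶜ)

def Bad (p : ℤ × ℤ) : Set (Cfg d) := ⋃ k : ℕ, ⋃ _ : p.2 = k, P.BadN p.1 k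

theorem tm_eq (k : ℕ) : P.tm k = P.tm 0 + (k * P.Ts * P.M : ℕ) := by
  simp only [tm]; push_cast; ring

theorem tm_succ (k : ℕ) : P.tm (k + 1) = P.tm k + (P.Ts * P.M : ℕ) := by
  simp only [tm]; push_cast; ring

theorem tm_mono {k l : ℕ} (h : k ≤ l) : P.tm k ≤ P.tm l := by
  rw [P.tm_eq k, P.tm_eq l]
  have := Nat.mul_le_mul_right P.M (Nat.mul_le_mul_right P.Ts h)
  omega

theorem loc_Occ (u : ℤ) (k : ℕ) (c : Site d) :
    Loc (Own univ (P.tm 0) (P.tm k) \ Wn d P.M P.m) (P.Occ u k c) := fun _ _ e h =>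
  ⟨h.1, by rw [← reach_time_congr _ (P.tm_eq k).ge (win_congr e)]; exact h.2⟩

theorem measurableSet_Occ (u : ℤ) (k : ℕ) (c : Site d) : MeasurableSet (P.Occ u k c) :=
  (MeasurableSet.const _).inter (measurableSet_subset_reach (measurable_win _ _) _ _ _ _)

theorem loc_Good (u : ℤ) (k : ℕ) (c : Site d) :
    Loc (Own (P.reg u k) (P.tm k) (P.tm (k + 1)) \ Wn d P.M P.m) (P.Good u k c) :=
  ((loc_Ev _ _ _ _ fun p hp => by rw [hp.2, tm_succ]).win _ _).inter
    ((loc_Ev _ _ _ _ fun p hp => by rw [hp.2, tm_succ]).win _ _)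

theorem measurableSet_Good (u : ℤ) (k : ℕ) (c : Site d) : MeasurableSet (P.Good u k c) :=
  (measurableSet_WEv _ _ _ _ _ _ _).inter (measurableSet_WEv _ _ _ _ _ _ _)

theorem loc_BadN (u : ℤ) (k : ℕ) {J : Set (Idx d)}
    (h1 : Own univ (P.tm 0) (P.tm k) \ Wn d P.M P.m ⊆ J)
    (h2 : Own (P.reg u k) (P.tm k) (P.tm (k + 1)) \ Wn d P.M P.m ⊆ J) : Loc J (P.BadN u k) :=
  (Loc.iUnion fun c => (P.loc_Occ u k c).mono h1).inter (Loc.iInter fun c =>
    ((P.loc_Occ u k c).mono h1).compl.union ((P.loc_Good u k c).mono h2).compl)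

theorem measurableSet_Bad (p : ℤ × ℤ) : MeasurableSet (P.Bad p) :=
  .iUnion fun k => .iUnion fun _ => (MeasurableSet.iUnion fun c => P.measurableSet_Occ _ k c).inter
    (.iInter fun c => (P.measurableSet_Occ _ k c).compl.union (P.measurableSet_Good _ k c).compl)

theorem mem_Bad {u : ℤ} {k : ℕ} {ω : Cfg d} : ω ∈ P.Bad (u, k) ↔ ω ∈ P.BadN u k := by
  simp [Bad]

theorem reg_disjoint {u u' : ℤ} (h : u % 3 = u' % 3) (hne : u ≠ u') (k : ℤ) :
    Disjoint (P.reg u k) (P.reg u' k) := by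
  rw [Set.disjoint_left]
  intro y h1 h2
  have c1 := abs_le.1 (mem_cube.1 h1 P.i₁)
  have c2 := abs_le.1 (mem_cube.1 h2 P.i₁)
  simp only [ctr, Pi.add_apply, Pi.single_eq_same] at c1 c2
  push_cast at c1 c2
  have ha : (0 : ℤ) ≤ P.L + 1 + P.n := by positivity
  rcases lt_or_gt_of_ne hne with h3 | h3
  · have := mul_le_mul_of_nonneg_right (show u + 3 ≤ u' by omega) ha
    linarith [c1.1, c1.2, c2.1, c2.2]
  · have := mul_le_mul_of_nonneg_right (show u' + 3 ≤ u by omega) ha
    linarith [c1.1, c1.2, c2.1, c2.2]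

theorem real_Bad_res (lam : ℝ≥0) {ε : ℝ} (hε : 0 ≤ ε)
    (hG : ∀ u (k : ℕ) c, c ∈ cube (P.ctr u k) P.L → (mu d lam P.M).real (P.Good u k c)ᶜ ≤ ε)
    (r : ℤ) (K : Finset (ℤ × ℤ)) (hK : ∀ p ∈ K, p.1 % 3 = r) :
    (mu d lam P.M).real (⋂ p ∈ K, P.Bad p) ≤ ε ^ K.card := by
  classical
  induction K using Finset.induction_on_max_value (fun p : ℤ × ℤ => p.2) with
  | empty => simp
  | insert a s ha hs ih =>
    rw [Finset.set_biInter_insert, Finset.card_insert_of_notMem ha, pow_succ', inter_comm]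
    have ih' := ih fun p hp => hK p (Finset.mem_insert_of_mem hp)
    obtain ⟨u, i⟩ := a
    rcases lt_or_ge i 0 with hi | hi
    · have : P.Bad (u, i) = ∅ := by
        simp only [Bad, iUnion_eq_empty]
        intro k hk
        omega
      rw [this, inter_empty, measureReal_empty]
      positivity
    obtain ⟨k, rfl⟩ := Int.eq_ofNat_of_zero_le hi
    have t1 : ∀ l ≤ k, Own univ (P.tm 0) (P.tm l) \ Wn d P.M P.m ⊆
        (Own (P.reg u k) (P.tm k) (P.tm (k + 1)))ᶜ := by
      rintro l hl i ⟨⟨-, -, -, h1⟩, -⟩ ⟨-, -, h2, -⟩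
      have := P.tm_mono hl
      omega
    refine (freeze_le (nu lam P.M) (J := (Own (P.reg u k) (P.tm k) (P.tm (k + 1)))ᶜ) ?_
      (Finset.measurableSet_biInter _ fun p _ => P.measurableSet_Bad p) (P.measurableSet_Bad _)
      fun a _ => ?_).trans (mul_le_mul_of_nonneg_left ih' hε)
    · refine Loc.iInter fun p => Loc.iInter fun hp => Loc.iUnion fun l => Loc.iUnion fun hl => ?_
      have h1 := hs p hp
      simp only at h1
      have hlk : l ≤ k := by omega
      refine P.loc_BadN _ _ (t1 l hlk) ?_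
      rintro i ⟨⟨h2, -, -, h3⟩, -⟩ ⟨h4, -, h5, -⟩
      rcases hlk.lt_or_eq with h6 | rfl
      · have := P.tm_mono (show l + 1 ≤ k from h6)
        omega
      · refine Set.disjoint_left.1 (P.reg_disjoint (u := p.1) (u' := u) ?_ ?_ l) h2 h4
        · rw [hK p (Finset.mem_insert_of_mem hp), hK _ (Finset.mem_insert_self _ _)]
        · intro e
          exact ha (by rw [← e, ← hl]; exact hp)
    · by_cases hc : ∃ c, a ∈ P.Occ u k c
      · obtain ⟨c, hc⟩ := hc
        refine ⟨P.Good u k c, ?_, P.measurableSet_Good u k c, hG u k c hc.1, fun ω e h1 h2 => ?_⟩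
        · rw [compl_compl]; exact (P.loc_Good u k c).mono sdiff_subset
        · rw [mem_Bad] at h2
          rcases mem_iInter.1 h2.2 c with h3 | h3
          · exact h3 ((((P.loc_Occ u k c).mono (t1 k le_rfl)).iff e).2 hc)
          · exact h3 h1
      · refine ⟨univ, loc_univ _, .univ, by simpa using hε, fun ω e _ h2 => ?_⟩
        rw [mem_Bad] at h2
        obtain ⟨c, h3⟩ := mem_iUnion.1 h2.1
        exact hc ⟨c, (((P.loc_Occ u k c).mono (t1 k le_rfl)).iff e).1 h3⟩

theorem real_Bad (lam : ℝ≥0)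
    (hG : ∀ u (k : ℕ) c, c ∈ cube (P.ctr u k) P.L →
      (mu d lam P.M).real (P.Good u k c)ᶜ ≤ (1 / 12) ^ 18) (K : Finset (ℤ × ℤ)) :
    (mu d lam P.M).real (⋂ p ∈ K, P.Bad p) ≤ (1 / 12) ^ (6 * K.card) := by
  classical
  obtain ⟨r, hr⟩ : ∃ r : ℤ, K.card ≤ 3 * (K.filter fun p => p.1 % 3 = r).card := by
    have h1 := Finset.card_filter_add_card_filter_not (s := K) (fun p => p.1 % 3 = 0)
    have h2 : (K.filter fun p => ¬ p.1 % 3 = 0) ⊆
        (K.filter fun p => p.1 % 3 = 1) ∪ (K.filter fun p => p.1 % 3 = 2) := by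
      intro p hp
      simp only [Finset.mem_filter, Finset.mem_union] at hp ⊢
      have : p.1 % 3 = 1 ∨ p.1 % 3 = 2 := by omega
      tauto
    have h3 := (Finset.card_le_card h2).trans (Finset.card_union_le _ _)
    by_contra hc
    push Not at hc
    have := hc 0
    have := hc 1
    have := hc 2
    omega
  have h1 := P.real_Bad_res lam (by positivity) hG r (K.filter fun p => p.1 % 3 = r)
    fun p hp => (Finset.mem_filter.1 hp).2
  have h2 : (⋂ p ∈ K, P.Bad p) ⊆ ⋂ p ∈ K.filter fun p => p.1 % 3 = r, P.Bad p := by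
    intro ω hω
    simp only [mem_iInter] at hω ⊢
    exact fun p hp => hω p (Finset.mem_filter.1 hp).1
  refine (rmono h2).trans (h1.trans ?_)
  rw [← pow_mul]
  exact pow_le_pow_of_le_one (by norm_num) (by norm_num) (by omega)

theorem occ_succ {u : ℤ} {k : ℕ} {c z : Site d} {ω : Cfg d} (h : ω ∈ P.Occ u k c)
    (h2 : ω ∈ WEv P.M P.m P.n (P.reg u k) c (P.tm k) (Near P.L z (P.Ts * P.M))) :
    ∃ c', c' ∈ cube z P.L ∧ (cube c' P.n : Set (Site d)) ⊆
      reach (win P.M P.m ω) P.B (P.tm 0) ((k + 1) * P.Ts * P.M) := by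
  obtain ⟨p, hp, h3⟩ := h2
  refine ⟨p.1, hp.1, h3.trans ?_⟩
  rw [hp.2, add_mul, add_mul, one_mul, reach_add, ← tm_eq]
  exact reach_mono (cut_le _ _) h.2 _ _

theorem alive_reach {ω : Cfg d} {l : ℕ} {u : ℤ} {k : ℕ} {c : Site d} (h : ω ∈ P.Occ u k c)
    (ha : Alive (fun p => ω ∈ P.Bad p) l u k) :
    (reach (win P.M P.m ω) P.B (P.tm 0) ((k + l) * P.Ts * P.M)).Nonempty := by
  induction l generalizing u k c with
  | zero => exact ⟨c, h.2 (self_mem_cube _ _)⟩
  | succ l ih =>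
    obtain ⟨h1, h2⟩ := ha
    simp only [mem_Bad, BadN, mem_inter_iff, not_and, mem_iInter, not_forall, mem_union,
      mem_compl_iff, not_or, not_not] at h1
    obtain ⟨c', h3, h4⟩ := h1 (mem_iUnion.2 ⟨c, h⟩)
    rw [show k + (l + 1) = k + 1 + l by ring]
    rcases h2 with h2 | h2
    · obtain ⟨c'', h5⟩ := P.occ_succ h3 h4.1
      exact ih (u := u) (k := k + 1) (c := c'') h5 h2
    · obtain ⟨c'', h5⟩ := P.occ_succ h3 h4.2
      exact ih (u := u + 1) (k := k + 1) (c := c'') h5 h2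

theorem loc_alive (l : ℕ) (u : ℤ) (k : ℕ) :
    Loc (Own univ (P.tm 0) (P.tm (k + l)) \ Wn d P.M P.m)
      {ω | Alive (fun p => ω ∈ P.Bad p) l u k} := by
  induction l generalizing u k with
  | zero => exact fun _ _ _ h => h
  | succ l ih =>
    have h1 : Loc (Own univ (P.tm 0) (P.tm (k + (l + 1))) \ Wn d P.M P.m) (P.BadN u k) :=
      P.loc_BadN u k (sdiff_subset_sdiff_left (Own.mono subset_rfl le_rfl (P.tm_mono (by omega))))
        (sdiff_subset_sdiff_left (Own.mono (subset_univ _) (P.tm_mono (by omega))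
          (P.tm_mono (by omega))))
    intro ω ω' e h
    refine ⟨?_, ?_⟩
    · have := h.1
      simp only [mem_Bad] at this ⊢
      exact h1.compl ω ω' e this
    · rw [show k + (l + 1) = k + 1 + l by ring] at e
      exact h.2.imp (ih u (k + 1) ω ω' e) (ih (u + 1) (k + 1) ω ω' e)

theorem measurableSet_alive (l : ℕ) (u i : ℤ) :
    MeasurableSet {ω | Alive (fun p => ω ∈ P.Bad p) l u i} := by
  induction l generalizing u i with
  | zero => exact MeasurableSet.const True
  | succ l ih => exact (P.measurableSet_Bad (u, i)).compl.inter ((ih u (i + 1)).union (ih _ _))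

/-- The block process is seen to be dead after `s` layers. -/
def Dead (N s : ℕ) : Set (Cfg d) := {ω | ¬ AliveN (fun p => ω ∈ P.Bad p) N (s / P.Ts)}

theorem dead_eq (N s : ℕ) : P.Dead N s =
    (⋃ u : ℕ, ⋃ _ : u < N, {ω | Alive (fun p => ω ∈ P.Bad p) (s / P.Ts) u 0})ᶜ := by
  ext ω; simp [Dead, AliveN]

theorem measurableSet_Dead (N s : ℕ) : MeasurableSet (P.Dead N s) := by
  rw [dead_eq]
  exact (MeasurableSet.iUnion fun u => .iUnion fun _ => P.measurableSet_alive _ _ _).compl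

theorem loc_Dead (N s : ℕ) :
    Loc (Own univ (P.j * P.M) ((P.j + s) * P.M) \ Wn d P.M P.m) (P.Dead N s) := by
  rw [dead_eq]
  refine Loc.compl (Loc.iUnion fun u => Loc.iUnion fun _ => ?_)
  refine (P.loc_alive (s / P.Ts) u 0).mono
    (sdiff_subset_sdiff_left (Own.mono subset_rfl (by simp [tm]) ?_))
  simp only [tm, zero_add]
  refine mul_le_mul_of_nonneg_right ?_ (by positivity)
  have : ((s / P.Ts * P.Ts : ℕ) : ℤ) ≤ s := by exact_mod_cast Nat.div_mul_le_self s P.Ts
  rw [Nat.cast_mul] at this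
  linarith

theorem dead_mono (N : ℕ) : Monotone (P.Dead N) := fun _ _ h _ h1 h2 =>
  h1 (h2.anti (Nat.div_le_div_right h))

theorem dead_zero {N : ℕ} (hN : 0 < N) : P.Dead N 0 = ∅ := by
  ext ω
  simp only [Dead, mem_ofPred_eq, Nat.zero_div, mem_empty_iff_false, iff_false, not_not]
  exact ⟨0, hN, trivial⟩

theorem reach_of_not_dead {N : ℕ} (hM : 0 < P.M) (hT : 0 < P.Ts)
    (hB : ∀ u : ℕ, u < N → (cube (P.ctr u 0) P.n : Set (Site d)) ⊆ P.B) {ω : Cfg d}
    (h : ω ∉ ⋃ s, P.Dead N s) (k : ℕ) : (reach (win P.M P.m ω) P.B (P.j * P.M) k).Nonempty := by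
  simp only [mem_iUnion, not_exists, Dead, mem_ofPred_eq, not_not] at h
  obtain ⟨u, hu, ha⟩ := h (k * P.Ts)
  rw [Nat.mul_div_cancel _ hT] at ha
  have := P.alive_reach (k := 0) (c := P.ctr u 0)
    ⟨self_mem_cube _ _, by simpa [reach_zero] using hB u hu⟩ ha
  have e : P.tm 0 = P.j * P.M := by simp [tm]
  rw [e, zero_add] at this
  exact reach_nonempty_of_le
    ((Nat.le_mul_of_pos_right _ hT).trans (Nat.le_mul_of_pos_right _ hM)) this

theorem real_dead (lam : ℝ≥0) {g t₀ T : ℕ} {ε : ℝ} (h : WCrit d lam P.M P.m P.n P.L g t₀ T ε)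
    (hT : 2 * t₀ + 1 ≤ T) (hTs : P.Ts = 3 * g + 2 * (T - 1)) (hε : 6 * ε ≤ (1 / 12) ^ 18)
    (N s : ℕ) : (mu d lam P.M).real ((P.Dead N s)ᶜ ∩ ⋃ s, P.Dead N s) ≤
      4 / 3 * (1 / 4) ^ (N + s / P.Ts) := by
  refine (rmono ?_).trans (peierls _ P.Bad (P.real_Bad lam fun u k c hc => ?_) N _)
  · rintro ω ⟨h1, h2⟩
    obtain ⟨s', h2⟩ := mem_iUnion.1 h2
    exact ⟨not_not.1 h1, _, h2⟩
  · have e1 : P.ctr u (k + 1) =
        P.ctr u k + Pi.single P.i₁ (((-1 : ℤˣ) : ℤ) * (P.L + 1 + P.n)) := by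
      simp only [ctr, add_assoc, ← Pi.single_add]
      congr 2
      simp only [Units.val_neg, Units.val_one]
      ring
    have e2 : P.ctr (u + 1) (k + 1) =
        P.ctr u k + Pi.single P.i₁ (((1 : ℤˣ) : ℤ) * (P.L + 1 + P.n)) := by
      simp only [ctr, add_assoc, ← Pi.single_add]
      congr 2
      simp only [Units.val_one]
      ring
    have a1 := h.block hT P.i₁ (-1) hc (P.j + k * P.Ts)
    have a2 := h.block hT P.i₁ 1 hc (P.j + k * P.Ts)
    rw [← e1, ← hTs] at a1
    rw [← e2, ← hTs] at a2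
    rw [Good, compl_inter]
    refine (measureReal_union_le _ _).trans ?_
    exact (add_le_add a1 a2).trans (by linarith)

end Par

end Pool.Agent.MP_452076_pr

end

-- part MP_452076_pr.Drift
section

/-!
A Lyapunov function argument: conditional probabilities given any history are bounded below.
-/

namespace Pool.Agent.MP_452076_pr

open MeasureTheory Set
open scoped NNReal ENNReal

variable {ι γ : Type*} [MeasurableSpace γ]

structure Sys (ν : ι → Measure γ) where
  Pa : ℤ → Set ι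
  W : Set ι
  D : ℤ → ℕ → Set (ι → γ)
  R : ℤ → Set (ι → γ)
  V : ℤ → Set (ι → γ)
  w : ℝ
  β : ℝ
  δ : ℝ
  mono : Monotone Pa
  lD : ∀ i (s : ℕ), Loc ((Pa i \ Pa (i - s)) \ W) (D i s)
  lR : ∀ i, Loc ((Pa i \ Pa (i - 1)) \ W) (R i)
  lV : ∀ i, Loc ((Pa i \ Pa (i - 1)) ∩ W) (V i)
  mD : ∀ i s, MeasurableSet (D i s)
  mR : ∀ i, MeasurableSet (R i)
  mV : ∀ i, MeasurableSet (V i)
  D0 : ∀ i, D i 0 = ∅
  β0 : 0 < β
  β1 : β < 1
  hw : w * (1 - β) = 1
  hF : ∀ i s, (Measure.infinitePi ν).real ((D i s)ᶜ ∩ ⋃ s, D i s) ≤ β ^ 3 / 8 * (1 - β) ^ (2 * s)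
  hR : ∀ i, (Measure.infinitePi ν).real (R i)ᶜ ≤ β / 8
  hV : ∀ i, δ ≤ (Measure.infinitePi ν).real (V i)
  hV' : ∀ i, (Measure.infinitePi ν).real (V i) ≤ β / 2

namespace Sys

variable {ν : ι → Measure γ} (S : Sys ν)

def F (i : ℤ) (s : ℕ) : Set (ι → γ) := (S.D i s)ᶜ ∩ ⋃ s, S.D i s

def G (i : ℤ) : Set (ι → γ) := (⋃ s, S.D i s)ᶜ ∩ S.R i

def O (i : ℤ) : Set (ι → γ) := S.G i ∩ S.V i

theorem lU (i : ℤ) : Loc (S.Pa i \ S.W) (⋃ s, S.D i s) :=
  Loc.iUnion fun s => (S.lD i s).mono (sdiff_subset_sdiff_left sdiff_subset)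

theorem lF (i : ℤ) (s : ℕ) : Loc S.Wᶜ (S.F i s) :=
  ((S.lD i s).mono fun _ h => h.2).compl.inter ((S.lU i).mono fun _ h => h.2)

theorem lG (i : ℤ) : Loc (S.Pa i \ S.W) (S.G i) :=
  (S.lU i).compl.inter ((S.lR i).mono (sdiff_subset_sdiff_left sdiff_subset))

theorem lO (i : ℤ) : Loc (S.Pa i) (S.O i) :=
  ((S.lG i).mono sdiff_subset).inter ((S.lV i).mono fun _ h => h.1.1)

theorem mF (i : ℤ) (s : ℕ) : MeasurableSet (S.F i s) :=
  (S.mD i s).compl.inter (.iUnion fun s => S.mD i s)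

theorem mG (i : ℤ) : MeasurableSet (S.G i) :=
  (MeasurableSet.iUnion fun s => S.mD i s).compl.inter (S.mR i)

theorem mO (i : ℤ) : MeasurableSet (S.O i) := (S.mG i).inter (S.mV i)

theorem w_pos : 0 < S.w := by
  have := S.hw
  have := S.β1
  by_contra h
  nlinarith

def Inv (t : ℤ) (H : Set (ι → γ)) : Prop :=
  MeasurableSet H ∧ Loc (S.Pa t) H ∧ ∀ n, ∑ s ∈ Finset.range n,
    S.w ^ (s + 1) * (Measure.infinitePi ν).real (H ∩ S.F (t + 1 + s) (s + 1)) ≤
      S.β / 4 * (Measure.infinitePi ν).real H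

theorem geom (n : ℕ) : ∑ s ∈ Finset.range n,
    S.w ^ (s + 1) * (S.β ^ 3 / 8 * (1 - S.β) ^ (2 * (s + 1))) ≤ S.β ^ 2 / 8 := by
  have b0 := S.β0
  have b1 : 0 < 1 - S.β := sub_pos.2 S.β1
  have h1 : ∀ s, S.w ^ (s + 1) * (S.β ^ 3 / 8 * (1 - S.β) ^ (2 * (s + 1))) ≤
      S.β ^ 2 / 8 * (S.β * (1 - S.β) ^ s) := fun s => by
    have e : S.w ^ (s + 1) * (S.β ^ 3 / 8 * (1 - S.β) ^ (2 * (s + 1))) =
        (S.w * (1 - S.β)) ^ (s + 1) * (S.β ^ 2 / 8 * (S.β * (1 - S.β) ^ s)) * (1 - S.β) := by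
      rw [mul_pow]; ring
    rw [e, S.hw, one_pow, one_mul]
    exact mul_le_of_le_one_right (by positivity) (by linarith)
  refine (Finset.sum_le_sum fun s _ => h1 s).trans ?_
  rw [← Finset.mul_sum, ← Finset.mul_sum]
  have h2 := mul_neg_geom_sum (1 - S.β) n
  rw [sub_sub_cancel] at h2
  rw [h2]
  exact mul_le_of_le_one_right (by positivity) (by linarith [pow_pos b1 n])

variable [∀ i, IsProbabilityMeasure (ν i)]

theorem inv_univ (t : ℤ) : S.Inv t univ := by
  refine ⟨.univ, loc_univ _, fun n => ?_⟩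
  simp only [univ_inter, probReal_univ, mul_one]
  refine (Finset.sum_le_sum fun s _ => mul_le_mul_of_nonneg_left (S.hF _ _)
    (pow_pos S.w_pos _).le).trans ((S.geom n).trans ?_)
  nlinarith [S.β0, S.β1]

omit [∀ i, IsProbabilityMeasure (ν i)] in
theorem inv_empty (t : ℤ) : S.Inv t ∅ := ⟨.empty, loc_empty _, fun n => by simp⟩

theorem Inv.union {S : Sys ν} {t : ℤ} {H H' : Set (ι → γ)} (h : S.Inv t H) (h' : S.Inv t H')
    (hd : Disjoint H H') : S.Inv t (H ∪ H') := by
  refine ⟨h.1.union h'.1, h.2.1.union h'.2.1, fun n => ?_⟩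
  rw [measureReal_union hd h'.1, mul_add]
  refine le_trans ?_ (add_le_add (h.2.2 n) (h'.2.2 n))
  rw [← Finset.sum_add_distrib]
  refine Finset.sum_le_sum fun s _ => ?_
  rw [← mul_add, union_inter_distrib_right]
  exact mul_le_mul_of_nonneg_left (measureReal_union_le _ _) (pow_pos S.w_pos _).le

theorem Inv.new {S : Sys ν} {t : ℤ} {H : Set (ι → γ)} (h : S.Inv t H) (s : ℕ) :
    (Measure.infinitePi ν).real (H ∩ (S.D (t + 1 + s) (s + 1) \ S.D (t + 1 + s) s)) ≤
      S.β ^ 3 / 8 * (1 - S.β) ^ (2 * s) * (Measure.infinitePi ν).real H := by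
  rw [indep_loc_real ν h.2.1 (J' := (S.Pa t)ᶜ) ?_ disjoint_compl_right h.1
    ((S.mD _ _).diff (S.mD _ _)), mul_comm]
  · refine mul_le_mul_of_nonneg_right ((rmono ?_).trans (S.hF (t + 1 + s) s)) measureReal_nonneg
    exact fun ω hω => ⟨hω.2, mem_iUnion.2 ⟨_, hω.1⟩⟩
  · refine ((S.lD _ _).mono fun i hi h1 => hi.1.2 (S.mono ?_ h1)).diff
      ((S.lD _ _).mono fun i hi h1 => hi.1.2 (S.mono ?_ h1))
    · push_cast; omega
    · omega

theorem Inv.pre {S : Sys ν} {t : ℤ} {H : Set (ι → γ)} (h : S.Inv t H) (n : ℕ) :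
    ∑ s ∈ Finset.range n,
      S.w ^ (s + 1) * (Measure.infinitePi ν).real (H ∩ S.F (t + 1 + 1 + s) (s + 1)) ≤
      S.β / 4 * (1 - S.β / 2) * (Measure.infinitePi ν).real H := by
  have b1 : 0 < 1 - S.β := sub_pos.2 S.β1
  have h1 : ∀ s : ℕ,
      S.w ^ (s + 1) * (Measure.infinitePi ν).real (H ∩ S.F (t + 1 + 1 + s) (s + 1)) ≤
      (1 - S.β) * (S.w ^ (s + 1 + 1) *
        (Measure.infinitePi ν).real (H ∩ S.F (t + 1 + (s + 1 : ℕ)) (s + 1 + 1))) +
      S.w ^ (s + 1) * (S.β ^ 3 / 8 * (1 - S.β) ^ (2 * (s + 1))) *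
        (Measure.infinitePi ν).real H := fun s => by
    have e : t + 1 + 1 + s = t + 1 + (s + 1 : ℕ) := by push_cast; ring
    have a1 := h.new (s + 1)
    have a2 : (Measure.infinitePi ν).real (H ∩ S.F (t + 1 + (s + 1 : ℕ)) (s + 1)) ≤
        (Measure.infinitePi ν).real (H ∩ S.F (t + 1 + (s + 1 : ℕ)) (s + 1 + 1)) +
        (Measure.infinitePi ν).real
          (H ∩ (S.D (t + 1 + (s + 1 : ℕ)) (s + 1 + 1) \ S.D (t + 1 + (s + 1 : ℕ)) (s + 1))) := by
      refine runion fun ω hω => ?_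
      by_cases hd : ω ∈ S.D (t + 1 + (s + 1 : ℕ)) (s + 1 + 1)
      · exact Or.inr ⟨hω.1, hd, hω.2.1⟩
      · exact Or.inl ⟨hω.1, hd, hω.2.2⟩
    rw [e, ← mul_assoc, pow_succ S.w (s + 1), mul_left_comm, mul_comm (1 - S.β), S.hw, mul_one,
      mul_assoc, ← mul_add]
    exact mul_le_mul_of_nonneg_left (by linarith) (pow_pos S.w_pos _).le
  refine (Finset.sum_le_sum fun s _ => h1 s).trans ?_
  rw [Finset.sum_add_distrib, ← Finset.mul_sum, ← Finset.sum_mul]
  have a1 := h.2.2 (n + 1)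
  rw [Finset.sum_range_succ'] at a1
  have a2 : 0 ≤ S.w ^ (0 + 1) *
      (Measure.infinitePi ν).real (H ∩ S.F (t + 1 + (0 : ℕ)) (0 + 1)) :=
    mul_nonneg (pow_pos S.w_pos _).le measureReal_nonneg
  have a3 := mul_le_mul_of_nonneg_right (S.geom n)
    (measureReal_nonneg (μ := Measure.infinitePi ν) (s := H))
  have a4 := mul_le_mul_of_nonneg_left (le_trans (le_add_of_nonneg_right a2) a1) b1.le
  linarith

theorem Inv.good {S : Sys ν} {t : ℤ} {H : Set (ι → γ)} (h : S.Inv t H) :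
    (1 - S.β / 2) * (Measure.infinitePi ν).real H ≤
      (Measure.infinitePi ν).real (H ∩ S.G (t + 1)) := by
  have a1 := h.2.2 1
  have a2 := h.new 0
  simp only [Finset.range_one, Finset.sum_singleton, zero_add, pow_one, Nat.cast_zero, add_zero,
    mul_zero, pow_zero, mul_one, S.D0, sdiff_empty] at a1 a2
  have a3 : (Measure.infinitePi ν).real (H ∩ (S.R (t + 1))ᶜ) ≤
      S.β / 8 * (Measure.infinitePi ν).real H := by
    rw [indep_loc_real ν h.2.1 (J' := (S.Pa t)ᶜ) ?_ disjoint_compl_right h.1 (S.mR _).compl,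
      mul_comm]
    · exact mul_le_mul_of_nonneg_right (S.hR _) measureReal_nonneg
    · exact ((S.lR _).mono fun i hi h1 => hi.1.2 (S.mono (by omega) h1)).compl
  have a4 : (Measure.infinitePi ν).real H ≤ (Measure.infinitePi ν).real (H ∩ S.G (t + 1)) +
      ((Measure.infinitePi ν).real (H ∩ S.F (t + 1) 1) +
      ((Measure.infinitePi ν).real (H ∩ S.D (t + 1) 1) +
      (Measure.infinitePi ν).real (H ∩ (S.R (t + 1))ᶜ))) := by
    refine (runion (t := H ∩ S.G (t + 1)) (u := (H ∩ S.F (t + 1) 1) ∪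
      ((H ∩ S.D (t + 1) 1) ∪ (H ∩ (S.R (t + 1))ᶜ))) fun ω hω => ?_).trans
      (add_le_add le_rfl ((measureReal_union_le _ _).trans
        (add_le_add le_rfl (measureReal_union_le _ _))))
    by_cases h1 : ω ∈ S.R (t + 1)
    · by_cases h2 : ω ∈ ⋃ s, S.D (t + 1) s
      · by_cases h3 : ω ∈ S.D (t + 1) 1
        · exact Or.inr (Or.inr (Or.inl ⟨hω, h3⟩))
        · exact Or.inr (Or.inl ⟨hω, h3, h2⟩)
      · exact Or.inl ⟨hω, h2, h1⟩
    · exact Or.inr (Or.inr (Or.inr ⟨hω, h1⟩))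
  have b0 := S.β0
  have b1 := S.β1
  have hw : 1 ≤ S.w := by nlinarith [S.hw, S.w_pos]
  have a5 : (Measure.infinitePi ν).real (H ∩ S.F (t + 1) 1) ≤
      S.w * (Measure.infinitePi ν).real (H ∩ S.F (t + 1) 1) :=
    le_mul_of_one_le_left measureReal_nonneg hw
  have a6 : S.β ^ 3 ≤ S.β := by
    have : S.β ^ 3 ≤ S.β ^ 1 := pow_le_pow_of_le_one b0.le b1.le (by omega)
    rwa [pow_one] at this
  have a7 := mul_le_mul_of_nonneg_right a6
    (measureReal_nonneg (μ := Measure.infinitePi ν) (s := H))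
  linarith

theorem indep_V {t : ℤ} {H K : Set (ι → γ)} (hH : Loc (S.Pa t) H) (hK : Loc S.Wᶜ K)
    (mH : MeasurableSet H) (mK : MeasurableSet K) :
    (Measure.infinitePi ν).real (H ∩ K ∩ S.V (t + 1)) =
      (Measure.infinitePi ν).real (H ∩ K) * (Measure.infinitePi ν).real (S.V (t + 1)) := by
  refine indep_loc_real ν (J := S.Pa t ∪ S.Wᶜ)
    ((hH.mono subset_union_left).inter (hK.mono subset_union_right)) (S.lV _) ?_ (mH.inter mK)
    (S.mV _)
  rw [Set.disjoint_left]
  rintro i (h1 | h1) ⟨⟨-, h2⟩, h3⟩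
  · exact h2 (by rwa [add_sub_cancel_right])
  · exact h1 h3

theorem Inv.real_O {S : Sys ν} {t : ℤ} {H : Set (ι → γ)} (h : S.Inv t H) :
    (1 - S.β / 2) * (Measure.infinitePi ν).real H * (Measure.infinitePi ν).real (S.V (t + 1)) ≤
      (Measure.infinitePi ν).real (H ∩ S.O (t + 1)) := by
  rw [O, ← inter_assoc, S.indep_V h.2.1 ((S.lG _).mono fun _ h => h.2) h.1 (S.mG _)]
  exact mul_le_mul_of_nonneg_right h.good measureReal_nonneg

theorem Inv.one {S : Sys ν} {t : ℤ} {H : Set (ι → γ)} (h : S.Inv t H) :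
    S.Inv (t + 1) (H ∩ S.O (t + 1)) := by
  refine ⟨h.1.inter (S.mO _), (h.2.1.mono (S.mono (by omega))).inter (S.lO _), fun n => ?_⟩
  have h1 : ∀ s : ℕ, S.w ^ (s + 1) *
      (Measure.infinitePi ν).real (H ∩ S.O (t + 1) ∩ S.F (t + 1 + 1 + s) (s + 1)) ≤
      S.w ^ (s + 1) * (Measure.infinitePi ν).real (H ∩ S.F (t + 1 + 1 + s) (s + 1)) *
        (Measure.infinitePi ν).real (S.V (t + 1)) := fun s => by
    rw [mul_assoc, ← S.indep_V h.2.1 (S.lF _ _) h.1 (S.mF _ _)]
    exact mul_le_mul_of_nonneg_left (rmono fun ω hω => ⟨⟨hω.1.1, hω.2⟩, hω.1.2.2⟩)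
      (pow_pos S.w_pos _).le
  refine (Finset.sum_le_sum fun s _ => h1 s).trans ?_
  rw [← Finset.sum_mul]
  refine (mul_le_mul_of_nonneg_right (h.pre n) measureReal_nonneg).trans ?_
  have := mul_le_mul_of_nonneg_left h.real_O (show 0 ≤ S.β / 4 by linarith [S.β0])
  linarith

theorem Inv.zero {S : Sys ν} {t : ℤ} {H : Set (ι → γ)} (h : S.Inv t H) :
    S.Inv (t + 1) (H \ S.O (t + 1)) := by
  refine ⟨h.1.diff (S.mO _), (h.2.1.mono (S.mono (by omega))).diff (S.lO _), fun n => ?_⟩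
  refine (Finset.sum_le_sum fun s _ => mul_le_mul_of_nonneg_left
    (rmono (inter_subset_inter_left _ sdiff_subset)) (pow_pos S.w_pos _).le).trans
    ((h.pre n).trans ?_)
  rw [mul_assoc]
  refine mul_le_mul_of_nonneg_left ?_ (by linarith [S.β0])
  have a1 := S.indep_V h.2.1 (loc_univ _) h.1 .univ
  rw [inter_univ] at a1
  have a2 : (Measure.infinitePi ν).real H ≤ (Measure.infinitePi ν).real (H \ S.O (t + 1)) +
      (Measure.infinitePi ν).real (H ∩ S.V (t + 1)) :=
    runion fun ω hω => (em' (ω ∈ S.O (t + 1))).imp (fun h => ⟨hω, h⟩) fun h => ⟨hω, h.2⟩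
  have a3 := mul_le_mul_of_nonneg_left (S.hV' (t + 1))
    (measureReal_nonneg (μ := Measure.infinitePi ν) (s := H))
  linarith

open Classical in
/-- The indicator process. -/
noncomputable def Ob (ω : ι → γ) (i : ℤ) : Bool := decide (ω ∈ S.O i)

theorem inv_history (a : ℤ) (n : ℕ) (C : Set (ℤ → Bool)) (hC : Loc (Ico (a + 1) (a + 1 + n)) C) :
    S.Inv (a + n) {ω | S.Ob ω ∈ C} := by
  classical
  induction n generalizing C with
  | zero =>
    rcases C.eq_empty_or_nonempty with rfl | ⟨c, hc⟩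
    · exact S.inv_empty _
    · have : C = univ := eq_univ_of_forall fun b => hC c b (fun i hi => by simp at hi) hc
      rw [this]; exact S.inv_univ _
  | succ n ih =>
    have e : Ico (a + 1) (a + 1 + (n + 1 : ℕ)) ⊆ insert (a + n + 1) (Ico (a + 1) (a + 1 + n)) := by
      intro i hi
      simp only [mem_Ico, mem_insert_iff] at hi ⊢
      push_cast at hi
      omega
    have h1 := (ih _ (((hC.mono e).update true).mono sdiff_subset)).one
    have h0 := (ih _ (((hC.mono e).update false).mono sdiff_subset)).zero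
    have := h1.union h0 (Set.disjoint_left.2 fun ω h2 h3 => h3.2 h2.2)
    rw [Nat.cast_succ, ← add_assoc]
    refine Eq.subst (motive := S.Inv _) ?_ this
    conv_rhs => rw [split_coord C (a + n + 1)]
    ext ω
    simp [Ob]

theorem drift (a : ℤ) (n : ℕ) (C : Set (ℤ → Bool)) (hC : Loc (Ico a (a + n)) C) :
    S.δ / 2 * (Measure.infinitePi ν).real {ω | S.Ob ω ∈ C} ≤
      (Measure.infinitePi ν).real ({ω | S.Ob ω ∈ C} ∩ {ω | S.Ob ω (a + n) = true}) := by
  have h := (S.inv_history (a - 1) n C (by rwa [sub_add_cancel])).real_O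
  have e : a - 1 + n + 1 = a + n := by ring
  rw [e] at h
  have e2 : {ω | S.Ob ω (a + n) = true} = S.O (a + n) := by ext; simp [Ob]
  rw [e2]
  refine le_trans ?_ h
  have a1 := S.hV (a + n)
  have a2 : 0 ≤ (Measure.infinitePi ν).real (S.V (a + n)) := measureReal_nonneg
  have a3 : 0 ≤ (Measure.infinitePi ν).real {ω | S.Ob ω ∈ C} := measureReal_nonneg
  have := S.β1
  nlinarith [mul_le_mul_of_nonneg_left a1 a3, mul_nonneg a2 a3]

omit [∀ i, IsProbabilityMeasure (ν i)] in
theorem measurable_Ob : Measurable S.Ob := by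
  classical
  refine measurable_pi_lambda _ fun i => measurable_to_bool ?_
  have : (fun ω => S.Ob ω i) ⁻¹' {true} = S.O i := by ext; simp [Ob]
  rw [this]; exact S.mO i

end Sys

end Pool.Agent.MP_452076_pr

end

-- part MP_452076_pr.DiscMain
section

/-!
The main estimate in the discrete model.
-/

namespace Pool.Agent.MP_452076_pr

open MeasureTheory ProbabilityTheory Set Filter Topology
open scoped NNReal ENNReal

variable {d : ℕ}

theorem emod_window {M m : ℕ} (h : m ≤ M) {j t : ℤ} (h1 : j * M ≤ t) (h2 : t < j * M + m) :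
    t % M < m := by
  have e : t = (t - j * M) + j * M := by ring
  rw [e, Int.add_mul_emod_self_right, Int.emod_eq_of_lt (by omega) (by omega)]
  omega

theorem reach_win_subset {M m : ℕ} (h : m ≤ M) (ω : Cfg d) (B : Set (Site d)) (j : ℤ) {k : ℕ}
    (hk : k ≤ m) : reach (win M m ω) B (j * M) k ⊆ B := by
  induction k with
  | zero => exact subset_rfl
  | succ k ih =>
    rintro y ⟨x, hx, hs⟩
    rcases hs.1 with rfl | ha
    · exact ih (by omega) hx
    · have := hs.2.2.2
      have hw : ((x, y), j * M + k) ∈ Wn d M m := 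
        ⟨ha.ne, emod_window (j := j) h (by simp only; omega) (by simp only; omega)⟩
      simp [win, hw] at this

theorem tail_bound {Ts N : ℕ} (hT : 0 < Ts) {β : ℝ} (hβ : β = 1 / (4 * Ts))
    (hN : (1 / 4 : ℝ) ^ N ≤ 3 / 128 * β ^ 3) (s : ℕ) :
    4 / 3 * (1 / 4 : ℝ) ^ (N + s / Ts) ≤ β ^ 3 / 8 * (1 - β) ^ (2 * s) := by
  have hT' : (1 : ℝ) ≤ Ts := by exact_mod_cast hT
  have b0 : 0 < β := by rw [hβ]; positivity
  have b1 : β ≤ 1 / 4 := by
    rw [hβ]; exact one_div_le_one_div_of_le (by norm_num) (by linarith)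
  have h1 : (1 / 4 : ℝ) ≤ (1 - β) ^ (2 * Ts) := by
    have := one_add_mul_le_pow (a := -β) (by linarith) (2 * Ts)
    have e : ((2 * Ts : ℕ) : ℝ) * -β = -(1 / 2) := by
      rw [hβ]; push_cast; field_simp; norm_num
    rw [e, ← sub_eq_add_neg, ← sub_eq_add_neg] at this
    linarith
  have h2 : (1 / 4 : ℝ) ^ (s / Ts + 1) ≤ (1 - β) ^ (2 * s) := by
    refine (pow_le_pow_left₀ (by norm_num) h1 _).trans ?_
    rw [← pow_mul]
    refine pow_le_pow_of_le_one (by linarith) (by linarith) ?_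
    have := Nat.lt_div_mul_add (a := s) hT
    nlinarith
  rw [pow_succ] at h2
  rw [pow_add]
  have h3 := mul_le_mul_of_nonneg_right hN (show (0 : ℝ) ≤ (1 / 4) ^ (s / Ts) by positivity)
  have h4 := mul_le_mul_of_nonneg_left h2 (show (0 : ℝ) ≤ β ^ 3 by positivity)
  linarith

theorem eventually_div_le (c : ℝ) {ε : ℝ} (hε : 0 < ε) : ∀ᶠ M : ℕ in atTop, c / M ≤ ε :=
  (tendsto_const_div_atTop_nhds_zero_nat c).eventually (ge_mem_nhds hε)

theorem disc_main (i₁ : Fin d) {lam : ℝ≥0} (hl : 0 < lam) (U : Ultrafilter ℕ)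
    (hU : (U : Filter ℕ) ≤ atTop) {θ : ℝ} (hθ : 0 < θ)
    (h : ∀ t, ∀ᶠ M in U, θ ≤ (mu d lam M).real (Surv {0} 0 (t * M))) :
    ∃ M : ℕ, 0 < M ∧ ∃ ρ : unitInterval, 0 < ρ ∧ ∀ x : ℤ → Site d,
      ∃ O : Cfg d → ℤ → Bool, Measurable O ∧
        (∀ ω i, O ω i = true → ∀ k, (reach ω {x i} (-i * M) k).Nonempty) ∧
        ∀ (a : ℤ) (n : ℕ) (C : Set (ℤ → Bool)), Loc (Ico a (a + n)) C →
          ρ * (mu d lam M).real {ω | O ω ∈ C} ≤
            (mu d lam M).real ({ω | O ω ∈ C} ∩ {ω | O ω (a + n) = true}) := by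
  obtain ⟨n, L, g, t₀, T, -, hg, hT, hC⟩ := exists_crit i₁ hl U
    (hU (eventually_gt_atTop 0)) hθ h (ε := (1 / 12) ^ 18 / 12) (by positivity) (by norm_num)
  set Ts := 3 * g + 2 * (T - 1) with hTs
  have hTs0 : 0 < Ts := by omega
  have hT' : (1 : ℝ) ≤ Ts := by exact_mod_cast hTs0
  set β : ℝ := 1 / (4 * Ts) with hβ
  have b0 : 0 < β := by positivity
  have b1 : β ≤ 1 / 4 := one_div_le_one_div_of_le (by norm_num) (by linarith)
  obtain ⟨N₀, hN₀⟩ := exists_pow_lt_of_lt_one (show 0 < 3 / 128 * β ^ 3 by positivity)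
    (show (1 / 4 : ℝ) < 1 by norm_num)
  have hN : (1 / 4 : ℝ) ^ (N₀ + 1) ≤ 3 / 128 * β ^ 3 :=
    (pow_le_pow_of_le_one (by norm_num) (by norm_num) (Nat.le_succ _)).trans hN₀.le
  set N := N₀ + 1
  set R := n + 2 * N * (L + 1 + n) + 1
  set m := 2 * R * d + 1
  obtain ⟨M, hCM, hM, hmM, e1, e2, e3⟩ := (hC.and (hU ((eventually_gt_atTop 0).and
    ((eventually_ge_atTop m).and ((eventually_div_le ((((2 * (L + 1 + 2 * n) + 1) ^ d *
      (2 * (L + 1 + 2 * n + 1) + 1) ^ d * ((T + g) * m) : ℕ) : ℝ) * lam)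
      (show (0 : ℝ) < (1 / 12) ^ 18 / 12 by positivity)).and
    ((eventually_div_le ((((2 * R + 1) ^ d : ℕ) : ℝ) * m) (show 0 < β / 8 by positivity)).and
    (eventually_div_le lam (half_pos b0)))))))).exists
  have hW := hCM.wcrit hM m (by rwa [← mul_div_assoc])
  set δ : ℝ := (1 - Real.exp (-(lam * (1 : ℕ) / M))) ^ (m * ((2 * R + 1) ^ d * (2 * R + 1) ^ d))
  have x1 : Real.exp (-(lam * (1 : ℕ) / M)) < 1 := by
    refine Real.exp_lt_one_iff.2 (neg_lt_zero.2 ?_)
    have : (0 : ℝ) < lam := hl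
    positivity
  have δ0 : 0 < δ := pow_pos (by linarith) _
  have δ1 : δ ≤ 1 := pow_le_one₀ (by linarith) (by linarith [Real.exp_pos (-(lam * (1 : ℕ) / M) : ℝ)])
  refine ⟨M, hM, ⟨δ / 2, by positivity, by linarith⟩, (half_pos δ0 :), fun x => ?_⟩
  let P : ℤ → Par d := fun i => ⟨M, m, n, L, Ts, i₁, x i, cube (x i) R, -i⟩
  let S : Sys (nu (d := d) lam M) :=
    { Pa := fun i => {p | -i * M ≤ p.2}
      W := Wn d M m
      D := fun i s => (P i).Dead N s
      R := fun i => NoRec (cube (x i) R) (-i * M) m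
      V := fun i => Arr (cube (x i) R) (-i * M) 1 m
      w := 1 / (1 - β)
      β := β
      δ := δ
      mono := fun i j hij p hp => by
        have : -j * M ≤ -i * M := mul_le_mul_of_nonneg_right (by omega) (by positivity)
        exact this.trans hp
      lD := fun i s => ((P i).loc_Dead N s).mono (sdiff_subset_sdiff_left fun p hp =>
        ⟨hp.2.2.1, fun h1 => by
          have h2 := hp.2.2.2
          simp only [P, mem_ofPred_eq] at h1 h2
          linarith⟩)
      lR := fun i ω ω' e hω => by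
        simp only [NoRec, mem_iInter] at hω ⊢
        intro y hy t h1 h2
        rw [← e ((y, y), t) ⟨⟨h1, fun h3 => ?_⟩, fun h3 => h3.1 rfl⟩]
        · exact hω y hy t h1 h2
        · simp only [mem_ofPred_eq] at h3
          have : (m : ℤ) ≤ M := by exact_mod_cast hmM
          linarith
      lV := fun i => (loc_Arr _ _ _ _).mono fun p hp => by
        obtain ⟨⟨-, -, h1, h2⟩, h3⟩ := hp
        rw [mul_one] at h2
        refine ⟨⟨h1, fun h4 => ?_⟩, h3, emod_window hmM h1 h2⟩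
        simp only [mem_ofPred_eq] at h4
        have : (m : ℤ) ≤ M := by exact_mod_cast hmM
        linarith
      mD := fun i s => (P i).measurableSet_Dead N s
      mR := fun i => (loc_NoRec _ _ _).measurableSet (Own.finite (Finset.finite_toSet _) _ _)
      mV := fun i => (loc_Arr _ _ _ _).measurableSet
        ((Own.finite (Finset.finite_toSet _) _ _).inter_of_left _)
      D0 := fun i => (P i).dead_zero (Nat.succ_pos _)
      β0 := b0
      β1 := by linarith
      hw := one_div_mul_cancel (by linarith)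
      hF := fun i s => ((P i).real_dead lam hW hT hTs (by linarith) N s).trans
        (tail_bound hTs0 hβ hN s)
      hR := fun i => by
        rw [probReal_compl_eq_one_sub
          ((loc_NoRec _ _ _).measurableSet (Own.finite (Finset.finite_toSet _) _ _))]
        have a1 := real_NoRec lam M (cube (x i) R) (-i * M) m
        rw [card_cube, ← Real.exp_nat_mul] at a1
        have a2 := Real.add_one_le_exp ((((2 * R + 1) ^ d : ℕ) : ℝ) * -(m / M))
        rw [mul_div_assoc] at e2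
        linarith
      hV := fun i => by
        have a1 := real_Arr lam M (cube (x i) R) (-i * M) 1 m
        rwa [card_cube] at a1
      hV' := fun i => by
        have ha : Adj (x i) (x i + Pi.single i₁ 1) := by
          unfold Adj
          rw [Finset.sum_eq_single i₁ (fun j _ hj => by simp [Pi.single_eq_of_ne hj]) (by simp)]
          simp
        have a1 : Arr (cube (x i) R) (-i * M) 1 m ⊆
            (Col (x i, x i + Pi.single i₁ 1) (-i * M) 1 false)ᶜ := by
          intro ω hω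
          simp only [Arr, mem_iInter] at hω
          have := hω (0, x i, x i + Pi.single i₁ 1) (by
            simp only [Finset.mem_product, Finset.mem_range]
            exact ⟨Nat.succ_pos _, self_mem_cube _ _,
              cube_subset (self_mem_cube _ 0) (by omega) ha.mem_cube⟩) ha
          simpa using this
        refine (rmono a1).trans ?_
        rw [probReal_compl_eq_one_sub (measurableSet_Col (Or.inr ha) _ _ _), real_Col_adj lam M ha]
        have a2 := Real.add_one_le_exp (-(lam * (1 : ℕ) / M) : ℝ)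
        rw [Nat.cast_one, mul_one] at a2 ⊢
        linarith }
  refine ⟨S.Ob, S.measurable_Ob, fun ω i hi k => ?_, S.drift⟩
  simp only [Sys.Ob, decide_eq_true_eq] at hi
  obtain ⟨⟨h1, h2⟩, h3⟩ := hi
  have a1 := (P i).reach_of_not_dead (N := N) hM hTs0 (fun u hu => ?_) h1 (m + k)
  · have a2 : (cube (x i) R : Set (Site d)) ⊆ reach ω {x i} (-i * M) (0 + m * 1) :=
      fill (u := 0) (by simpa [S] using h2) (by simpa [S] using h3) le_rfl (self_mem_cube _ _) le_rfl
        (by omega) rfl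
    rw [zero_add, mul_one] at a2
    refine reach_nonempty_of_le (Nat.le_add_left k m) (a1.mono ?_)
    rw [reach_add _ _ _ m k, reach_add ω _ _ m k]
    exact reach_mono (win_le _ _ _) ((reach_win_subset hmM ω _ (-i) le_rfl).trans a2) _ _
  · refine Finset.coe_subset.2 (cube_subset (r' := 2 * N * (L + 1 + n)) ?_ (Nat.le_succ _))
    rw [mem_cube]
    intro j
    by_cases hj : j = i₁
    · simp only [P, Par.ctr, hj, Pi.add_apply, Pi.single_eq_same, add_sub_cancel_left, sub_zero]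
      rw [abs_of_nonneg (by positivity)]
      push_cast
      exact mul_le_mul_of_nonneg_right (by omega) (by positivity)
    · simp only [P, Par.ctr, Pi.add_apply, Pi.single_eq_of_ne hj, add_zero, sub_self, abs_zero]
      positivity

end Pool.Agent.MP_452076_pr

end

-- part MP_452076_pr.Couple
section

/-!
A process whose conditional probabilities given the past are at least `ρ` dominates a Bernoulli
product measure.
-/

namespace Pool.Agent.MP_452076_pr

open MeasureTheory ProbabilityTheory Set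
open scoped NNReal ENNReal symmDiff

def past (t : ℤ) (x : ℤ → Bool) : ℤ → Bool := fun s => if s < t then x s else false

theorem measurable_past (t : ℤ) : Measurable (past t) := by
  refine measurable_pi_lambda _ fun s => ?_
  unfold past
  split_ifs
  · exact measurable_pi_apply s
  · exact measurable_const

theorem past_past {s t : ℤ} (h : s ≤ t) (x : ℤ → Bool) : past s (past t x) = past s x := by
  funext r
  simp only [past]
  split_ifs with h1 h2
  · rfl
  · omega
  · rfl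

noncomputable abbrev unif : Measure (ℤ → unitInterval) :=
  Measure.infinitePi fun _ : ℤ => (volume : Measure unitInterval)

section
variable (m : Measure (ℤ → Bool)) [IsProbabilityMeasure m] (ρ : unitInterval)

/-- Hypothesis on finite histories. -/
def Hist : Prop := ∀ (a : ℤ) (n : ℕ) (C : Set (ℤ → Bool)), Loc (Ico a (a + n)) C →
  ρ * m.real C ≤ m.real (C ∩ {x | x (a + n) = true})

noncomputable def dens (t : ℤ) : (ℤ → Bool) → ℝ≥0∞ :=
  ((m.restrict {x | x t = true}).map (past t)).rnDeriv (m.map (past t))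

variable {m ρ}

omit [IsProbabilityMeasure m] in
theorem Hist.cyl (h : Hist m ρ) (t : ℤ) {C : Set (ℤ → Bool)}
    (hC : C ∈ measurableCylinders fun _ : ℤ => Bool) :
    ρ * m.real (past t ⁻¹' C) ≤ m.real (past t ⁻¹' C ∩ {x | x t = true}) := by
  obtain ⟨I, S, -, rfl⟩ := (mem_measurableCylinders _).1 hC
  obtain ⟨a, ha⟩ := (insert t I).bddBelow
  have hat : a ≤ t := ha (by simp)
  obtain ⟨n, rfl⟩ := Int.eq_ofNat_of_zero_le (sub_nonneg.2 hat) |>.imp
    (fun n (hn : t - a = (n : ℕ)) => show t = a + n by omega)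
  refine h a n _ fun x y e hx => ?_
  simp only [mem_preimage, mem_cylinder] at hx ⊢
  have : I.restrict (past (a + n) y) = I.restrict (past (a + n) x) := by
    funext i
    simp only [Finset.restrict, past]
    split_ifs with hi
    · exact (e i ⟨ha (by simp), hi⟩).symm
    · rfl
  rwa [this]

theorem Hist.meas (h : Hist m ρ) (t : ℤ) {C : Set (ℤ → Bool)} (hC : MeasurableSet C) :
    ρ * m.real (past t ⁻¹' C) ≤ m.real (past t ⁻¹' C ∩ {x | x t = true}) := by
  refine le_of_forall_pos_le_add fun ε hε => ?_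
  have : IsProbabilityMeasure (m.map (past t)) :=
    Measure.isProbabilityMeasure_map (measurable_past t).aemeasurable
  obtain ⟨D, hD, hε'⟩ := exists_measure_symmDiff_lt_of_generateFrom_isSetRing
    (μ := m.map (past t)) isSetRing_measurableCylinders
    ⟨{univ}, countable_singleton _, singleton_subset_iff.2 (univ_mem_measurableCylinders _),
      by simp⟩ generateFrom_measurableCylinders.symm hC (ENNReal.ofReal_pos.2 (half_pos hε))
  have mD := MeasurableSet.of_mem_measurableCylinders hD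
  rw [Measure.map_apply (measurable_past t) (mD.symmDiff hC)] at hε'
  have a0 : m.real (past t ⁻¹' (D ∆ C)) ≤ ε / 2 :=
    ENNReal.toReal_le_of_le_ofReal (half_pos hε).le hε'.le
  have a1 := h.cyl t hD
  have a2 : m.real (past t ⁻¹' C) ≤ m.real (past t ⁻¹' D) + m.real (past t ⁻¹' (D ∆ C)) :=
    runion fun x hx => (em (past t x ∈ D)).imp id fun h => Or.inr ⟨hx, h⟩
  have a3 : m.real (past t ⁻¹' D ∩ {x | x t = true}) ≤ m.real (past t ⁻¹' C ∩ {x | x t = true}) +
      m.real (past t ⁻¹' (D ∆ C)) :=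
    runion fun x hx => (em (past t x ∈ C)).imp (fun h => ⟨h, hx.2⟩) fun h => Or.inl ⟨hx.1, h⟩
  have a4 := mul_le_mul_of_nonneg_left a2 ρ.2.1
  have a5 : (ρ : ℝ) * m.real (past t ⁻¹' (D ∆ C)) ≤ 1 * m.real (past t ⁻¹' (D ∆ C)) :=
    mul_le_mul_of_nonneg_right ρ.2.2 measureReal_nonneg
  linarith

theorem ac_past (m : Measure (ℤ → Bool)) (t : ℤ) :
    (m.restrict {x | x t = true}).map (past t) ≪ m.map (past t) :=
  (Measure.absolutelyContinuous_of_le Measure.restrict_le_self).map (measurable_past t)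

theorem hld (m : Measure (ℤ → Bool)) [IsProbabilityMeasure m] (t : ℤ) :
    ((m.restrict {x | x t = true}).map (past t)).HaveLebesgueDecomposition (m.map (past t)) := by
  have : IsFiniteMeasure ((m.restrict {x | x t = true}).map (past t)) :=
    Measure.isFiniteMeasure_map _ _
  have : IsFiniteMeasure (m.map (past t)) := Measure.isFiniteMeasure_map _ _
  exact Measure.haveLebesgueDecomposition_of_finiteMeasure

theorem Hist.dens_ge (h : Hist m ρ) (t : ℤ) :
    ∀ᵐ y ∂(m.map (past t)), ENNReal.ofReal ρ ≤ dens m t y ∧ dens m t y < ∞ := by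
  have : IsProbabilityMeasure (m.map (past t)) :=
    Measure.isProbabilityMeasure_map (measurable_past t).aemeasurable
  have := hld m t
  refine Filter.Eventually.and ?_ (Measure.rnDeriv_lt_top _ _)
  refine ae_le_of_forall_setLIntegral_le_of_sigmaFinite (f := fun _ => ENNReal.ofReal ρ)
    measurable_const fun C hC _ => ?_
  rw [dens, Measure.setLIntegral_rnDeriv (ac_past m t), setLIntegral_const,
    Measure.map_apply (measurable_past t) hC, Measure.map_apply (measurable_past t) hC,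
    Measure.restrict_apply (measurable_past t hC), ← ofReal_measureReal, ← ofReal_measureReal,
    ← ENNReal.ofReal_mul ρ.2.1]
  exact ENNReal.ofReal_le_ofReal (h.meas t hC)

variable (m ρ)

open Classical in
noncomputable def thin (p : (ℤ → Bool) × (ℤ → unitInterval)) (t : ℤ) : Bool :=
  p.1 t && decide (ENNReal.ofReal (p.2 t) * dens m t (past t p.1) ≤ ENNReal.ofReal ρ)

omit [IsProbabilityMeasure m] in
theorem measurable_dens (t : ℤ) : Measurable (dens m t) := Measure.measurable_rnDeriv _ _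

omit [IsProbabilityMeasure m] in
theorem measurable_thin : Measurable (thin m ρ) := by
  refine measurable_pi_lambda _ fun t => measurable_to_bool ?_
  have : (fun p => thin m ρ p t) ⁻¹' {true} = (Prod.fst ⁻¹' {x | x t = true}) ∩
      {p : (ℤ → Bool) × (ℤ → unitInterval) |
        ENNReal.ofReal (p.2 t) * dens m t (past t p.1) ≤ ENNReal.ofReal ρ} := by
    ext p; simp [thin]
  rw [this]
  refine (measurable_fst (measurableSet_coord _ _)).inter (measurableSet_le ?_ measurable_const)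
  exact (ENNReal.measurable_ofReal.comp (measurable_subtype_coe.comp
    ((measurable_pi_apply t).comp measurable_snd))).mul
    ((measurable_dens m t).comp ((measurable_past t).comp measurable_fst))

theorem vol_thin (hρ : 0 < ρ) {p : ℝ≥0∞} (h1 : ENNReal.ofReal ρ ≤ p) (h2 : p < ∞) :
    p * volume {v : unitInterval | ENNReal.ofReal v * p ≤ ENNReal.ofReal ρ} = ENNReal.ofReal ρ := by
  have hρ' : (0 : ℝ) < ρ := hρ
  have p0 : p ≠ 0 := ((ENNReal.ofReal_pos.2 hρ').trans_le h1).ne'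
  have q1 : ENNReal.ofReal ρ / p ≤ 1 := ENNReal.div_le_of_le_mul (by rwa [one_mul])
  have q2 : ENNReal.ofReal ρ / p ≠ ∞ := (q1.trans_lt ENNReal.one_lt_top).ne
  have : {v : unitInterval | ENNReal.ofReal v * p ≤ ENNReal.ofReal ρ} =
      Iic ⟨(ENNReal.ofReal ρ / p).toReal, ENNReal.toReal_nonneg,
        ENNReal.toReal_le_of_le_ofReal zero_le_one (by simpa using q1)⟩ := by
    ext v
    rw [mem_ofPred_eq, mem_Iic, ← ENNReal.le_div_iff_mul_le (Or.inl p0) (Or.inl h2.ne),
      ENNReal.ofReal_le_iff_le_toReal q2]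
    rfl
  rw [this, unitInterval.volume_Iic, ENNReal.ofReal_toReal q2, ENNReal.mul_div_cancel p0 h2.ne]

variable {m ρ}

theorem Hist.key (h : Hist m ρ) (hρ : 0 < ρ) (t : ℤ)
    {E : Set ((ℤ → Bool) × (ℤ → unitInterval))} (mE : MeasurableSet E)
    (h1 : ∀ x u, (x, u) ∈ E ↔ (past t x, u) ∈ E) (h2 : ∀ x, Loc {t}ᶜ {u | (x, u) ∈ E}) :
    (m.prod unif) (E ∩ {p | thin m ρ p t = true}) = ENNReal.ofReal ρ * (m.prod unif) E := by
  classical
  let e : (ℤ → Bool) → ℝ≥0∞ := fun y => unif (Prod.mk y ⁻¹' E)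
  let q : (ℤ → Bool) → ℝ≥0∞ := fun y =>
    volume {v : unitInterval | ENNReal.ofReal v * dens m t y ≤ ENNReal.ofReal ρ}
  have me : Measurable e := measurable_measure_prodMk_left mE
  have mS : MeasurableSet {z : (ℤ → Bool) × unitInterval |
      ENNReal.ofReal z.2 * dens m t z.1 ≤ ENNReal.ofReal ρ} :=
    measurableSet_le ((ENNReal.measurable_ofReal.comp (measurable_subtype_coe.comp
      measurable_snd)).mul ((measurable_dens m t).comp measurable_fst)) measurable_const
  have mq : Measurable q := measurable_measure_prodMk_left mS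
  have mT : MeasurableSet {p | thin m ρ p t = true} :=
    measurable_thin m ρ (measurableSet_coord t true)
  have a1 : ∀ x, unif (Prod.mk x ⁻¹' (E ∩ {p | thin m ρ p t = true})) =
      {x : ℤ → Bool | x t = true}.indicator (fun x => q (past t x) * e (past t x)) x := by
    intro x
    by_cases hx : x t = true
    · rw [indicator_of_mem (show x ∈ {x : ℤ → Bool | x t = true} from hx)]
      have b1 : Prod.mk x ⁻¹' (E ∩ {p | thin m ρ p t = true}) =
          (fun u => u t) ⁻¹' {v : unitInterval |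
            ENNReal.ofReal v * dens m t (past t x) ≤ ENNReal.ofReal ρ} ∩
            Prod.mk (past t x) ⁻¹' E := by
        ext u
        simp only [mem_preimage, mem_inter_iff, mem_ofPred_eq, thin, hx, Bool.true_and,
          decide_eq_true_eq, ← h1, and_comm]
      have mv : MeasurableSet {v : unitInterval |
          ENNReal.ofReal v * dens m t (past t x) ≤ ENNReal.ofReal ρ} :=
        measurable_prodMk_left mS
      rw [b1]
      refine (indep_loc _ (J := {t}) (fun u u' e hu => by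
          simp only [mem_preimage] at hu ⊢
          rwa [← e t rfl]) (h2 _) (measurable_pi_apply t mv) (measurable_prodMk_left mE)).trans ?_
      rw [← Measure.map_apply (measurable_pi_apply t) mv, Measure.infinitePi_map_eval]
      rfl
    · rw [indicator_of_notMem (show x ∉ {x : ℤ → Bool | x t = true} from hx)]
      have : Prod.mk x ⁻¹' (E ∩ {p | thin m ρ p t = true}) = ∅ := by
        ext u; simp [thin, hx]
      rw [this, measure_empty]
  have : IsProbabilityMeasure (m.map (past t)) :=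
    Measure.isProbabilityMeasure_map (measurable_past t).aemeasurable
  have := hld m t
  rw [Measure.prod_apply (mE.inter mT), Measure.prod_apply mE]
  simp only [a1]
  rw [lintegral_indicator (measurableSet_coord t true),
    ← lintegral_map (f := fun y => q y * e y) (mq.mul me) (measurable_past t),
    ← lintegral_rnDeriv_mul (f := fun y => q y * e y) (ac_past m t) (mq.mul me).aemeasurable]
  have a2 : ∫⁻ x, unif (Prod.mk x ⁻¹' E) ∂m = ∫⁻ y, e y ∂(m.map (past t)) := by
    rw [lintegral_map me (measurable_past t)]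
    refine lintegral_congr fun x => ?_
    simp only [e]
    congr 1
    ext u
    exact h1 x u
  rw [a2, ← lintegral_const_mul _ me]
  refine lintegral_congr_ae ?_
  filter_upwards [h.dens_ge t] with y hy
  rw [← mul_assoc, ← vol_thin ρ hρ hy.1 hy.2]
  rfl

theorem Hist.law (h : Hist m ρ) (hρ : 0 < ρ) :
    (m.prod unif).map (thin m ρ) =
      Measure.infinitePi fun _ : ℤ => bernoulliMeasure true false ρ := by
  classical
  refine Measure.eq_infinitePi _ fun s T hT => ?_
  rw [Measure.map_apply (measurable_thin m ρ) (.pi s.countable_toSet fun _ _ => hT _)]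
  induction s using Finset.induction_on_max with
  | empty => simp
  | insert a s ha ih =>
    have has : a ∉ s := fun h => lt_irrefl _ (ha a h)
    rw [Finset.prod_insert has, ← ih, Finset.coe_insert, insert_pi, preimage_inter, inter_comm]
    set E := thin m ρ ⁻¹' (s : Set ℤ).pi T with hE
    have mE : MeasurableSet E := measurable_thin m ρ (.pi s.countable_toSet fun _ _ => hT _)
    have k1 := h.key hρ a mE (fun x u => by
        simp only [hE, mem_preimage, mem_pi, Finset.mem_coe]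
        refine forall₂_congr fun i hi => ?_
        have := ha i hi
        simp only [thin, past_past this.le]
        simp only [past, this, if_true])
      (fun x u u' e hu => by
        simp only [hE, mem_preimage, mem_pi, Finset.mem_coe, mem_ofPred_eq] at hu ⊢
        intro i hi
        have := hu i hi
        simpa only [thin, e i (ha i hi).ne] using this)
    have ma : Measurable fun p => thin m ρ p a :=
      (measurable_pi_apply a).comp (measurable_thin m ρ)
    have k2 : ((m.prod unif).restrict E).map (fun p => thin m ρ p a) =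
        (m.prod unif) E • bernoulliMeasure true false ρ := by
      have c1 : (((m.prod unif).restrict E).map (fun p => thin m ρ p a)) {true} =
          ((m.prod unif) E • bernoulliMeasure true false ρ) {true} := by
        rw [Measure.map_apply ma (measurableSet_singleton _),
          Measure.restrict_apply (ma (measurableSet_singleton _)), inter_comm, Measure.smul_apply,
          bernoulliMeasure_apply_of_mem_of_notMem _ (measurableSet_singleton _) rfl (by simp),
          smul_eq_mul, mul_comm]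
        refine k1.trans ?_
        congr 1
        exact ENNReal.ofReal_eq_coe_nnreal ρ.2.1
      have c2 : (((m.prod unif).restrict E).map (fun p => thin m ρ p a)) univ =
          ((m.prod unif) E • bernoulliMeasure true false ρ) univ := by
        rw [Measure.map_apply ma .univ, preimage_univ, Measure.restrict_apply_univ,
          Measure.smul_apply, measure_univ, smul_eq_mul, mul_one]
      refine Measure.ext_of_singleton fun b => ?_
      cases b
      · have e : ({false} : Set Bool) = {true}ᶜ := by ext b; cases b <;> simp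
        rw [e, measure_compl (measurableSet_singleton _) (measure_ne_top _ _),
          measure_compl (measurableSet_singleton _), c1, c2]
        rw [← c1]
        exact measure_ne_top _ _
      · exact c1
    have k3 := congrArg (fun κ : Measure Bool => κ (T a)) k2
    simp only [Measure.smul_apply, smul_eq_mul] at k3
    rw [Measure.map_apply ma (hT a), Measure.restrict_apply (ma (hT a)), inter_comm] at k3
    rw [mul_comm, ← k3]
    rfl

end

theorem couple {Ω : Type*} [MeasurableSpace Ω] (μ : Measure Ω) [IsProbabilityMeasure μ]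
    {O Y : Ω → ℤ → Bool} (hO : Measurable O) (hY : AEMeasurable Y μ)
    (hle : ∀ᵐ ω ∂μ, ∀ i, O ω i ≤ Y ω i) {ρ : unitInterval} (hρ : 0 < ρ)
    (h : ∀ (a : ℤ) (n : ℕ) (C : Set (ℤ → Bool)), Loc (Ico a (a + n)) C →
      ρ * μ.real {ω | O ω ∈ C} ≤ μ.real ({ω | O ω ∈ C} ∩ {ω | O ω (a + n) = true})) :
    ∃ Q : Measure ((ℤ → Bool) × (ℤ → Bool)), IsProbabilityMeasure Q ∧ Q.fst = μ.map Y ∧
      Q.snd = (Measure.infinitePi fun _ : ℤ => bernoulliMeasure true false ρ) ∧
      ∀ᵐ p ∂Q, ∀ i, p.2 i ≤ p.1 i := by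
  have : IsProbabilityMeasure (μ.map O) := Measure.isProbabilityMeasure_map hO.aemeasurable
  have hH : Hist (μ.map O) ρ := fun a n C hC => by
    have mC := hC.measurableSet (finite_Ico _ _)
    rw [map_measureReal_apply hO mC, map_measureReal_apply hO (mC.inter (measurableSet_coord _ _))]
    exact h a n C hC
  let Z : Ω × (ℤ → unitInterval) → ℤ → Bool := thin (μ.map O) ρ ∘ Prod.map O id
  have mZ : Measurable Z := (measurable_thin _ _).comp (hO.prodMap measurable_id)
  have mY : AEMeasurable (fun p : Ω × (ℤ → unitInterval) => Y p.1) (μ.prod unif) :=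
    hY.comp_quasiMeasurePreserving Measure.quasiMeasurePreserving_fst
  have mYZ := mY.prodMk mZ.aemeasurable
  refine ⟨(μ.prod unif).map fun p => (Y p.1, Z p), Measure.isProbabilityMeasure_map mYZ, ?_, ?_, ?_⟩
  · rw [Measure.fst_map_prodMk₀ mZ.aemeasurable]
    conv_rhs => rw [← Measure.fst_prod (μ := μ) (ν := unif), Measure.fst]
    rw [AEMeasurable.map_map_of_aemeasurable (by simpa using hY) measurable_fst.aemeasurable]
    rfl
  · rw [Measure.snd_map_prodMk₀ mY, ← hH.law hρ,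
      ← Measure.map_map (measurable_thin _ _) (hO.prodMap measurable_id),
      ← Measure.map_prod_map _ _ hO measurable_id, Measure.map_id]
  · rw [ae_map_iff mYZ]
    · filter_upwards [Measure.quasiMeasurePreserving_fst.ae hle] with p hp i
      refine le_trans ?_ (hp i)
      simp only [Z, Function.comp, thin, Prod.map_fst]
      exact Bool.and_le_left _ _
    · have : {p : (ℤ → Bool) × (ℤ → Bool) | ∀ i, p.2 i ≤ p.1 i} = ⋂ i, {p | p.2 i ≤ p.1 i} := by
        ext; simp
      rw [this]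
      refine .iInter fun i => ?_
      have hm : Measurable fun p : (ℤ → Bool) × (ℤ → Bool) => (p.2 i, p.1 i) := by fun_prop
      exact hm (t := {b : Bool × Bool | b.1 ≤ b.2}) (Set.toFinite _).measurableSet

end Pool.Agent.MP_452076_pr

end
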