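import Pool.Agent.MP_452076_pr.Mg.Cont
import Pool.Agent.MP_452076_pr.Mg.Couple

/-!
The main theorem.
-/

namespace Pool.Agent.MP_452076_pr

open MeasureTheory ProbabilityTheory Set Filter Topology
open scoped NNReal ENNReal

theorem real_mono_param {ι : Type*} (ν ν' : ι → Measure Bool) [∀ i, IsProbabilityMeasure (ν i)]
    [∀ i, IsProbabilityMeasure (ν' i)] (h : ∀ i, (ν i).real {true} ≤ (ν' i).real {true})
    {J : Set ι} (hJ : J.Finite) {A : Set (ι → Bool)} (hA : Loc J A) (uA : IsUpperSet A) :
    (Measure.infinitePi ν).real A ≤ (Measure.infinitePi ν').real A := by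
  classical
  induction J, hJ using Set.Finite.induction_on generalizing A with
  | empty =>
    rcases A.eq_empty_or_nonempty with rfl | ⟨a, ha⟩
    · simp
    · have : A = univ := eq_univ_of_forall fun b => hA a b (fun _ hi => hi.elim) ha
      simp [this]
  | @insert i J _ hJ ih =>
    have up : ∀ b, IsUpperSet {ω | Function.update ω i b ∈ A} := fun b x y hxy hx =>
      uA (update_le_update_iff.2 ⟨le_rfl, fun j _ => hxy j⟩) hx
    have sub : {ω | Function.update ω i false ∈ A} ⊆ {ω | Function.update ω i true ∈ A} :=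
      fun x hx => uA (update_le_update_iff.2 ⟨Bool.false_le _, fun j _ => le_rfl⟩) hx
    rw [real_split ν hJ hA, real_split ν' hJ hA]
    have i1 := ih ((hA.update true).mono sdiff_subset) (up true)
    have i0 := ih ((hA.update false).mono sdiff_subset) (up false)
    have sA := rmono (μ := Measure.infinitePi ν') sub
    have hp := real_true_add_false (ν i)
    have hp' := real_true_add_false (ν' i)
    have p1 : 0 ≤ (ν i).real {true} := measureReal_nonneg
    have p0 : 0 ≤ (ν i).real {false} := measureReal_nonneg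
    have e1 : (ν i).real {false} = 1 - (ν i).real {true} := by linarith
    have e2 : (ν' i).real {false} = 1 - (ν' i).real {true} := by linarith
    rw [e1] at p0
    rw [e1, e2]
    nlinarith [mul_le_mul_of_nonneg_right i1 p1, mul_le_mul_of_nonneg_right i0 p0,
      mul_nonneg (sub_nonneg.2 sA) (sub_nonneg.2 (h i))]

variable {d : ℕ}

theorem reach_subset_cube (ω : Cfg d) (x : Site d) (s : ℤ) (k : ℕ) :
    reach ω {x} s k ⊆ cube x k := by
  induction k with
  | zero => exact singleton_subset_iff.2 (self_mem_cube _ _)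
  | succ k ih =>
    rintro y ⟨z, hz, hs⟩
    rcases hs.1 with rfl | ha
    · exact cube_subset (self_mem_cube x 0) (by omega) (ih hz)
    · exact cube_subset (ih hz) (by omega) ha.mem_cube

theorem reach_eq_cut (ω : Cfg d) (x : Site d) (s : ℤ) {k l : ℕ} (h : k ≤ l) :
    reach ω {x} s k = reach (cut (cube x l) ω) {x} s k := by
  refine subset_antisymm ?_ (reach_mono (cut_le _ _) subset_rfl _ _)
  induction k with
  | zero => exact subset_rfl
  | succ k ih =>
    rintro y ⟨z, hz, hs⟩
    refine ⟨z, ih (by omega) hz, step_cut.2 ⟨hs, ?_, ?_⟩⟩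
    · exact cube_subset (self_mem_cube x 0) (by omega) (reach_subset_cube ω x s k hz)
    · exact cube_subset (self_mem_cube x 0) (by omega)
        (reach_subset_cube ω x s (k + 1) ⟨z, hz, hs⟩)

theorem real_Surv_mono {lam lam' : ℝ≥0} (h : lam ≤ lam') (M k : ℕ) :
    (mu d lam M).real (Surv {0} 0 k) ≤ (mu d lam' M).real (Surv {0} 0 k) := by
  refine real_mono_param _ _ (fun i => ?_)
    (Own.finite (Finset.finite_toSet (cube (0 : Site d) k)) 0 k) (fun ω ω' e hω => ?_)
    fun ω ω' hle hω => Set.Nonempty.mono (reach_mono hle subset_rfl _ _) hω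
  · obtain ⟨⟨x, y⟩, t⟩ := i
    rw [nu_true, nu_true]
    by_cases h1 : x = y
    · subst h1; rw [pr_diag, pr_diag]
    · by_cases h2 : Adj x y
      · rw [pr_adj _ _ h2, pr_adj _ _ h2]
        have : (lam : ℝ) / M ≤ lam' / M := div_le_div_of_nonneg_right h (by positivity)
        linarith [Real.exp_le_exp.2 (neg_le_neg this)]
      · simp [pr, rate, h1, h2]
  · simp only [Surv, mem_ofPred_eq] at hω ⊢
    rw [reach_eq_cut _ _ _ le_rfl] at hω ⊢
    rwa [← reach_cut_congr _ (by rw [zero_add]) e]

theorem measurable_rev : Measurable (rev (d := d)) :=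
  measurable_pi_lambda _ fun _ => measurable_pi_apply _

theorem domination (d : ℕ) (hd : 1 ≤ d) (lam : ℝ≥0) (h : lambdaC d < lam) :
    ∃ ρ : unitInterval, 0 < ρ ∧ ∀ x : ℤ → Site d,
      AEMeasurable (fun (ω : Sample d) (i : ℤ) => eta ω i (x i)) (law d lam) ∧
      ∃ Q : Measure ((ℤ → Bool) × (ℤ → Bool)), IsProbabilityMeasure Q ∧
        Q.fst = (law d lam).map (fun ω (i : ℤ) => eta ω i (x i)) ∧
        Q.snd = (Measure.infinitePi fun _ : ℤ => bernoulliMeasure true false ρ) ∧
        ∀ᵐ p ∂Q, ∀ i, p.2 i ≤ p.1 i := by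
  simp only [lambdaC, iInf_lt_iff, ENNReal.coe_lt_coe] at h
  obtain ⟨lam₀, h0, h1⟩ := h
  obtain ⟨M, hM, ρ, hρ, hx⟩ := disc_main (d := d) ⟨0, hd⟩ (zero_le.trans_lt h1) (hyperfilter ℕ)
    (Nat.hyperfilter_le_atTop)
    (half_pos (ENNReal.toReal_pos h0.ne' (measure_ne_top _ _)))
    fun t => Nat.hyperfilter_le_atTop ((surv_ev lam₀ h0.ne' t).mono fun M hM =>
      hM.trans (real_Surv_mono h1.le M _))
  refine ⟨ρ, hρ, fun x => ⟨aemeasurable_eta lam x, ?_⟩⟩
  obtain ⟨O, mO, hO, hH⟩ := hx x
  have mg : Measurable fun ω : Sample d => rev (disc M ω) := measurable_rev.comp (measurable_disc M)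
  have law_g : (law d lam).map (fun ω => rev (disc M ω)) = mu d lam M := by
    rw [← map_rev lam M, ← map_disc lam hM, Measure.map_map measurable_rev (measurable_disc M)]
    rfl
  refine couple (law d lam) (O := fun ω => O (rev (disc M ω))) (mO.comp mg)
    (aemeasurable_eta lam x) ?_ hρ fun a n C hC => ?_
  · filter_upwards [ae_reg lam] with ω hω i
    rw [Bool.le_iff_imp, hω.eta_iff]
    intro hi n
    obtain ⟨y, hy⟩ := hO _ i hi (n * M)
    have e : -(-i * M) - ((n * M : ℕ) : ℤ) = (i - n) * M := by push_cast; ring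
    exact ⟨y, M, hM, e ▸ mem_reach_rev hy⟩
  · have mC : MeasurableSet {ω | O ω ∈ C} := mO (hC.measurableSet (finite_Ico _ _))
    have mT : MeasurableSet {ω | O ω (a + n) = true} := mO (measurableSet_coord (a + n) true)
    have := hH a n C hC
    rw [← law_g, map_measureReal_apply mg mC,
      map_measureReal_apply mg (mC.inter mT)] at this
    exact this

end Pool.Agent.MP_452076_pr
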